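import Pool.Agent.N169.PC.PLin
import Pool.Agent.W432.PC.Points

/-!
# Nilpotent `p`-curvatures make the iterates divisible by `p`
-/

set_option autoImplicit false
set_option linter.unusedSectionVars false

open Polynomial

namespace Pool.Agent.N169.PC

section coef

variable {R : Type*} [CommRing R] {r : ℕ}

/-- all coefficients are in the ideal -/
def CoefIn (I : Ideal R) (q : Fin r → R[X]) : Prop := ∀ i n, (q i).coeff n ∈ I

lemma eq_sum_basis (q : Fin r → R[X]) :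
    q = ∑ i, ∑ l ∈ (q i).support, C ((q i).coeff l) • (Pi.single i (X ^ l) : Fin r → R[X]) := by
  classical
  funext j
  rw [Finset.sum_apply, Finset.sum_eq_single j]
  · rw [Finset.sum_apply]
    conv_lhs => rw [(q j).as_sum_support_C_mul_X_pow]
    refine Finset.sum_congr rfl fun l _ => ?_
    rw [Pi.smul_apply, Pi.single_eq_same, smul_eq_mul]
  · intro i _ hij
    rw [Finset.sum_apply]
    refine Finset.sum_eq_zero fun l _ => ?_
    rw [Pi.smul_apply, Pi.single_eq_of_ne (Ne.symm hij), smul_zero]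
  · intro h
    exact absurd (Finset.mem_univ j) h

variable (D : R[X]) (N : Matrix (Fin r) (Fin r) R[X])

lemma coefIn_step {I J : Ideal R} (a : R) (n : ℕ)
    (h : ∀ c q, CoefIn J (C a • opQ D N c q n)) (c : ℕ) (q : Fin r → R[X]) (hq : CoefIn I q) :
    CoefIn (I * J) (C a • opQ D N c q n) := by
  classical
  intro i m
  have h1 : C a • opQ D N c q n = ∑ j, ∑ l ∈ (q j).support,
      C ((q j).coeff l) • (C a • opQ D N c (Pi.single j (X ^ l) : Fin r → R[X]) n) := by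
    conv_lhs => rw [eq_sum_basis q, opQ_sum, Finset.smul_sum]
    refine Finset.sum_congr rfl fun j _ => ?_
    rw [opQ_sum, Finset.smul_sum]
    refine Finset.sum_congr rfl fun l _ => ?_
    rw [opQ_smul, smul_comm]
  rw [h1, Finset.sum_apply, finsetSum_coeff]
  refine Ideal.sum_mem _ fun j _ => ?_
  rw [Finset.sum_apply, finsetSum_coeff]
  refine Ideal.sum_mem _ fun l _ => ?_
  rw [Pi.smul_apply, smul_eq_mul, coeff_C_mul]
  exact Ideal.mul_mem_mul (hq j l) (h c _ i m)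

lemma coefIn_pow {J : Ideal R} (a : R) (n : ℕ)
    (h : ∀ c q, CoefIn J (C a • opQ D N c q n)) (c : ℕ) (q : Fin r → R[X]) (t : ℕ) :
    CoefIn (J ^ t) ((C a) ^ t • opQ D N c q (n * t)) := by
  induction t with
  | zero =>
    intro i m
    rw [pow_zero, Ideal.one_eq_top]
    exact Submodule.mem_top
  | succ t ih =>
    have h1 := coefIn_step D N (I := J ^ t) (J := J) a n h (c + n * t)
      ((C a) ^ t • opQ D N c q (n * t)) ih
    rw [← C_pow, opQ_smul, ← opQ_add_index] at h1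
    rw [pow_succ, pow_succ, Nat.mul_succ]
    have h2 : (C a ^ t * C a) • opQ D N c q (n * t + n) =
        C a • (C (a ^ t) • opQ D N c q (n * t + n)) := by
      rw [C_pow, smul_smul, mul_comm]
    rw [h2]
    exact h1

end coef

section nilpotent

variable {R : Type*} [CommRing R] {r : ℕ} (D : R[X]) (N : Matrix (Fin r) (Fin r) R[X])

lemma NilpotentAt.coeff_mem {D : R[X]} {N : Matrix (Fin r) (Fin r) R[X]} (hD : D.Monic)
    {𝔪 : Ideal R} [𝔪.IsMaximal] (h : NilpotentAt D N 𝔪) {p : ℕ} (hp : p.Prime)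
    (hp𝔪 : (p : R) ∈ 𝔪) (c : ℕ) (q : Fin r → R[X]) (i : Fin r) (l : ℕ) :
    (opQ D N c q (p * r) i).coeff l ∈ 𝔪 := by
  let _ : Field (R ⧸ 𝔪) := Ideal.Quotient.field 𝔪
  have hchar : CharP (R ⧸ 𝔪) p := by
    have h1 : ((p : ℕ) : R ⧸ 𝔪) = 0 := by
      have h2 := Ideal.Quotient.eq_zero_iff_mem.2 hp𝔪
      rwa [map_natCast] at h2
    exact (CharP.charP_iff_prime_eq_zero hp).2 h1
  have hD0 : D.map (Ideal.Quotient.mk 𝔪) ≠ 0 := (hD.map _).ne_zero
  have h1 := opQ_eq_zero (K := R ⧸ 𝔪) _ _ hD0 (fun v => PCurvNilpotent.iterate h hp v) c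
    (fun i => (q i).map (Ideal.Quotient.mk 𝔪))
  have h2 := opQ_map D N (Ideal.Quotient.mk 𝔪) c q (p * r) i
  rw [← Ideal.Quotient.eq_zero_iff_mem, ← coeff_map, h2]
  have h3 := congrFun h1 i
  rw [Pi.zero_apply] at h3
  rw [h3, coeff_zero]

theorem exists_div [Algebra.FiniteType ℤ R] (hD : D.Monic) (a : R) {p : ℕ} (hp : p.Prime)
    (h : ∀ (𝔪 : Ideal R) [𝔪.IsMaximal], (p : R) ∈ 𝔪 → a ∉ 𝔪 → NilpotentAt D N 𝔪)
    (q : Fin r → R[X]) : ∃ n t, ∀ l, ∃ q' : R[X],
      C a ^ t * opQ D N 0 q n l = (p : R[X]) * q' := by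
  have hJ : IsJacobsonRing ℤ := W432.PC.jac_int
  have hJR : IsJacobsonRing R := isJacobsonRing_of_finiteType (A := ℤ)
  have hN : IsNoetherianRing R := Algebra.FiniteType.isNoetherianRing ℤ R
  set J : Ideal R := (Ideal.span {(p : R)}).radical with hJdef
  have hJrad : J.jacobson = J := IsJacobsonRing.out hJR (Ideal.radical_isRadical _)
  have h1 : ∀ c q, CoefIn J (C a • opQ D N c q (p * r)) := by
    intro c q i l
    rw [Pi.smul_apply, smul_eq_mul, coeff_C_mul, ← hJrad, Ideal.jacobson, Ideal.mem_sInf]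
    rintro 𝔪 ⟨hJ𝔪, h𝔪⟩
    have hp𝔪 : (p : R) ∈ 𝔪 := hJ𝔪 (Ideal.le_radical (Ideal.subset_span rfl))
    by_cases ha : a ∈ 𝔪
    · exact 𝔪.mul_mem_right _ ha
    · exact 𝔪.mul_mem_left _ (NilpotentAt.coeff_mem hD (h 𝔪 hp𝔪 ha) hp hp𝔪 c q i l)
  obtain ⟨t, ht⟩ := Ideal.exists_radical_pow_le_of_fg (Ideal.span {(p : R)})
    (IsNoetherian.noetherian _)
  refine ⟨p * r * t, t, fun l => ?_⟩
  have h2 := coefIn_pow D N a (p * r) h1 0 q t
  have h3 : ∀ m, ((p : R)) ∣ (C a ^ t * opQ D N 0 q (p * r * t) l).coeff m := by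
    intro m
    rw [← Ideal.mem_span_singleton]
    exact ht (h2 l m)
  have h4 : C (p : R) ∣ C a ^ t * opQ D N 0 q (p * r * t) l := C_dvd_iff_dvd_coeff _ _ |>.2 h3
  obtain ⟨q', hq'⟩ := h4
  exact ⟨q', by rw [hq', map_natCast]⟩

end nilpotent

end Pool.Agent.N169.PC
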