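import Pool.Agent.N169.PC.Coef

/-!
# Boundedness of the orders of the iterates of a connection
-/

set_option autoImplicit false

open Polynomial

namespace Pool.Agent.N169.PC

section linear

variable {𝒦 : Type*} [Field 𝒦] {V : Type*} [AddCommGroup V] [Module 𝒦 V] [FiniteDimensional 𝒦 V]

/-- the first linear dependence -/
theorem exists_min_relation (v : ℕ → V) (h0 : v 0 ≠ 0) :
    ∃ (e : ℕ) (b : ℕ → 𝒦), v (e + 1) = ∑ i ∈ Finset.range (e + 1), b i • v i ∧
      LinearIndependent 𝒦 (fun i : Fin (e + 1) => v i) := by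
  classical
  have hex : ∃ n : ℕ, ¬ LinearIndependent 𝒦 (fun i : Fin n => v i) := by
    refine ⟨Module.finrank 𝒦 V + 1, fun h => ?_⟩
    have := h.fintype_card_le_finrank
    rw [Fintype.card_fin] at this
    omega
  have hfind := Nat.find_spec hex
  have hmin := fun n (h : n < Nat.find hex) => not_not.1 (Nat.find_min hex h)
  have h1 : Nat.find hex ≠ 0 := by
    intro h
    apply hfind
    rw [h]
    exact linearIndependent_empty_type
  have h2 : Nat.find hex ≠ 1 := by
    intro h
    apply hfind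
    rw [h, linearIndependent_unique_iff]
    exact h0
  obtain ⟨e, he⟩ : ∃ e, Nat.find hex = e + 2 := ⟨Nat.find hex - 2, by omega⟩
  have h3 := hmin (e + 1) (by omega)
  rw [he, linearIndependent_finSucc'] at hfind
  have h4 : v (e + 1) ∈ Submodule.span 𝒦 (Set.range fun i : Fin (e + 1) => v i) := by
    by_contra hcon
    exact hfind ⟨h3, hcon⟩
  rw [Submodule.mem_span_range_iff_exists_fun] at h4
  obtain ⟨c, hc⟩ := h4
  refine ⟨e, fun i => if h : i < e + 1 then c ⟨i, h⟩ else 0, ?_, h3⟩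
  rw [← hc, Finset.sum_range]
  refine Finset.sum_congr rfl fun i _ => ?_
  dsimp only
  rw [dif_pos i.2]

omit [FiniteDimensional 𝒦 V] in
theorem exists_dual {e : ℕ} {v : ℕ → V} (h : LinearIndependent 𝒦 (fun i : Fin (e + 1) => v i)) :
    ∃ Γ : ℕ → V →ₗ[𝒦] 𝒦, ∀ i ≤ e, ∀ j ≤ e, Γ i (v j) = if i = j then 1 else 0 := by
  classical
  obtain ⟨g, hg⟩ := LinearMap.exists_leftInverse_of_injective
    (Finsupp.linearCombination 𝒦 (fun i : Fin (e + 1) => v i)) (by
      rw [LinearMap.ker_eq_bot]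
      exact h)
  refine ⟨fun i => if h : i < e + 1 then (Finsupp.lapply (⟨i, h⟩ : Fin (e + 1))).comp g else 0,
    fun i hi j hj => ?_⟩
  dsimp only
  rw [dif_pos (show i < e + 1 by omega), LinearMap.comp_apply]
  have h1 : g (v j) = Finsupp.single (⟨j, by omega⟩ : Fin (e + 1)) 1 := by
    have h2 := LinearMap.congr_fun hg (Finsupp.single (⟨j, by omega⟩ : Fin (e + 1)) 1)
    rw [LinearMap.comp_apply, Finsupp.linearCombination_single, one_smul] at h2
    exact h2
  rw [h1, Finsupp.lapply_apply, Finsupp.single_apply]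
  by_cases hij : i = j
  · rw [if_pos hij, if_pos]
    exact Fin.ext hij.symm
  · rw [if_neg hij, if_neg]
    intro h
    exact hij (Fin.ext_iff.1 h).symm

end linear

section cseq

variable {𝒦 : Type*} [Field 𝒦] (d : 𝒦 → 𝒦) (e : ℕ) (b : ℕ → 𝒦)

/-- the coordinates of the iterates of a cyclic vector -/
def cseq : ℕ → ℕ → 𝒦
  | 0 => fun i => if i = 0 then 1 else 0
  | n + 1 => fun i => d (cseq n i) + (if i = 0 then 0 else cseq n (i - 1)) + cseq n e * b i

lemma cseq_zero_zero : cseq d e b 0 0 = 1 := rfl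

lemma cseq_zero_succ (i : ℕ) : cseq d e b 0 (i + 1) = 0 := rfl

lemma cseq_succ_zero (n : ℕ) : cseq d e b (n + 1) 0 = d (cseq d e b n 0) + cseq d e b n e * b 0 := by
  change d (cseq d e b n 0) + 0 + cseq d e b n e * b 0 = _
  rw [add_zero]

lemma cseq_succ_succ (n i : ℕ) : cseq d e b (n + 1) (i + 1) =
    d (cseq d e b n (i + 1)) + cseq d e b n i + cseq d e b n e * b (i + 1) := rfl

end cseq

section coordinates

variable {𝒦 : Type*} [Field 𝒦] {V : Type*} [AddCommGroup V] [Module 𝒦 V]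

theorem eq_sum_cseq {d : 𝒦 → 𝒦} {D : V → V} (hDadd : ∀ x y, D (x + y) = D x + D y)
    (hD0 : D 0 = 0) (hD : ∀ (a : 𝒦) x, D (a • x) = d a • x + a • D x)
    {v : ℕ → V} (hv : ∀ n, v (n + 1) = D (v n)) {e : ℕ} {b : ℕ → 𝒦}
    (hb : v (e + 1) = ∑ i ∈ Finset.range (e + 1), b i • v i) (n : ℕ) :
    v n = ∑ i ∈ Finset.range (e + 1), cseq d e b n i • v i := by
  have hDsum : ∀ (s : Finset ℕ) (f : ℕ → V), D (∑ i ∈ s, f i) = ∑ i ∈ s, D (f i) := by
    intro s f
    classical
    induction s using Finset.induction_on with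
    | empty => simpa using hD0
    | insert a s ha ih => rw [Finset.sum_insert ha, Finset.sum_insert ha, hDadd, ih]
  induction n with
  | zero =>
    rw [Finset.sum_range_succ', Finset.sum_eq_zero]
    · rw [cseq_zero_zero, one_smul, zero_add]
    · intro i _
      rw [cseq_zero_succ, zero_smul]
  | succ n ih =>
    have h1 : D (v n) = ∑ i ∈ Finset.range (e + 1), (d (cseq d e b n i) • v i) +
        ∑ i ∈ Finset.range (e + 1), (cseq d e b n i • v (i + 1)) := by
      conv_lhs => rw [ih]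
      rw [hDsum, ← Finset.sum_add_distrib]
      refine Finset.sum_congr rfl fun i _ => ?_
      rw [hD, hv]
    rw [hv, h1, Finset.sum_range_succ (fun i => cseq d e b n i • v (i + 1)), hb]
    rw [Finset.sum_range_succ' (fun i => cseq d e b (n + 1) i • v i),
      Finset.sum_range_succ' (fun i => d (cseq d e b n i) • v i),
      Finset.sum_range_succ' (fun i => b i • v i), cseq_succ_zero]
    simp only [cseq_succ_succ]
    rw [smul_add, Finset.smul_sum]
    simp only [add_smul, mul_smul, Finset.sum_add_distrib]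
    abel

end coordinates

section bounded

variable {κ : Type*} [Field κ]

lemma exists_ge (f : HahnSeries ℚ κ) : ∃ c : ℕ, Ge (-(c : ℚ)) f := by
  obtain ⟨c, hc⟩ := exists_nat_ge (-f.order)
  refine ⟨c, fun i hi => HahnSeries.coeff_eq_zero_of_lt_order ?_⟩
  linarith

lemma exists_ge_finset {ι : Type*} (s : Finset ι) (f : ι → HahnSeries ℚ κ) :
    ∃ c : ℕ, ∀ i ∈ s, Ge (-(c : ℚ)) (f i) := by
  classical
  induction s using Finset.induction_on with
  | empty => exact ⟨0, by simp⟩
  | insert a s ha ih =>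
    obtain ⟨c, hc⟩ := ih
    obtain ⟨c', hc'⟩ := exists_ge (f a)
    refine ⟨max c c', fun i hi => ?_⟩
    have h1 : (c : ℚ) ≤ ((max c c' : ℕ) : ℚ) := by exact_mod_cast le_max_left _ _
    have h2 : (c' : ℚ) ≤ ((max c c' : ℕ) : ℚ) := by exact_mod_cast le_max_right _ _
    rw [Finset.mem_insert] at hi
    rcases hi with rfl | hi
    · exact hc'.mono (by linarith)
    · exact (hc i hi).mono (by linarith)

variable {𝒦 : Type*} [Field 𝒦]

/-- the orders of the iterates of a connection are bounded below if the iterates are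
divisible by infinitely many primes -/
theorem bounded [CharZero κ] (ι : 𝒦 →+* HahnSeries ℚ κ) (hfg : ∀ f, FgC (ι f)) {d : 𝒦 → 𝒦}
    {Δ : HahnSeries ℚ κ → HahnSeries ℚ κ} (hΔ : ∀ q f, Ge q f → Ge q (Δ f))
    (hιd : ∀ f, Δ (ι f) = ι (d f))
    {s : Type*} [Fintype s] {D : (s → 𝒦) → (s → 𝒦)} (hDadd : ∀ x y, D (x + y) = D x + D y)
    (hD0 : D 0 = 0) (hD : ∀ (a : 𝒦) x, D (a • x) = d a • x + a • D x)
    {v : ℕ → s → 𝒦} (hv : ∀ n, v (n + 1) = D (v n))
    (B : Subalgebra ℤ κ) (hB : B.FG)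
    (hp : ∀ P : ℕ, ∃ p : ℕ, p.Prime ∧ P < p ∧ ∃ n, ∀ j, ∃ y, Cf B y ∧ ι (v n j) = p • y) :
    ∃ c : ℕ, ∀ n j, Ge (-(c : ℚ)) (ι (v n j)) := by
  classical
  by_cases h0 : v 0 = 0
  · refine ⟨0, fun n j => ?_⟩
    have h1 : ∀ n, v n = 0 := by
      intro n
      induction n with
      | zero => exact h0
      | succ n ih => rw [hv, ih, hD0]
    rw [h1 n, Pi.zero_apply, map_zero]
    exact ge_zero _
  obtain ⟨e, b, hb, hli⟩ := exists_min_relation (𝒦 := 𝒦) v h0
  obtain ⟨Γ, hΓ⟩ := exists_dual hli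
  have hvn := eq_sum_cseq hDadd hD0 hD hv hb
  -- coordinates through the dual basis
  have hc : ∀ n, ∀ i ≤ e, cseq d e b n i = ∑ j, v n j * Γ i (Pi.single j 1) := by
    intro n i hi
    have h1 : Γ i (v n) = cseq d e b n i := by
      rw [hvn n, map_sum]
      simp only [map_smul, smul_eq_mul]
      rw [Finset.sum_eq_single i]
      · rw [hΓ i hi i hi, if_pos rfl, mul_one]
      · intro j hj hji
        rw [Finset.mem_range] at hj
        rw [hΓ i hi j (by omega), if_neg (Ne.symm hji), mul_zero]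
      · intro h
        exact absurd (Finset.mem_range.2 (by omega)) h
    rw [← h1, LinearMap.pi_apply_eq_sum_univ (Γ i) (v n)]
    refine Finset.sum_congr rfl fun j _ => ?_
    rw [smul_eq_mul]
    congr 2
    ext j'
    rw [Pi.single_apply]
    simp only [eq_comm]
  obtain ⟨B₁, hB₁, hbB₁⟩ := exists_common (Finset.range (e + 1)) (fun i => ι (b i))
    (fun i _ => hfg _)
  obtain ⟨B₂, hB₂, hΓB₂⟩ := exists_common (Finset.range (e + 1) ×ˢ (Finset.univ : Finset s))
    (fun ij => ι (Γ ij.1 (Pi.single ij.2 1))) (fun i _ => hfg _)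
  have hge0 : ∀ i ≤ e, Ge 0 (ι (b i)) := by
    refine integral_of_div (B ⊔ B₁ ⊔ B₂) ((hB.sup hB₁).sup hB₂) (e := e) (b := fun i => ι (b i))
      (c := fun n i => ι (cseq d e b n i)) (Δ := Δ) hΔ ?_ ?_ ?_ ?_ ?_ ?_
    · rw [cseq_zero_zero, map_one]
    · intro i _
      rw [cseq_zero_succ, map_zero]
    · intro n
      rw [hιd, cseq_succ_zero, map_add, map_mul]
    · intro n i _
      rw [hιd, cseq_succ_succ, map_add, map_add, map_mul]
    · intro i hi
      exact (hbB₁ i (Finset.mem_range.2 (by omega))).mono (le_sup_right.trans le_sup_left)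
    · intro P
      obtain ⟨p, hpp, hPp, n, hn⟩ := hp P
      refine ⟨p, hpp, hPp, n, fun i hi => ?_⟩
      choose y hy hy' using hn
      refine ⟨∑ j, y j * ι (Γ i (Pi.single j 1)), ?_, ?_⟩
      · refine Cf.sum _ fun j _ => Cf.mul ?_ ?_
        · exact (hy j).mono (le_sup_left.trans le_sup_left)
        · exact (hΓB₂ (i, j) (Finset.mem_product.2 ⟨Finset.mem_range.2 (by omega),
            Finset.mem_univ _⟩)).mono le_sup_right
      · rw [hc n i hi, map_sum, Finset.smul_sum]
        refine Finset.sum_congr rfl fun j _ => ?_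
        rw [map_mul, hy', smul_mul_assoc]
  have hgec : ∀ n i : ℕ, i ≤ e → Ge 0 (ι (cseq d e b n i)) := by
    intro n i hi
    have h1 := ge_rec (e := e) (b := fun i => ι (b i)) (c := fun n i => ι (cseq d e b n i))
      (Δ := Δ) hΔ (s := 0) le_rfl ?_ ?_ ?_ ?_ ?_ n i hi
    · exact h1.mono (by simp)
    · intro i hi
      exact (hge0 i hi).mono (by simp)
    · rw [cseq_zero_zero, map_one]
    · intro i _
      rw [cseq_zero_succ, map_zero]
    · intro n
      rw [hιd, cseq_succ_zero, map_add, map_mul]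
    · intro n i _
      rw [hιd, cseq_succ_succ, map_add, map_add, map_mul]
  obtain ⟨c, hcge⟩ := exists_ge_finset (Finset.range (e + 1) ×ˢ (Finset.univ : Finset s))
    (fun ij => ι (v ij.1 ij.2))
  refine ⟨c, fun n j => ?_⟩
  have h1 : v n j = ∑ i ∈ Finset.range (e + 1), cseq d e b n i * v i j := by
    conv_lhs => rw [hvn n]
    rw [Finset.sum_apply]
    rfl
  rw [h1, map_sum]
  refine Ge.sum _ fun i hi => ?_
  rw [map_mul]
  have h2 := (hgec n i (by rw [Finset.mem_range] at hi; omega)).mul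
    (hcge (i, j) (Finset.mem_product.2 ⟨hi, Finset.mem_univ _⟩))
  rw [zero_add] at h2
  exact h2

end bounded

end Pool.Agent.N169.PC
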