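import Mathlib

/-!
# Coordinates of polynomials over a finite extension
-/

set_option autoImplicit false
set_option linter.unusedSectionVars false

open Polynomial

namespace Pool.Agent.N169.PC

section co

variable {F L : Type*} [Field F] [Field L] [Algebra F L] {s : Type*} [Fintype s]
  (ω : Module.Basis s F L)

/-- the `i`-th coordinate of a polynomial -/
noncomputable def co (i : s) (f : L[X]) : F[X] :=
  ∑ n ∈ f.support, monomial n (ω.repr (f.coeff n) i)

lemma co_coeff (i : s) (f : L[X]) (n : ℕ) : (co ω i f).coeff n = ω.repr (f.coeff n) i := by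
  classical
  unfold co
  rw [finsetSum_coeff]
  simp only [coeff_monomial]
  by_cases h : n ∈ f.support
  · rw [Finset.sum_eq_single n]
    · rw [if_pos rfl]
    · intro b _ hb
      rw [if_neg hb]
    · intro h'
      exact absurd h h'
  · rw [Finset.sum_eq_zero]
    · rw [notMem_support_iff.1 h, map_zero, Finsupp.zero_apply]
    · intro b hb
      rw [if_neg]
      rintro rfl
      exact h hb

lemma co_add (i : s) (f g : L[X]) : co ω i (f + g) = co ω i f + co ω i g := by
  ext n
  simp only [co_coeff, coeff_add, map_add, Finsupp.add_apply]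

lemma co_zero (i : s) : co ω i 0 = 0 := by
  ext n
  simp only [co_coeff, coeff_zero, map_zero, Finsupp.zero_apply]

lemma co_sub (i : s) (f g : L[X]) : co ω i (f - g) = co ω i f - co ω i g := by
  ext n
  simp only [co_coeff, coeff_sub, map_sub, Finsupp.sub_apply]

lemma co_sum {ι : Type*} (t : Finset ι) (i : s) (f : ι → L[X]) :
    co ω i (∑ j ∈ t, f j) = ∑ j ∈ t, co ω i (f j) := by
  classical
  induction t using Finset.induction_on with
  | empty => simpa using co_zero ω i
  | insert a t ha ih => rw [Finset.sum_insert ha, Finset.sum_insert ha, co_add, ih]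

lemma co_map_mul (i : s) (c : F[X]) (f : L[X]) :
    co ω i (c.map (algebraMap F L) * f) = c * co ω i f := by
  ext n
  rw [co_coeff, coeff_mul, coeff_mul, map_sum, Finsupp.finsetSum_apply]
  refine Finset.sum_congr rfl fun ij _ => ?_
  rw [coeff_map, ← Algebra.smul_def, map_smul, Finsupp.smul_apply, smul_eq_mul, co_coeff]

lemma co_derivative (i : s) (f : L[X]) : co ω i (derivative f) = derivative (co ω i f) := by
  ext n
  rw [co_coeff, coeff_derivative, coeff_derivative, co_coeff]
  have h : f.coeff (n + 1) * ((n : L) + 1) = ((n : F) + 1) • f.coeff (n + 1) := by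
    rw [Algebra.smul_def, map_add, map_natCast, map_one, mul_comm]
  rw [h, map_smul, Finsupp.smul_apply, smul_eq_mul, mul_comm]

lemma eq_sum_co (f : L[X]) : f = ∑ i, (co ω i f).map (algebraMap F L) * C (ω i) := by
  ext n
  rw [finsetSum_coeff]
  simp only [coeff_mul_C, coeff_map, co_coeff, ← Algebra.smul_def]
  exact (ω.sum_repr (f.coeff n)).symm

lemma co_mul (i : s) (f g : L[X]) :
    co ω i (f * g) = ∑ i', co ω i (f * C (ω i')) * co ω i' g := by
  conv_lhs => rw [eq_sum_co ω g, Finset.mul_sum, co_sum]
  refine Finset.sum_congr rfl fun i' _ => ?_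
  have h : f * ((co ω i' g).map (algebraMap F L) * C (ω i')) =
      (co ω i' g).map (algebraMap F L) * (f * C (ω i')) := by ring
  rw [h, co_map_mul, mul_comm]

end co

end Pool.Agent.N169.PC
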