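import Pool.Agent.N169.PC.Integral

/-!
# Hahn series with coefficients in a finitely generated ring
-/

set_option autoImplicit false

open Polynomial

namespace Pool.Agent.N169.PC

variable {κ : Type*} [Field κ]

lemma Cf.mono {B B' : Subalgebra ℤ κ} (h : B ≤ B') {f : HahnSeries ℚ κ} (hf : Cf B f) :
    Cf B' f := fun q => h (hf q)

lemma Cf.add {B : Subalgebra ℤ κ} {f g : HahnSeries ℚ κ} (hf : Cf B f) (hg : Cf B g) :
    Cf B (f + g) := fun q => by
  rw [HahnSeries.coeff_add]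
  exact B.add_mem (hf q) (hg q)

lemma Cf.neg {B : Subalgebra ℤ κ} {f : HahnSeries ℚ κ} (hf : Cf B f) :
    Cf B (-f) := fun q => by
  rw [HahnSeries.coeff_neg]
  exact B.neg_mem (hf q)

lemma Cf.mul {B : Subalgebra ℤ κ} {f g : HahnSeries ℚ κ} (hf : Cf B f) (hg : Cf B g) :
    Cf B (f * g) := fun q => by
  rw [HahnSeries.coeff_mul]
  exact B.sum_mem fun ij _ => B.mul_mem (hf _) (hg _)

lemma cf_zero (B : Subalgebra ℤ κ) : Cf B (0 : HahnSeries ℚ κ) := fun _ => B.zero_mem

lemma cf_one (B : Subalgebra ℤ κ) : Cf B (1 : HahnSeries ℚ κ) := fun q => by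
  rw [HahnSeries.coeff_one]
  split_ifs
  · exact B.one_mem
  · exact B.zero_mem

lemma Cf.sum {B : Subalgebra ℤ κ} {ι : Type*} (s : Finset ι) {f : ι → HahnSeries ℚ κ}
    (hf : ∀ i ∈ s, Cf B (f i)) : Cf B (∑ i ∈ s, f i) := by
  classical
  induction s using Finset.induction_on with
  | empty => simpa using cf_zero B
  | insert a s ha ih =>
    rw [Finset.sum_insert ha]
    exact (hf a (Finset.mem_insert_self a s)).add
      (ih fun i hi => hf i (Finset.mem_insert_of_mem hi))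

lemma Cf.nsmul {B : Subalgebra ℤ κ} {f : HahnSeries ℚ κ} (hf : Cf B f) (n : ℕ) :
    Cf B (n • f) := fun q => by
  rw [HahnSeries.coeff_nsmul, Pi.smul_apply]
  exact B.nsmul_mem (hf q) n

/-- all coefficients are in a finitely generated ring -/
def FgC (f : HahnSeries ℚ κ) : Prop := ∃ B : Subalgebra ℤ κ, B.FG ∧ Cf B f

lemma FgC.add {f g : HahnSeries ℚ κ} (hf : FgC f) (hg : FgC g) : FgC (f + g) := by
  obtain ⟨B, hB, hf⟩ := hf
  obtain ⟨B', hB', hg⟩ := hg
  exact ⟨B ⊔ B', hB.sup hB', (hf.mono le_sup_left).add (hg.mono le_sup_right)⟩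

lemma FgC.neg {f : HahnSeries ℚ κ} (hf : FgC f) : FgC (-f) := by
  obtain ⟨B, hB, hf⟩ := hf
  exact ⟨B, hB, hf.neg⟩

lemma FgC.mul {f g : HahnSeries ℚ κ} (hf : FgC f) (hg : FgC g) : FgC (f * g) := by
  obtain ⟨B, hB, hf⟩ := hf
  obtain ⟨B', hB', hg⟩ := hg
  exact ⟨B ⊔ B', hB.sup hB', (hf.mono le_sup_left).mul (hg.mono le_sup_right)⟩

lemma fgC_zero : FgC (0 : HahnSeries ℚ κ) := ⟨⊥, Subalgebra.fg_bot, cf_zero _⟩

lemma fgC_one : FgC (1 : HahnSeries ℚ κ) := ⟨⊥, Subalgebra.fg_bot, cf_one _⟩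

/-- a Hahn series with finite support -/
lemma fgC_of_finite {f : HahnSeries ℚ κ} (hf : f.support.Finite) : FgC f := by
  classical
  refine ⟨Algebra.adjoin ℤ (hf.toFinset.image fun q => f.coeff q : Finset κ),
    Subalgebra.fg_adjoin_finset _, ?_⟩
  intro q
  by_cases hq : f.coeff q = 0
  · rw [hq]
    exact Subalgebra.zero_mem _
  · apply Algebra.subset_adjoin
    rw [Finset.mem_coe, Finset.mem_image]
    exact ⟨q, by rwa [Set.Finite.mem_toFinset], rfl⟩

lemma FgC.inv {f : HahnSeries ℚ κ} (hf : FgC f) : FgC f⁻¹ := by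
  classical
  by_cases hf0 : f = 0
  · rw [hf0, inv_zero]
    exact fgC_zero
  obtain ⟨B, hB, hf⟩ := hf
  set a : κ := f.coeff f.order with ha
  have ha0 : a ≠ 0 := fun h => hf0 (HahnSeries.coeff_order_eq_zero.1 h)
  set B' : Subalgebra ℤ κ := B ⊔ Algebra.adjoin ℤ {a⁻¹} with hB'
  have hB'fg : B'.FG := hB.sup ⟨{a⁻¹}, by simp⟩
  have hfB' : Cf B' f := hf.mono le_sup_left
  have haB' : a⁻¹ ∈ B' := by
    have h1 : a⁻¹ ∈ Algebra.adjoin ℤ {a⁻¹} := Algebra.subset_adjoin rfl
    exact (le_sup_right : _ ≤ B') h1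
  let g : HahnSeries ℚ B' :=
    { coeff := fun q => ⟨f.coeff q, hfB' q⟩
      isPWO_support' := by
        refine f.isPWO_support.mono ?_
        intro q hq
        rw [Function.mem_support] at hq
        rw [HahnSeries.mem_support]
        intro h
        apply hq
        exact Subtype.ext h }
  have hgf : g.map (B'.val : B' →ₐ[ℤ] κ) = f := by
    ext q
    rfl
  have hg0 : g ≠ 0 := by
    intro h
    apply ha0
    have h1 : g.coeff f.order = 0 := by rw [h]; rfl
    exact congrArg Subtype.val h1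
  have hlead : g.leadingCoeff = ⟨a, hfB' _⟩ := by
    rw [HahnSeries.leadingCoeff_eq]
    have h1 : g.order = f.order := by
      apply le_antisymm
      · apply HahnSeries.order_le_of_coeff_ne_zero
        intro h
        exact ha0 (congrArg Subtype.val h)
      · apply HahnSeries.order_le_of_coeff_ne_zero
        intro h
        apply hg0
        apply HahnSeries.coeff_order_eq_zero.1
        exact Subtype.ext h
    rw [h1]
  have hunit : IsUnit g := by
    rw [HahnSeries.isUnit_iff, hlead]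
    refine IsUnit.of_mul_eq_one ⟨a⁻¹, haB'⟩ (Subtype.ext ?_)
    exact mul_inv_cancel₀ ha0
  obtain ⟨u, hu⟩ := hunit
  refine ⟨B', hB'fg, ?_⟩
  have h1 : f⁻¹ = (↑u⁻¹ : HahnSeries ℚ B').map (B'.val : B' →ₐ[ℤ] κ) := by
    symm
    apply eq_inv_of_mul_eq_one_right
    rw [← hgf, ← hu]
    have h2 := HahnSeries.map_mul (B'.val : B' →ₐ[ℤ] κ).toRingHom.toNonUnitalRingHom (x := (u : HahnSeries ℚ B'))
      (y := (↑u⁻¹ : HahnSeries ℚ B'))
    rw [Units.mul_inv] at h2
    have h3 := HahnSeries.map_one (Γ := ℚ) (B'.val : B' →ₐ[ℤ] κ).toRingHom.toMonoidWithZeroHom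
    exact h2.symm.trans h3
  intro q
  rw [h1]
  exact ((↑u⁻¹ : HahnSeries ℚ B').coeff q).2

/-- the subfield of Hahn series with coefficients in a finitely generated ring -/
def fgSubfield (κ : Type*) [Field κ] : Subfield (HahnSeries ℚ κ) where
  carrier := {f | FgC f}
  mul_mem' hf hg := hf.mul hg
  one_mem' := fgC_one
  add_mem' hf hg := hf.add hg
  zero_mem' := fgC_zero
  neg_mem' hf := hf.neg
  inv_mem' _ hf := hf.inv

lemma exists_common {ι : Type*} (s : Finset ι) (f : ι → HahnSeries ℚ κ) (hf : ∀ i ∈ s, FgC (f i)) :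
    ∃ B : Subalgebra ℤ κ, B.FG ∧ ∀ i ∈ s, Cf B (f i) := by
  classical
  induction s using Finset.induction_on with
  | empty => exact ⟨⊥, Subalgebra.fg_bot, by simp⟩
  | insert a s ha ih =>
    obtain ⟨B, hB, hs⟩ := ih fun i hi => hf i (Finset.mem_insert_of_mem hi)
    obtain ⟨B', hB', ha'⟩ := hf a (Finset.mem_insert_self a s)
    refine ⟨B ⊔ B', hB.sup hB', fun i hi => ?_⟩
    rw [Finset.mem_insert] at hi
    rcases hi with rfl | hi
    · exact ha'.mono le_sup_right
    · exact (hs i hi).mono le_sup_left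

end Pool.Agent.N169.PC
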