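import Pool.Agent.W432.PC.Ddx

/-!
# Connections over fields of rational functions: definitions
-/

set_option autoImplicit false

open Polynomial

namespace Pool.Agent.N169.PC

section defs

variable {K : Type*} [Field K] {r : ℕ}

/-- The connection `∇ = d/dx - A` on `K(x) ^ r`. -/
noncomputable def conn (A : Matrix (Fin r) (Fin r) (RatFunc K)) (v : Fin r → RatFunc K) :
    Fin r → RatFunc K :=
  fun i => W432.PC.ddx K (v i) - ∑ j, A i j * v j

/-- The matrix `N / D` over `K(x)`. -/
noncomputable def ratMat (D : K[X]) (N : Matrix (Fin r) (Fin r) K[X]) :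
    Matrix (Fin r) (Fin r) (RatFunc K) :=
  Matrix.of fun i j => algebraMap K[X] (RatFunc K) (N i j) / algebraMap K[X] (RatFunc K) D

/-- The `p`-curvature `∇ ^ p` is nilpotent, `p` the characteristic of `K`. -/
def PCurvNilpotent (A : Matrix (Fin r) (Fin r) (RatFunc K)) : Prop :=
  ∃ m : ℕ, ∀ v, (conn A)^[ringChar K * m] v = 0

/-- The reduction of `d/dx - N / D` at the closed point `𝔪` has nilpotent `p`-curvature. -/
def NilpotentAt {R : Type*} [CommRing R] (D : R[X]) (N : Matrix (Fin r) (Fin r) R[X])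
    (𝔪 : Ideal R) [𝔪.IsMaximal] : Prop :=
  letI : Field (R ⧸ 𝔪) := Ideal.Quotient.field 𝔪
  PCurvNilpotent (K := R ⧸ 𝔪) (ratMat (D.map (Ideal.Quotient.mk 𝔪))
    (N.map (Polynomial.map (Ideal.Quotient.mk 𝔪))))

end defs

section inclusion

variable (k L : Type*) [Field k] [Field L] [Algebra k L]

/-- The inclusion `k(x) → L(x)`. -/
noncomputable def ratInc : RatFunc k →+* RatFunc L :=
  RatFunc.liftRingHom ((algebraMap L[X] (RatFunc L)).comp (mapRingHom (algebraMap k L)))
    (nonZeroDivisors_le_comap_nonZeroDivisors_of_injective _ (by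
      rw [RingHom.coe_comp]
      exact (RatFunc.algebraMap_injective L).comp (map_injective _ (algebraMap k L).injective)))

end inclusion

section descent

variable {L : Type*} [Field L] {r : ℕ}

/-- The subspace `U` of `L(x) ^ r` is stable under `∇ = d/dx - A`. -/
def Stable (A : Matrix (Fin r) (Fin r) (RatFunc L))
    (U : Submodule (RatFunc L) (Fin r → RatFunc L)) : Prop :=
  ∀ u ∈ U, conn A u ∈ U

/-- `E₂ ⊂ E₁` are stable subspaces of `L(x) ^ r` with simple quotient. -/
def SimpleSubquotient (A : Matrix (Fin r) (Fin r) (RatFunc L))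
    (E₁ E₂ : Submodule (RatFunc L) (Fin r → RatFunc L)) : Prop :=
  Stable A E₁ ∧ Stable A E₂ ∧ E₂ < E₁ ∧ ∀ U, Stable A U → E₂ ≤ U → U ≤ E₁ → U = E₂ ∨ U = E₁

/-- The subquotient `E₁ / E₂` is defined over `k(x)`: it has an `L(x)`-basis (the classes of
`w i`), in which the matrix of the connection has entries in `k(x)`. -/
def DefinedOver (k : Type*) [Field k] [Algebra k L] (A : Matrix (Fin r) (Fin r) (RatFunc L))
    (E₁ E₂ : Submodule (RatFunc L) (Fin r → RatFunc L)) : Prop :=
  ∃ (s : ℕ) (w : Fin s → Fin r → RatFunc L) (B : Matrix (Fin s) (Fin s) (RatFunc k)),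
    (∀ i, w i ∈ E₁) ∧
    (∀ c : Fin s → RatFunc L, ∑ i, c i • w i ∈ E₂ → c = 0) ∧
    (∀ v ∈ E₁, ∃ c : Fin s → RatFunc L, v - ∑ i, c i • w i ∈ E₂) ∧
    ∀ j, conn A (w j) - ∑ i, ratInc k L (B i j) • w i ∈ E₂

/-- The connection `d/dx - A` over `L(x)` is a quotient of a connection `d/dx - B` with `B` over
`k(x)`: there is a surjective horizontal map `P`. -/
def QuotientOver (k : Type*) [Field k] [Algebra k L]
    (A : Matrix (Fin r) (Fin r) (RatFunc L)) : Prop :=
  ∃ (t : ℕ) (B : Matrix (Fin t) (Fin t) (RatFunc k)) (P : Matrix (Fin r) (Fin t) (RatFunc L)),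
    Function.Surjective P.mulVec ∧
      ∀ v, conn A (P.mulVec v) = P.mulVec (conn (B.map (ratInc k L)) v)

end descent

end Pool.Agent.N169.PC
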