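import Pool.Agent.N169.PC.Descent
import Pool.Agent.N169.PC.Defs

/-!
# Connections over fields of rational functions, numerators of the iterates
-/

set_option autoImplicit false
set_option linter.unusedSectionVars false

open Polynomial

namespace Pool.Agent.N169.PC

section conn

variable {K : Type*} [Field K] {r : ℕ}

lemma ratMat_apply (D : K[X]) (N : Matrix (Fin r) (Fin r) K[X]) (i j : Fin r) :
    ratMat D N i j = algebraMap K[X] (RatFunc K) (N i j) / algebraMap K[X] (RatFunc K) D := rfl

variable (A : Matrix (Fin r) (Fin r) (RatFunc K))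

lemma conn_add (v w : Fin r → RatFunc K) : conn A (v + w) = conn A v + conn A w := by
  funext i
  simp only [conn, Pi.add_apply, map_add, mul_add, Finset.sum_add_distrib]
  ring

lemma conn_zero : conn A 0 = 0 := by
  funext i
  simp only [conn, Pi.zero_apply, map_zero, mul_zero, Finset.sum_const_zero, sub_zero]

lemma conn_smul (a : RatFunc K) (v : Fin r → RatFunc K) :
    conn A (a • v) = W432.PC.ddx K a • v + a • conn A v := by
  funext i
  simp only [conn, Pi.add_apply, Pi.smul_apply, smul_eq_mul, Derivation.leibniz, mul_sub,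
    Finset.mul_sum]
  have h : ∀ j, A i j * (a * v j) = a * (A i j * v j) := fun y => by ring
  simp only [h]
  ring

lemma conn_iterate_zero (n : ℕ) : (conn A)^[n] 0 = 0 := by
  induction n with
  | zero => rfl
  | succ n ih => rw [Function.iterate_succ_apply', ih, conn_zero]

lemma conn_iterate_add (n : ℕ) (v w : Fin r → RatFunc K) :
    (conn A)^[n] (v + w) = (conn A)^[n] v + (conn A)^[n] w := by
  induction n with
  | zero => rfl
  | succ n ih => simp only [Function.iterate_succ_apply', ih, conn_add]

end conn

section opQ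

variable {R : Type*} [CommRing R] {r : ℕ} (D : R[X]) (N : Matrix (Fin r) (Fin r) R[X])

/-- numerators of the iterates -/
noncomputable def opQ (c : ℕ) (q : Fin r → R[X]) : ℕ → Fin r → R[X]
  | 0 => q
  | n + 1 => fun i => D * derivative (opQ c q n i) -
      ((c + n : ℕ) : R[X]) * derivative D * opQ c q n i - ∑ j, N i j * opQ c q n j

lemma opQ_zero (c : ℕ) (q : Fin r → R[X]) : opQ D N c q 0 = q := rfl

lemma opQ_succ (c : ℕ) (q : Fin r → R[X]) (n : ℕ) (i : Fin r) :
    opQ D N c q (n + 1) i = D * derivative (opQ D N c q n i) -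
      ((c + n : ℕ) : R[X]) * derivative D * opQ D N c q n i - ∑ j, N i j * opQ D N c q n j := rfl

lemma opQ_add_index (c : ℕ) (q : Fin r → R[X]) (n m : ℕ) :
    opQ D N c q (n + m) = opQ D N (c + n) (opQ D N c q n) m := by
  induction m with
  | zero => rfl
  | succ m ih =>
    funext i
    rw [← add_assoc, opQ_succ, ih, opQ_succ, add_assoc c n m]

lemma opQ_add (c : ℕ) (q q' : Fin r → R[X]) (n : ℕ) :
    opQ D N c (q + q') n = opQ D N c q n + opQ D N c q' n := by
  induction n with
  | zero => rfl
  | succ n ih =>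
    funext i
    rw [Pi.add_apply, opQ_succ, opQ_succ, opQ_succ, ih]
    simp only [Pi.add_apply, derivative_add, mul_add, Finset.sum_add_distrib]
    ring

lemma opQ_zero_arg (c : ℕ) (n : ℕ) : opQ D N c 0 n = 0 := by
  induction n with
  | zero => rfl
  | succ n ih =>
    funext i
    rw [opQ_succ, ih]
    simp

lemma opQ_smul (c : ℕ) (a : R) (q : Fin r → R[X]) (n : ℕ) :
    opQ D N c (C a • q) n = C a • opQ D N c q n := by
  induction n with
  | zero => rfl
  | succ n ih =>
    funext i
    rw [Pi.smul_apply, smul_eq_mul, opQ_succ, opQ_succ, ih]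
    simp only [Pi.smul_apply, smul_eq_mul, derivative_mul, derivative_C, zero_mul, zero_add,
      mul_sub, Finset.mul_sum]
    have h : ∀ j, N i j * (C a * opQ D N c q n j) = C a * (N i j * opQ D N c q n j) :=
      fun y => by ring
    simp only [h]
    ring

lemma opQ_sum {ι : Type*} (s : Finset ι) (c : ℕ) (q : ι → Fin r → R[X]) (n : ℕ) :
    opQ D N c (∑ i ∈ s, q i) n = ∑ i ∈ s, opQ D N c (q i) n := by
  classical
  induction s using Finset.induction_on with
  | empty => simpa using opQ_zero_arg D N c n
  | insert a s ha ih => rw [Finset.sum_insert ha, Finset.sum_insert ha, opQ_add, ih]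

lemma opQ_map {S : Type*} [CommRing S] (φ : R →+* S) (c : ℕ) (q : Fin r → R[X]) (n : ℕ)
    (i : Fin r) : (opQ D N c q n i).map φ =
      opQ (D.map φ) (N.map (Polynomial.map φ)) c (fun i => (q i).map φ) n i := by
  induction n generalizing i with
  | zero => rfl
  | succ n ih =>
    rw [opQ_succ, opQ_succ]
    simp only [Polynomial.map_sub, Polynomial.map_mul, Polynomial.map_natCast, ← derivative_map,
      Polynomial.map_sum, ih, Matrix.map_apply]

end opQ

section field

variable {K : Type*} [Field K] {r : ℕ} (D : K[X]) (N : Matrix (Fin r) (Fin r) K[X])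

lemma conn_iterate_div (hD : D ≠ 0) (c : ℕ) (q : Fin r → K[X]) (n : ℕ) :
    (conn (ratMat D N))^[n] (fun i => algebraMap K[X] (RatFunc K) (q i) /
      algebraMap K[X] (RatFunc K) D ^ c) = fun i => algebraMap K[X] (RatFunc K)
      (opQ D N c q n i) / algebraMap K[X] (RatFunc K) D ^ (c + n) := by
  have hD' : algebraMap K[X] (RatFunc K) D ≠ 0 := by
    rw [Ne, map_eq_zero_iff _ (RatFunc.algebraMap_injective K)]
    exact hD
  induction n with
  | zero => rfl
  | succ n ih =>
    rw [Function.iterate_succ_apply', ih]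
    funext i
    change W432.PC.ddx K (algebraMap K[X] (RatFunc K) (opQ D N c q n i) /
      algebraMap K[X] (RatFunc K) D ^ (c + n)) - ∑ j, ratMat D N i j *
      (algebraMap K[X] (RatFunc K) (opQ D N c q n j) / algebraMap K[X] (RatFunc K) D ^ (c + n)) = _
    rw [ddx_div_pow K _ _ hD, opQ_succ, map_sub _ (_ - _) (∑ j, _), sub_div, map_sum,
      Finset.sum_div, ← add_assoc]
    congr 1
    refine Finset.sum_congr rfl fun j _ => ?_
    rw [ratMat_apply, map_mul]
    field_simp
    ring

lemma opQ_eq_zero (hD : D ≠ 0) {n : ℕ} (h : ∀ v, (conn (ratMat D N))^[n] v = 0) (c : ℕ)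
    (q : Fin r → K[X]) : opQ D N c q n = 0 := by
  have hD' : algebraMap K[X] (RatFunc K) D ≠ 0 := by
    rw [Ne, map_eq_zero_iff _ (RatFunc.algebraMap_injective K)]
    exact hD
  have h1 := conn_iterate_div D N hD c q n
  rw [h] at h1
  funext i
  have h2 := congrFun h1 i
  rw [Pi.zero_apply] at h2
  rcases div_eq_zero_iff.1 h2.symm with h3 | h3
  · rw [map_eq_zero_iff _ (RatFunc.algebraMap_injective K)] at h3
    exact h3
  · exact absurd h3 (pow_ne_zero _ hD')

end field

end Pool.Agent.N169.PC
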