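import Pool.Agent.N169.PC.Iota
import Pool.Agent.N169.PC.Bounded
import Pool.Agent.N169.PC.Co

/-!
# The coefficients of the iterates span a finite-dimensional space
-/

set_option autoImplicit false
set_option linter.unusedSectionVars false

open Polynomial

namespace Pool.Agent.N169.PC

universe u

section package

variable (k : Type*) [Field k] (m : ℕ) (F : Type u) [Field F] [Algebra (MvPolynomial (Fin m) k) F]
  [IsFractionRing (MvPolynomial (Fin m) k) F]

lemma theta_map_C (D : k[X]) : ∃ f : RatFunc F,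
    theta k m F (D.map MvPolynomial.C) = HahnSeries.C f := by
  induction D using Polynomial.induction_on' with
  | add p q hp hq =>
    obtain ⟨f, hf⟩ := hp
    obtain ⟨g, hg⟩ := hq
    refine ⟨f + g, ?_⟩
    rw [Polynomial.map_add, map_add, map_add, hf, hg]
  | monomial n a =>
    rw [← C_mul_X_pow_eq_monomial, Polynomial.map_mul, Polynomial.map_pow, map_C, map_X, map_mul,
      map_pow, theta_X, theta_C_C]
    exact ⟨_, ((map_mul _ _ _).trans (congrArg _ (map_pow _ _ _))).symm⟩

/-- the embedding into Hahn series, with its properties -/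
theorem exists_iota [CharZero k] : ∃ (κ : Type u) (_ : Field κ) (_ : CharZero κ)
    (ι : RatFunc F →+* HahnSeries ℚ κ) (Δ : HahnSeries ℚ κ → HahnSeries ℚ κ),
    (∀ f, FgC (ι f)) ∧ (∀ q f, Ge q f → Ge q (Δ f)) ∧
    (∀ f, Δ (ι f) = ι (W432.PC.ddx F f)) ∧
    (∀ D : k[X], Ge 0 (ι (algebraMap F[X] (RatFunc F)
      ((D.map MvPolynomial.C).map (algebraMap (MvPolynomial (Fin m) k) F))))) ∧
    (∀ (w : (MvPolynomial (Fin m) k)[X]) (c : ℕ), Ge (-(c : ℚ))
      (ι (algebraMap F[X] (RatFunc F) (w.map (algebraMap (MvPolynomial (Fin m) k) F)))) →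
      ∀ n, (w.coeff n).totalDegree ≤ c) := by
  have : CharZero F := charZero_of_injective_algebraMap
    (IsFractionRing.injective (MvPolynomial (Fin m) k) F)
  have : CharZero (RatFunc F) := charZero_of_injective_ringHom
    (f := (algebraMap F (RatFunc F))) (algebraMap F (RatFunc F)).injective
  refine ⟨RatFunc F, inferInstance, inferInstance, iota k m F, cder (W432.PC.ddx F),
    fgC_iota k m F, cder_ge _, cder_iota k m F, ?_, ?_⟩
  · intro D
    have h1 : iota k m F (algebraMap F[X] (RatFunc F)
      ((D.map MvPolynomial.C).map (algebraMap (MvPolynomial (Fin m) k) F))) =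
        theta k m F (D.map MvPolynomial.C) := by
      rw [← iota_incl]
      rfl
    obtain ⟨f, hf⟩ := theta_map_C k m F D
    rw [h1, hf]
    intro q hq
    rw [HahnSeries.C_apply, HahnSeries.coeff_single, if_neg hq.ne]
  · intro w c hw
    apply totalDegree_le_of_ge k m F
    rw [← iota_incl]
    exact hw

end package

section partA

variable {κ : Type*} [Field κ] {F : Type*} [Field F]
  {L : Type*} [Field L] [Algebra F L] {s : Type*} [Fintype s] (ω : Module.Basis s F L)

/-- coordinates of the elements of a finitely generated ring have coefficients in a finitely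
generated ring -/
theorem exists_B (ψ : F →+* HahnSeries ℚ κ) (hfg : ∀ f, FgC (ψ f)) (T : Finset L) :
    ∃ B : Subalgebra ℤ κ, B.FG ∧ ∀ y ∈ Algebra.adjoin ℤ (T : Set L), ∀ i,
      Cf B (ψ (ω.repr y i)) := by
  classical
  obtain ⟨B₁, hB₁, h₁⟩ := exists_common (T ×ˢ ((Finset.univ : Finset s) ×ˢ (Finset.univ : Finset s)))
    (fun x => ψ (ω.repr (x.1 * ω x.2.1) x.2.2)) (fun _ _ => hfg _)
  obtain ⟨B₂, hB₂, h₂⟩ := exists_common (Finset.univ : Finset s)
    (fun i => ψ (ω.repr 1 i)) (fun _ _ => hfg _)
  set B := B₁ ⊔ B₂ with hB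
  have hmul : ∀ y ∈ Algebra.adjoin ℤ (T : Set L), ∀ i' i, Cf B (ψ (ω.repr (y * ω i') i)) := by
    intro y hy
    induction hy using Algebra.adjoin_induction with
    | mem x hx =>
      intro i' i
      exact (h₁ (x, i', i) (Finset.mem_product.2 ⟨hx, Finset.mem_product.2
        ⟨Finset.mem_univ _, Finset.mem_univ _⟩⟩)).mono le_sup_left
    | algebraMap n =>
      intro i' i
      have h3 : (algebraMap ℤ L n) * ω i' = (n : F) • ω i' := by
        rw [Algebra.smul_def, map_intCast]
        rfl
      rw [h3, map_smul, Finsupp.smul_apply, ω.repr_self, smul_eq_mul, map_mul]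
      refine Cf.mul ?_ ?_
      · intro q
        have h4 : ψ (n : F) = HahnSeries.C (n : κ) := by
          rw [map_intCast, map_intCast]
        rw [h4, HahnSeries.C_apply, HahnSeries.coeff_single]
        split_ifs
        · exact intCast_mem B n
        · exact B.zero_mem
      · rw [Finsupp.single_apply]
        split_ifs
        · rw [map_one]; exact cf_one _
        · rw [map_zero]; exact cf_zero _
    | add x y _ _ hx hy =>
      intro i' i
      rw [add_mul, map_add, Finsupp.add_apply, map_add]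
      exact (hx i' i).add (hy i' i)
    | mul x y _ _ hx hy =>
      intro i' i
      have h3 : x * y * ω i' = ∑ j, (ω.repr (y * ω i') j) • (x * ω j) := by
        rw [mul_assoc]
        conv_lhs => rw [← ω.sum_repr (y * ω i'), Finset.mul_sum]
        refine Finset.sum_congr rfl fun j _ => ?_
        rw [mul_smul_comm]
      rw [h3, map_sum, Finsupp.finsetSum_apply, map_sum]
      refine Cf.sum _ fun j _ => ?_
      rw [map_smul, Finsupp.smul_apply, smul_eq_mul, map_mul]
      exact (hy i' j).mul (hx j i)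
  refine ⟨B, hB₁.sup hB₂, fun y hy i => ?_⟩
  have h3 : y = ∑ j, (ω.repr 1 j) • (y * ω j) := by
    conv_lhs => rw [← mul_one y, ← ω.sum_repr 1, Finset.mul_sum]
    refine Finset.sum_congr rfl fun j _ => ?_
    rw [mul_smul_comm]
  rw [h3, map_sum, Finsupp.finsetSum_apply, map_sum]
  refine Cf.sum _ fun j _ => ?_
  rw [map_smul, Finsupp.smul_apply, smul_eq_mul, map_mul]
  exact ((h₂ j (Finset.mem_univ _)).mono le_sup_right).mul (hmul y hy j i)

/-- the same for polynomials -/
theorem exists_B_poly (ι : RatFunc F →+* HahnSeries ℚ κ) (hfg : ∀ f, FgC (ι f)) (T : Finset L) :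
    ∃ B : Subalgebra ℤ κ, B.FG ∧
    ∀ q : L[X], (∀ n, q.coeff n ∈ Algebra.adjoin ℤ (T : Set L)) → ∀ i,
      Cf B (ι (algebraMap F[X] (RatFunc F) (co ω i q))) := by
  obtain ⟨B₁, hB₁, h₁⟩ := exists_B ω (ι.comp ((algebraMap F[X] (RatFunc F)).comp C))
    (fun f => hfg _) T
  obtain ⟨B₂, hB₂, h₂⟩ := hfg (RatFunc.X : RatFunc F)
  refine ⟨B₁ ⊔ B₂, hB₁.sup hB₂, fun q hq i => ?_⟩
  have h1 : co ω i q = ∑ n ∈ q.support, C (ω.repr (q.coeff n) i) * X ^ n := by
    unfold co
    exact Finset.sum_congr rfl fun n _ => (C_mul_X_pow_eq_monomial).symm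
  rw [h1, map_sum, map_sum]
  have h2 : Cf (B₁ ⊔ B₂) (ι RatFunc.X) := h₂.mono le_sup_right
  have h3 : ∀ n : ℕ, Cf (B₁ ⊔ B₂) (ι RatFunc.X ^ n) := by
    intro n
    induction n with
    | zero => rw [pow_zero]; exact cf_one _
    | succ n ih => rw [pow_succ]; exact ih.mul h2
  refine Cf.sum _ fun n _ => ?_
  rw [map_mul, map_mul, map_pow, map_pow, RatFunc.algebraMap_X]
  exact Cf.mul ((h₁ _ (hq n) i).mono le_sup_left) (h3 n)

end partA

section partC

variable (F : Type*) [Field F]

lemma ddx_div_pow (q D : F[X]) (hD : D ≠ 0) (n : ℕ) :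
    W432.PC.ddx F (algebraMap F[X] (RatFunc F) q / algebraMap F[X] (RatFunc F) D ^ n) =
      algebraMap F[X] (RatFunc F) (D * derivative q - (n : F[X]) * derivative D * q) /
        algebraMap F[X] (RatFunc F) D ^ (n + 1) := by
  have hD' : algebraMap F[X] (RatFunc F) D ≠ 0 := by
    rw [Ne, map_eq_zero_iff _ (RatFunc.algebraMap_injective F)]
    exact hD
  have h1 : W432.PC.ddx F (algebraMap F[X] (RatFunc F) q) =
      algebraMap F[X] (RatFunc F) D ^ n * W432.PC.ddx F
        (algebraMap F[X] (RatFunc F) q / algebraMap F[X] (RatFunc F) D ^ n) +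
      (algebraMap F[X] (RatFunc F) q / algebraMap F[X] (RatFunc F) D ^ n) *
        W432.PC.ddx F (algebraMap F[X] (RatFunc F) (D ^ n)) := by
    have h2 : algebraMap F[X] (RatFunc F) q = algebraMap F[X] (RatFunc F) (D ^ n) *
      (algebraMap F[X] (RatFunc F) q / algebraMap F[X] (RatFunc F) D ^ n) := by
      rw [map_pow]
      field_simp
    conv_lhs => rw [h2]
    rw [Derivation.leibniz, smul_eq_mul, smul_eq_mul, map_pow]
  rw [W432.PC.ddx_algebraMap, W432.PC.ddx_algebraMap, derivative_pow, map_mul, map_mul, map_pow] at h1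
  have h3 : W432.PC.ddx F
        (algebraMap F[X] (RatFunc F) q / algebraMap F[X] (RatFunc F) D ^ n) =
      (algebraMap F[X] (RatFunc F) (derivative q) -
        (algebraMap F[X] (RatFunc F) q / algebraMap F[X] (RatFunc F) D ^ n) *
        (algebraMap F[X] (RatFunc F) (C (n : F)) * algebraMap F[X] (RatFunc F) D ^ (n - 1) *
        algebraMap F[X] (RatFunc F) (derivative D))) / algebraMap F[X] (RatFunc F) D ^ n := by
    rw [h1, add_sub_cancel_right]
    field_simp
  rw [h3, map_sub, map_mul, map_mul, map_mul]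
  have h4 : algebraMap F[X] (RatFunc F) (C (n : F)) = (n : RatFunc F) := by
    rw [map_natCast, map_natCast]
  have h5 : algebraMap F[X] (RatFunc F) (n : F[X]) = (n : RatFunc F) := map_natCast _ _
  rw [h4, h5]
  cases n with
  | zero => simp; field_simp
  | succ n =>
    rw [Nat.add_sub_cancel]
    field_simp
    ring

end partC

end Pool.Agent.N169.PC
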