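import Pool.Agent.N169.PC.Coef
import Pool.Agent.W432.PC.Ddx

/-!
# The field of rational functions over a purely transcendental extension inside Hahn series
-/

set_option autoImplicit false

open Polynomial

namespace Pool.Agent.N169.PC

section cder

variable {κ K : Type*} [Field κ] [Field K] [Algebra K κ] (d : Derivation K κ κ)

/-- the coefficientwise derivation -/
def cder (f : HahnSeries ℚ κ) : HahnSeries ℚ κ where
  coeff q := d (f.coeff q)
  isPWO_support' := by
    refine f.isPWO_support.mono ?_
    intro q hq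
    rw [Function.mem_support] at hq
    rw [HahnSeries.mem_support]
    intro h
    apply hq
    rw [h, map_zero]

lemma cder_coeff (f : HahnSeries ℚ κ) (q : ℚ) : (cder d f).coeff q = d (f.coeff q) := rfl

lemma cder_support (f : HahnSeries ℚ κ) : (cder d f).support ⊆ f.support := by
  intro q hq
  rw [HahnSeries.mem_support, cder_coeff] at hq
  rw [HahnSeries.mem_support]
  intro h
  apply hq
  rw [h, map_zero]

lemma cder_ge (q : ℚ) (f : HahnSeries ℚ κ) (hf : Ge q f) : Ge q (cder d f) := by
  intro i hi
  rw [cder_coeff, hf i hi, map_zero]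

lemma cder_add (f g : HahnSeries ℚ κ) : cder d (f + g) = cder d f + cder d g := by
  ext q
  rw [cder_coeff, HahnSeries.coeff_add, HahnSeries.coeff_add, map_add, cder_coeff, cder_coeff]

lemma cder_zero : cder d 0 = 0 := by
  ext q
  rw [cder_coeff, HahnSeries.coeff_zero, map_zero]

lemma cder_neg (f : HahnSeries ℚ κ) : cder d (-f) = -cder d f := by
  ext q
  rw [cder_coeff, HahnSeries.coeff_neg, HahnSeries.coeff_neg, map_neg, cder_coeff]

lemma cder_mul (f g : HahnSeries ℚ κ) : cder d (f * g) = f * cder d g + g * cder d f := by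
  ext q
  rw [cder_coeff, HahnSeries.coeff_add, mul_comm g (cder d f), HahnSeries.coeff_mul,
    HahnSeries.coeff_mul_right' g.isPWO_support (cder_support d g),
    HahnSeries.coeff_mul_left' f.isPWO_support (cder_support d f), map_sum,
    ← Finset.sum_add_distrib]
  refine Finset.sum_congr rfl fun ij _ => ?_
  rw [Derivation.leibniz, cder_coeff, cder_coeff, smul_eq_mul, smul_eq_mul]
  ring

lemma cder_single (q : ℚ) (a : κ) :
    cder d (HahnSeries.single q a) = HahnSeries.single q (d a) := by
  classical
  ext i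
  rw [cder_coeff, HahnSeries.coeff_single, HahnSeries.coeff_single]
  split_ifs
  · rfl
  · rw [map_zero]

lemma cder_C (a : κ) : cder d (HahnSeries.C a) = HahnSeries.C (d a) := cder_single d 0 a

lemma cder_one : cder d 1 = 0 := by
  have h := cder_C d (1 : κ)
  rw [map_one, Derivation.map_one_eq_zero, map_zero] at h
  exact h

lemma cder_inv {f : HahnSeries ℚ κ} (hf : f ≠ 0) : cder d f⁻¹ = -(f⁻¹ * f⁻¹ * cder d f) := by
  have h1 : cder d (f * f⁻¹) = 0 := by rw [mul_inv_cancel₀ hf, cder_one]
  rw [cder_mul] at h1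
  have h2 : f * cder d f⁻¹ = -(f⁻¹ * cder d f) := eq_neg_of_add_eq_zero_left h1
  calc cder d f⁻¹ = f⁻¹ * (f * cder d f⁻¹) := by rw [← mul_assoc, inv_mul_cancel₀ hf, one_mul]
    _ = _ := by rw [h2]; ring

end cder

section ofPoly

variable {κ : Type*} [Field κ]

/-- polynomials in `T`, as Hahn series with `T` of order `-1` -/
noncomputable def ofPoly (κ : Type*) [Field κ] : κ[X] →+* HahnSeries ℚ κ :=
  eval₂RingHom HahnSeries.C (HahnSeries.single (-1 : ℚ) (1 : κ))

lemma ofPoly_monomial (n : ℕ) (a : κ) :
    ofPoly κ (monomial n a) = HahnSeries.single (-(n : ℚ)) a := by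
  unfold ofPoly
  rw [coe_eval₂RingHom, eval₂_monomial, HahnSeries.single_pow, one_pow, HahnSeries.C_apply,
    HahnSeries.single_mul_single, mul_one, zero_add, nsmul_eq_mul, mul_neg, mul_one]

lemma ofPoly_eq_sum (q : κ[X]) :
    ofPoly κ q = ∑ n ∈ q.support, HahnSeries.single (-(n : ℚ)) (q.coeff n) := by
  conv_lhs => rw [q.as_sum_support]
  rw [map_sum]
  exact Finset.sum_congr rfl fun n _ => ofPoly_monomial n _

lemma ofPoly_coeff_neg (q : κ[X]) (n : ℕ) : (ofPoly κ q).coeff (-(n : ℚ)) = q.coeff n := by
  classical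
  rw [ofPoly_eq_sum, HahnSeries.coeff_sum]
  simp only [HahnSeries.coeff_single]
  by_cases h : n ∈ q.support
  · rw [Finset.sum_eq_single n]
    · rw [if_pos rfl]
    · intro b _ hb
      rw [if_neg]
      intro h'
      apply hb
      have : (n : ℚ) = b := by linarith
      exact_mod_cast this.symm
    · intro h'
      exact absurd h h'
  · rw [Finset.sum_eq_zero]
    · exact (notMem_support_iff.1 h).symm
    · intro b hb
      rw [if_neg]
      intro h'
      apply h
      have : (n : ℚ) = b := by linarith
      have h2 : n = b := by exact_mod_cast this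
      rwa [h2]

lemma ofPoly_injective : Function.Injective (ofPoly κ) := by
  rw [injective_iff_map_eq_zero]
  intro q hq
  ext n
  rw [← ofPoly_coeff_neg, hq]
  rfl

lemma ofPoly_support_finite (q : κ[X]) : (ofPoly κ q).support.Finite := by
  classical
  refine Set.Finite.subset (q.support.image fun n : ℕ => (-(n : ℚ))).finite_toSet ?_
  intro i hi
  rw [HahnSeries.mem_support] at hi
  by_contra hcon
  apply hi
  rw [ofPoly_eq_sum, HahnSeries.coeff_sum]
  refine Finset.sum_eq_zero fun n hn => ?_
  rw [HahnSeries.coeff_single, if_neg]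
  rintro rfl
  apply hcon
  rw [Finset.mem_coe, Finset.mem_image]
  exact ⟨n, hn, rfl⟩

lemma fgC_ofPoly (q : κ[X]) : FgC (ofPoly κ q) := fgC_of_finite (ofPoly_support_finite q)

end ofPoly

end Pool.Agent.N169.PC
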