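import Pool.Agent.N169.PC.Simple

/-!
# Extension of the constants
-/

set_option autoImplicit false
set_option linter.unusedSectionVars false

open Polynomial

namespace Pool.Agent.N169.PC

section rat

variable (k L : Type*) [Field k] [Field L] [Algebra k L]

lemma ratInc_algebraMap (q : k[X]) : ratInc k L (algebraMap k[X] (RatFunc k) q) =
    algebraMap L[X] (RatFunc L) (q.map (algebraMap k L)) := by
  unfold ratInc
  rw [RatFunc.liftRingHom_algebraMap]
  rfl

lemma ratInc_const (c : k) : ratInc k L (algebraMap k (RatFunc k) c) =
    algebraMap L (RatFunc L) (algebraMap k L c) := by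
  have h := ratInc_algebraMap k L (C c)
  rw [map_C] at h
  exact h

lemma ratInc_X : ratInc k L RatFunc.X = RatFunc.X := by
  have h := ratInc_algebraMap k L X
  rw [map_X, RatFunc.algebraMap_X, RatFunc.algebraMap_X] at h
  exact h

lemma ddx_ratInc (f : RatFunc k) :
    W432.PC.ddx L (ratInc k L f) = ratInc k L (W432.PC.ddx k f) := by
  have hne : algebraMap k[X] (RatFunc k) f.denom ≠ 0 := by
    rw [Ne, map_eq_zero_iff _ (RatFunc.algebraMap_injective k)]
    exact f.denom_ne_zero
  have hne' : ratInc k L (algebraMap k[X] (RatFunc k) f.denom) ≠ 0 := by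
    rw [Ne, map_eq_zero_iff _ (ratInc k L).injective]
    exact hne
  have h1 : f * algebraMap k[X] (RatFunc k) f.denom = algebraMap k[X] (RatFunc k) f.num := by
    have h5 := RatFunc.num_div_denom f
    rw [div_eq_iff hne] at h5
    exact h5.symm
  have h2 : W432.PC.ddx k f * algebraMap k[X] (RatFunc k) f.denom =
      algebraMap k[X] (RatFunc k) (derivative f.num) -
      f * algebraMap k[X] (RatFunc k) (derivative f.denom) := by
    rw [← W432.PC.ddx_algebraMap, ← W432.PC.ddx_algebraMap, ← h1, Derivation.leibniz, smul_eq_mul,
      smul_eq_mul]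
    ring
  have h3 : W432.PC.ddx L (ratInc k L f) * ratInc k L (algebraMap k[X] (RatFunc k) f.denom) =
      ratInc k L (algebraMap k[X] (RatFunc k) (derivative f.num)) -
      ratInc k L f * ratInc k L (algebraMap k[X] (RatFunc k) (derivative f.denom)) := by
    have h4 := congrArg (ratInc k L) h1
    rw [map_mul, ratInc_algebraMap, ratInc_algebraMap] at h4
    rw [ratInc_algebraMap, ratInc_algebraMap, ratInc_algebraMap, ← derivative_map,
      ← derivative_map, ← W432.PC.ddx_algebraMap, ← W432.PC.ddx_algebraMap, ← h4,
      Derivation.leibniz, smul_eq_mul, smul_eq_mul]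
    ring
  apply mul_right_cancel₀ hne'
  have h5 := congrArg (ratInc k L) h2
  rw [map_mul, map_sub, map_mul] at h5
  rw [h3, h5]

end rat

section direct

variable {k L : Type*} [Field k] [IsAlgClosed k] [CharZero k] [Field L] [Algebra k L]
  {M : Type*} [AddCommGroup M]
  [Module (RatFunc k) M] [FiniteDimensional (RatFunc k) M] [Nontrivial M] {D : M → M}
  {V : Type*} [AddCommGroup V] [Module (RatFunc L) V] {E : V → V}
  {j : M → V}

/-- the multiples of a simple differential module over `k(x)` by elements of `L` which are
linearly independent over `k` are independent -/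
theorem direct (hadd : ∀ v w, D (v + w) = D v + D w) (h0 : D 0 = 0)
    (hsmul : ∀ (a : RatFunc k) v, D (a • v) = W432.PC.ddx k a • v + a • D v)
    (hsimple : ∀ U : Submodule (RatFunc k) M, (∀ u ∈ U, D u ∈ U) → U = ⊥ ∨ U = ⊤)
    (hEadd : ∀ v w, E (v + w) = E v + E w) (hE0 : E 0 = 0)
    (hEsmul : ∀ (a : RatFunc L) v, E (a • v) = W432.PC.ddx L a • v + a • E v)
    (hjadd : ∀ v w, j (v + w) = j v + j w)
    (hjsmul : ∀ (a : RatFunc k) v, j (a • v) = ratInc k L a • j v)
    (hjinj : ∀ v, j v = 0 → v = 0) (hjE : ∀ v, j (D v) = E (j v)) (n : ℕ) :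
    ∀ (l : Fin n → L), LinearIndependent k l → ∀ (m : Fin n → M),
      ∑ i, algebraMap L (RatFunc L) (l i) • j (m i) = 0 → ∀ i, m i = 0 := by
  classical
  have hj0 : j 0 = 0 := by
    have h := hjadd 0 0
    rw [add_zero] at h
    exact left_eq_add.1 h
  have hjsub : ∀ v w, j (v - w) = j v - j w := by
    intro v w
    have h := hjadd (v - w) w
    rw [sub_add_cancel] at h
    rw [h, add_sub_cancel_right]
  induction n with
  | zero => intro l _ m _ i; exact i.elim0
  | succ n ih =>
    intro l hl m hm
    have hl' : LinearIndependent k (fun i : Fin n => l i.castSucc) :=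
      hl.comp _ (Fin.castSucc_injective n)
    have ih' := ih _ hl'
    -- if the last one is zero we are done
    by_cases hlast : m (Fin.last n) = 0
    · rw [Fin.sum_univ_castSucc, hlast, hj0, smul_zero, add_zero] at hm
      have h1 := ih' _ hm
      intro i
      refine Fin.lastCases hlast (fun i => h1 i) i
    exfalso
    -- the submodule of the possible last terms
    have hEsum : ∀ (f : Fin n → V), E (∑ i, f i) = ∑ i, E (f i) := by
      intro f
      have : ∀ s : Finset (Fin n), E (∑ i ∈ s, f i) = ∑ i ∈ s, E (f i) := by
        intro s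
        induction s using Finset.induction_on with
        | empty => simpa using hE0
        | insert a s ha ih => rw [Finset.sum_insert ha, Finset.sum_insert ha, hEadd, ih]
      exact this Finset.univ
    have hEconst : ∀ (c : L) v, E (algebraMap L (RatFunc L) c • v) =
        algebraMap L (RatFunc L) c • E v := by
      intro c v
      rw [hEsmul, Derivation.map_algebraMap, zero_smul, zero_add]
    let U : Submodule (RatFunc k) M :=
      { carrier := {u | ∃ m' : Fin n → M,
          ∑ i, algebraMap L (RatFunc L) (l i.castSucc) • j (m' i) +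
            algebraMap L (RatFunc L) (l (Fin.last n)) • j u = 0}
        add_mem' := by
          rintro u u' ⟨a, ha⟩ ⟨b, hb⟩
          refine ⟨a + b, ?_⟩
          have h1 : ∑ i, algebraMap L (RatFunc L) (l i.castSucc) • j ((a + b) i) =
              ∑ i, algebraMap L (RatFunc L) (l i.castSucc) • j (a i) +
              ∑ i, algebraMap L (RatFunc L) (l i.castSucc) • j (b i) := by
            rw [← Finset.sum_add_distrib]
            refine Finset.sum_congr rfl fun i _ => ?_
            rw [Pi.add_apply, hjadd, smul_add]
          rw [h1, hjadd, smul_add, add_add_add_comm, ha, hb, add_zero]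
        zero_mem' := ⟨0, by simp [hj0]⟩
        smul_mem' := by
          rintro c u ⟨a, ha⟩
          refine ⟨c • a, ?_⟩
          have h1 : ∑ i, algebraMap L (RatFunc L) (l i.castSucc) • j ((c • a) i) =
              ratInc k L c • ∑ i, algebraMap L (RatFunc L) (l i.castSucc) • j (a i) := by
            rw [Finset.smul_sum]
            refine Finset.sum_congr rfl fun i _ => ?_
            rw [Pi.smul_apply, hjsmul, smul_comm]
          rw [h1, hjsmul, smul_comm _ (ratInc k L c), ← smul_add, ha, smul_zero] }
    have hUD : ∀ u ∈ U, D u ∈ U := by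
      rintro u ⟨a, ha⟩
      refine ⟨fun i => D (a i), ?_⟩
      have h1 := congrArg E ha
      rw [hEadd, hEsum, hE0, hEconst] at h1
      simp only [hEconst] at h1
      simp only [hjE]
      exact h1
    have hU : U = ⊤ := by
      rcases hsimple U hUD with h | h
      · exfalso
        apply hlast
        have h1 : m (Fin.last n) ∈ U := ⟨fun i => m i.castSucc, by
          rw [Fin.sum_univ_castSucc] at hm
          exact hm⟩
        rwa [h, Submodule.mem_bot] at h1
      · exact h
    have hUall : ∀ u : M, ∃ m' : Fin n → M,
        ∑ i, algebraMap L (RatFunc L) (l i.castSucc) • j (m' i) +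
          algebraMap L (RatFunc L) (l (Fin.last n)) • j u = 0 := by
      intro u
      have : u ∈ U := by rw [hU]; exact Submodule.mem_top
      exact this
    choose f hf using hUall
    have huniq : ∀ u (m' : Fin n → M), ∑ i, algebraMap L (RatFunc L) (l i.castSucc) • j (m' i) +
          algebraMap L (RatFunc L) (l (Fin.last n)) • j u = 0 → m' = f u := by
      intro u m' hm'
      have h1 : ∑ i, algebraMap L (RatFunc L) (l i.castSucc) • j (m' i - f u i) = 0 := by
        have h2 : ∑ i, algebraMap L (RatFunc L) (l i.castSucc) • j (m' i - f u i) =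
            ∑ i, algebraMap L (RatFunc L) (l i.castSucc) • j (m' i) -
            ∑ i, algebraMap L (RatFunc L) (l i.castSucc) • j (f u i) := by
          rw [← Finset.sum_sub_distrib]
          refine Finset.sum_congr rfl fun i _ => ?_
          rw [hjsub, smul_sub]
        rw [h2, sub_eq_zero]
        exact add_right_cancel (hm'.trans (hf u).symm)
      funext i
      exact sub_eq_zero.1 (ih' _ h1 i)
    have hfadd : ∀ u u', f (u + u') = f u + f u' := by
      intro u u'
      symm
      apply huniq
      have h1 : ∑ i, algebraMap L (RatFunc L) (l i.castSucc) • j ((f u + f u') i) =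
          ∑ i, algebraMap L (RatFunc L) (l i.castSucc) • j (f u i) +
          ∑ i, algebraMap L (RatFunc L) (l i.castSucc) • j (f u' i) := by
        rw [← Finset.sum_add_distrib]
        refine Finset.sum_congr rfl fun i _ => ?_
        rw [Pi.add_apply, hjadd, smul_add]
      rw [h1, hjadd, smul_add, add_add_add_comm, hf, hf, add_zero]
    have hfsmul : ∀ (c : RatFunc k) u, f (c • u) = c • f u := by
      intro c u
      symm
      apply huniq
      have h1 : ∑ i, algebraMap L (RatFunc L) (l i.castSucc) • j ((c • f u) i) =
          ratInc k L c • ∑ i, algebraMap L (RatFunc L) (l i.castSucc) • j (f u i) := by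
        rw [Finset.smul_sum]
        refine Finset.sum_congr rfl fun i _ => ?_
        rw [Pi.smul_apply, hjsmul, smul_comm]
      rw [h1, hjsmul, smul_comm _ (ratInc k L c), ← smul_add, hf, smul_zero]
    have hfD : ∀ u, f (D u) = fun i => D (f u i) := by
      intro u
      symm
      apply huniq
      have h1 := congrArg E (hf u)
      rw [hEadd, hEsum, hE0, hEconst] at h1
      simp only [hEconst] at h1
      simp only [hjE]
      exact h1
    -- Schur
    have hschur : ∀ i : Fin n, ∃ c : k, ∀ v, f v i = (algebraMap k (RatFunc k) c) • v := by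
      intro i
      let F : M →ₗ[RatFunc k] M :=
        { toFun := fun v => f v i
          map_add' := fun u u' => by rw [hfadd]; rfl
          map_smul' := fun c u => by rw [hfsmul]; rfl }
      exact schur hadd h0 hsmul hsimple F (fun v => by
        change f (D v) i = D (f v i)
        rw [hfD])
    choose c hc using hschur
    set u := m (Fin.last n) with hu
    have h1 := hf u
    have h2 : (algebraMap L (RatFunc L) (∑ i, algebraMap k L (c i) * l i.castSucc +
        l (Fin.last n))) • j u = 0 := by
      rw [map_add, add_smul, map_sum, Finset.sum_smul, ← h1]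
      congr 1
      refine Finset.sum_congr rfl fun i _ => ?_
      rw [hc, hjsmul, ratInc_const, smul_smul, map_mul, mul_comm]
    have hju : j u ≠ 0 := fun h => hlast (hjinj u h)
    have h3 : ∑ i, algebraMap k L (c i) * l i.castSucc + l (Fin.last n) = 0 := by
      rcases smul_eq_zero.1 h2 with h | h
      · exact (map_eq_zero_iff _ (algebraMap L (RatFunc L)).injective).1 h
      · exact absurd h hju
    -- contradiction with linear independence
    have h4 := Fintype.linearIndependent_iff.1 hl (Fin.lastCases 1 (fun i => c i)) (by
      rw [Fin.sum_univ_castSucc]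
      simp only [Fin.lastCases_last, Fin.lastCases_castSucc, Algebra.smul_def, map_one, one_mul]
      exact h3) (Fin.last n)
    rw [Fin.lastCases_last] at h4
    exact one_ne_zero h4

end direct

end Pool.Agent.N169.PC
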