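import Pool.Agent.N169.PC.Irr

/-!
# Simple subquotients
-/

set_option autoImplicit false
set_option linter.unusedSectionVars false

open Polynomial

namespace Pool.Agent.N169.PC

section quot

variable {k L : Type*} [Field k] [Field L] [Algebra k L] {r : ℕ}

lemma connV_neg (A : Matrix (Fin r) (Fin r) (RatFunc L)) (v : VV k L r) :
    connV A (-v) = -connV A v := by
  have h := connV_add A v (-v)
  rw [add_neg_cancel, connV_zero] at h
  exact (neg_eq_of_add_eq_zero_right h.symm).symm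

lemma connV_sub (A : Matrix (Fin r) (Fin r) (RatFunc L)) (v w : VV k L r) :
    connV A (v - w) = connV A v - connV A w := by
  rw [sub_eq_add_neg, connV_add, connV_neg, ← sub_eq_add_neg]

variable (A : Matrix (Fin r) (Fin r) (RatFunc L)) {N' N'' : Submodule (RatFunc k) (VV k L r)}

/-- the submodule `N''` of `N'` -/
noncomputable def relK (N' N'' : Submodule (RatFunc k) (VV k L r)) : Submodule (RatFunc k) N' :=
  N''.comap N'.subtype

lemma mem_relK {n : N'} : n ∈ relK N' N'' ↔ (n : VV k L r) ∈ N'' := Iff.rfl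

/-- the derivation of the quotient `N' / N''` -/
noncomputable def quotD (hN' : ∀ v ∈ N', connV A v ∈ N') (x : N' ⧸ relK N' N'') :
    N' ⧸ relK N' N'' :=
  (relK N' N'').mkQ ⟨connV A ((Quotient.out x : N') : VV k L r), hN' _ (Quotient.out x : N').2⟩

lemma quotD_mk (hN' : ∀ v ∈ N', connV A v ∈ N') (hN'' : ∀ v ∈ N'', connV A v ∈ N'')
    (n : N') : quotD A hN' ((relK N' N'').mkQ n) =
      (relK N' N'').mkQ ⟨connV A (n : VV k L r), hN' _ n.2⟩ := by
  unfold quotD
  rw [← sub_eq_zero, ← map_sub, Submodule.mkQ_apply, Submodule.Quotient.mk_eq_zero, mem_relK]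
  have h1 : (relK N' N'').mkQ (Quotient.out ((relK N' N'').mkQ n)) = (relK N' N'').mkQ n :=
    Quotient.out_eq _
  rw [← sub_eq_zero, ← map_sub, Submodule.mkQ_apply, Submodule.Quotient.mk_eq_zero, mem_relK] at h1
  have h2 := hN'' _ h1
  rw [Submodule.coe_sub, connV_sub] at h2
  exact h2

/-- the derivation of the quotient of `L(x) ^ r` -/
noncomputable def quotE (U : Submodule (RatFunc L) (VV k L r)) (x : VV k L r ⧸ U) :
    VV k L r ⧸ U :=
  U.mkQ (connV A (Quotient.out x : VV k L r))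

lemma quotE_mk {U : Submodule (RatFunc L) (VV k L r)} (hU : ∀ v ∈ U, connV A v ∈ U)
    (v : VV k L r) : quotE A U (U.mkQ v) = U.mkQ (connV A v) := by
  unfold quotE
  rw [← sub_eq_zero, ← map_sub, Submodule.mkQ_apply, Submodule.Quotient.mk_eq_zero]
  have h1 : U.mkQ (Quotient.out (U.mkQ v)) = U.mkQ v := Quotient.out_eq _
  rw [← sub_eq_zero, ← map_sub, Submodule.mkQ_apply, Submodule.Quotient.mk_eq_zero] at h1
  have h2 := hU _ h1
  rw [connV_sub] at h2
  exact h2

/-- the map between the quotients -/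
noncomputable def quotJ (U : Submodule (RatFunc L) (VV k L r)) (x : N' ⧸ relK N' N'') :
    VV k L r ⧸ U :=
  U.mkQ ((Quotient.out x : N') : VV k L r)

lemma quotJ_mk {U : Submodule (RatFunc L) (VV k L r)} (hU : ∀ n ∈ N'', n ∈ U) (n : N') :
    quotJ U ((relK N' N'').mkQ n) = U.mkQ (n : VV k L r) := by
  unfold quotJ
  rw [← sub_eq_zero, ← map_sub, Submodule.mkQ_apply, Submodule.Quotient.mk_eq_zero]
  have h1 : (relK N' N'').mkQ (Quotient.out ((relK N' N'').mkQ n)) = (relK N' N'').mkQ n :=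
    Quotient.out_eq _
  rw [← sub_eq_zero, ← map_sub, Submodule.mkQ_apply, Submodule.Quotient.mk_eq_zero, mem_relK] at h1
  have h2 := hU _ h1
  rw [Submodule.coe_sub] at h2
  exact h2

/-- independence over `L(x)` modulo a stable subspace -/
theorem indep_mod [IsAlgClosed k] [CharZero k] [FiniteDimensional (RatFunc k) N']
    (hN' : ∀ v ∈ N', connV A v ∈ N') (hN'' : ∀ v ∈ N'', connV A v ∈ N'')
    (hle : N'' < N') (hmax : ∀ U : Submodule (RatFunc k) (VV k L r),
      (∀ v ∈ U, connV A v ∈ U) → N'' ≤ U → U ≤ N' → U = N'' ∨ U = N')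
    {U : Submodule (RatFunc L) (VV k L r)} (hU : ∀ v ∈ U, connV A v ∈ U)
    (hcap : ∀ n ∈ N', n ∈ U → n ∈ N'') (hcap' : ∀ n ∈ N'', n ∈ U)
    {s : ℕ} (b : Module.Basis (Fin s) (RatFunc k) (N' ⧸ relK N' N''))
    (n : Fin s → N') (hn : ∀ i, (relK N' N'').mkQ (n i) = b i)
    (c : Fin s → RatFunc L) (hc : ∑ i, c i • ((n i : N') : VV k L r) ∈ U) : c = 0 := by
  classical
  have hsurj := (relK N' N'').mkQ_surjective
  have hnt : Nontrivial (N' ⧸ relK N' N'') := by
    apply Submodule.Quotient.nontrivial_iff.2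
    intro h
    apply hle.not_ge
    intro v hv
    have h1 : (⟨v, hv⟩ : N') ∈ relK N' N'' := by rw [h]; exact Submodule.mem_top
    exact h1
  have hind := indep (k := k) (L := L) (M := N' ⧸ relK N' N'') (V := VV k L r ⧸ U) (D := quotD A hN')
    (E := quotE A U) (j := quotJ U) ?_ ?_ ?_ ?_ ?_ ?_ ?_ ?_ ?_ ?_ ?_ b b.linearIndependent
  · rw [Fintype.linearIndependent_iff] at hind
    funext i
    refine hind c ?_ i
    have h1 : ∀ i, quotJ U (b i) = U.mkQ ((n i : N') : VV k L r) := by
      intro i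
      rw [← hn, quotJ_mk hcap']
    simp only [h1, ← map_smul]
    rw [← map_sum, Submodule.mkQ_apply, Submodule.Quotient.mk_eq_zero]
    exact hc
  · intro v w
    obtain ⟨v, rfl⟩ := hsurj v
    obtain ⟨w, rfl⟩ := hsurj w
    rw [← map_add, quotD_mk A hN' hN'', quotD_mk A hN' hN'', quotD_mk A hN' hN'', ← map_add]
    congr 1
    apply Subtype.ext
    exact connV_add A _ _
  · have h := quotD_mk A hN' hN'' (0 : N')
    rw [map_zero] at h
    rw [h]
    have h2 : (⟨connV A ((0 : N') : VV k L r), hN' _ (0 : N').2⟩ : N') = 0 :=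
      Subtype.ext (connV_zero A)
    rw [h2, map_zero]
  · intro a v
    obtain ⟨v, rfl⟩ := hsurj v
    rw [← map_smul, quotD_mk A hN' hN'', quotD_mk A hN' hN'', ← map_smul, ← map_smul, ← map_add]
    congr 1
    apply Subtype.ext
    exact connV_smul A _ _
  · intro W hW
    have h1 := hmax ((W.comap (relK N' N'').mkQ).map N'.subtype) (by
      rintro v ⟨u, hu, rfl⟩
      refine ⟨⟨connV A (u : VV k L r), hN' _ u.2⟩, ?_, rfl⟩
      rw [SetLike.mem_coe, Submodule.mem_comap] at hu ⊢
      have h2 := hW _ hu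
      rw [quotD_mk A hN' hN''] at h2
      exact h2) (by
      intro v hv
      refine ⟨⟨v, hle.le hv⟩, ?_, rfl⟩
      rw [SetLike.mem_coe, Submodule.mem_comap]
      have h2 : (relK N' N'').mkQ (⟨v, hle.le hv⟩ : N') = 0 := by
        rw [Submodule.mkQ_apply, Submodule.Quotient.mk_eq_zero]
        exact hv
      rw [h2]
      exact W.zero_mem) (by
      rintro v ⟨u, hu, rfl⟩
      exact u.2)
    rcases h1 with h1 | h1
    · left
      rw [eq_bot_iff]
      intro x hx
      obtain ⟨u, rfl⟩ := hsurj x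
      have h2 : (u : VV k L r) ∈ (W.comap (relK N' N'').mkQ).map N'.subtype := ⟨u, hx, rfl⟩
      rw [h1] at h2
      rw [Submodule.mem_bot, Submodule.mkQ_apply, Submodule.Quotient.mk_eq_zero]
      exact h2
    · right
      rw [eq_top_iff]
      intro x _
      obtain ⟨u, rfl⟩ := hsurj x
      have h2 : (u : VV k L r) ∈ (W.comap (relK N' N'').mkQ).map N'.subtype := by
        rw [h1]; exact u.2
      obtain ⟨u', hu', h3⟩ := h2
      have h4 : u' = u := Subtype.ext h3
      rw [← h4]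
      exact hu'
  · intro v w
    obtain ⟨v, rfl⟩ := U.mkQ_surjective v
    obtain ⟨w, rfl⟩ := U.mkQ_surjective w
    rw [← map_add, quotE_mk A hU, quotE_mk A hU, quotE_mk A hU, ← map_add, connV_add]
  · have h := quotE_mk A hU 0
    rw [map_zero, connV_zero, map_zero] at h
    exact h
  · intro a v
    obtain ⟨v, rfl⟩ := U.mkQ_surjective v
    rw [← map_smul, quotE_mk A hU, quotE_mk A hU, ← map_smul, ← map_smul, ← map_add, connV_smulL]
  · intro v w
    obtain ⟨v, rfl⟩ := hsurj v
    obtain ⟨w, rfl⟩ := hsurj w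
    rw [← map_add, quotJ_mk hcap', quotJ_mk hcap', quotJ_mk hcap', ← map_add]
    rfl
  · intro a v
    obtain ⟨v, rfl⟩ := hsurj v
    rw [← map_smul, quotJ_mk hcap', quotJ_mk hcap', ← map_smul]
    rfl
  · intro v hv
    obtain ⟨v, rfl⟩ := hsurj v
    rw [quotJ_mk hcap', Submodule.mkQ_apply, Submodule.Quotient.mk_eq_zero] at hv
    rw [Submodule.mkQ_apply, Submodule.Quotient.mk_eq_zero]
    exact hcap _ v.2 hv
  · intro v
    obtain ⟨v, rfl⟩ := hsurj v
    rw [quotD_mk A hN' hN'', quotJ_mk hcap', quotJ_mk hcap', quotE_mk A hU]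

end quot

end Pool.Agent.N169.PC
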