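import Pool.Agent.N169.PC.Factor

/-!
# Simple subquotients of a quotient of a connection over `k(x)`
-/

set_option autoImplicit false
set_option linter.unusedSectionVars false

open Polynomial

namespace Pool.Agent.N169.PC

section factor

variable {k L : Type*} [Field k] [Field L] [Algebra k L] {r : ℕ}

/-- the subspace over `L(x)` generated by a subspace over `k(x)` -/
noncomputable def Lsp (N : Submodule (RatFunc k) (VV k L r)) : Submodule (RatFunc L) (VV k L r) :=
  Submodule.span (RatFunc L) (N : Set (VV k L r))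

lemma mem_Lsp {N : Submodule (RatFunc k) (VV k L r)} {n : VV k L r} (hn : n ∈ N) : n ∈ Lsp N :=
  Submodule.subset_span hn

lemma Lsp_le {N : Submodule (RatFunc k) (VV k L r)} {U : Submodule (RatFunc L) (VV k L r)}
    (h : ∀ n ∈ N, n ∈ U) : Lsp N ≤ U := Submodule.span_le.2 h

lemma Lsp_mono {N N' : Submodule (RatFunc k) (VV k L r)} (h : N ≤ N') : Lsp N ≤ Lsp N' :=
  Lsp_le fun _ hn => mem_Lsp (h hn)

variable (A : Matrix (Fin r) (Fin r) (RatFunc L))

lemma Lsp_stable {N : Submodule (RatFunc k) (VV k L r)} (hN : ∀ v ∈ N, connV A v ∈ N) :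
    ∀ v ∈ Lsp N, connV A v ∈ Lsp N := by
  intro v hv
  unfold Lsp at hv
  induction hv using Submodule.span_induction with
  | mem x hx => exact mem_Lsp (hN x hx)
  | zero => rw [connV_zero]; exact Submodule.zero_mem _
  | add x y _ _ hx hy => rw [connV_add]; exact Submodule.add_mem _ hx hy
  | smul a x hx' hx =>
    rw [connV_smulL]
    exact Submodule.add_mem _ (Submodule.smul_mem _ _ hx') (Submodule.smul_mem _ _ hx)

lemma sup_stable {U W : Submodule (RatFunc L) (VV k L r)} (hU : ∀ v ∈ U, connV A v ∈ U)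
    (hW : ∀ v ∈ W, connV A v ∈ W) : ∀ v ∈ U ⊔ W, connV A v ∈ U ⊔ W := by
  intro v hv
  obtain ⟨u, hu, w, hw, rfl⟩ := Submodule.mem_sup.1 hv
  rw [connV_add]
  exact Submodule.add_mem_sup (hU u hu) (hW w hw)

lemma inf_stable {U W : Submodule (RatFunc L) (VV k L r)} (hU : ∀ v ∈ U, connV A v ∈ U)
    (hW : ∀ v ∈ W, connV A v ∈ W) : ∀ v ∈ U ⊓ W, connV A v ∈ U ⊓ W :=
  fun v hv => ⟨hU v hv.1, hW v hv.2⟩

/-- the intersection as a subspace over `k(x)` -/
def capK (N : Submodule (RatFunc k) (VV k L r)) (U : Submodule (RatFunc L) (VV k L r)) :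
    Submodule (RatFunc k) (VV k L r) where
  carrier := {n | n ∈ N ∧ n ∈ U}
  add_mem' := fun ha hb => ⟨N.add_mem ha.1 hb.1, U.add_mem ha.2 hb.2⟩
  zero_mem' := ⟨N.zero_mem, U.zero_mem⟩
  smul_mem' := fun c _ hn => ⟨N.smul_mem c hn.1, U.smul_mem (ratInc k L c) hn.2⟩

theorem factor_aux [IsAlgClosed k] [CharZero k] (N : Submodule (RatFunc k) (VV k L r))
    [FiniteDimensional (RatFunc k) N] (hN : ∀ v ∈ N, connV A v ∈ N) (hspan : Lsp N = ⊤)
    (E₁ E₂ : Submodule (RatFunc L) (VV k L r)) (hE₁ : ∀ v ∈ E₁, connV A v ∈ E₁)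
    (hE₂ : ∀ v ∈ E₂, connV A v ∈ E₂) (hlt : E₂ < E₁)
    (hsimple : ∀ U : Submodule (RatFunc L) (VV k L r), (∀ v ∈ U, connV A v ∈ U) → E₂ ≤ U →
      U ≤ E₁ → U = E₂ ∨ U = E₁) :
    ∃ (s : ℕ) (w : Fin s → VV k L r) (B : Matrix (Fin s) (Fin s) (RatFunc k)),
      (∀ i, w i ∈ E₁) ∧ (∀ c : Fin s → RatFunc L, ∑ i, c i • w i ∈ E₂ → c = 0) ∧
      (∀ v ∈ E₁, ∃ c : Fin s → RatFunc L, v - ∑ i, c i • w i ∈ E₂) ∧
      ∀ j, connV A (w j) - ∑ i, ratInc k L (B i j) • w i ∈ E₂ := by
  classical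
  -- the minimal `N'`
  have hex : ∃ n : ℕ, ∃ U : Submodule (RatFunc k) (VV k L r), U ≤ N ∧
      (∀ v ∈ U, connV A v ∈ U) ∧ ¬ (E₁ ⊓ Lsp U ≤ E₂) ∧ Module.finrank (RatFunc k) U = n := by
    refine ⟨_, N, le_rfl, hN, ?_, rfl⟩
    rw [hspan, inf_top_eq]
    exact hlt.not_ge
  obtain ⟨N', hN'N, hN', hN'cap, hN'n⟩ := Nat.find_spec hex
  have hfin' : FiniteDimensional (RatFunc k) N' := Submodule.finiteDimensional_of_le hN'N
  have hmin : ∀ U : Submodule (RatFunc k) (VV k L r), (∀ v ∈ U, connV A v ∈ U) → U < N' →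
      E₁ ⊓ Lsp U ≤ E₂ := by
    intro U hU hUN'
    by_contra hcon
    have h1 := Nat.find_min' hex ⟨U, hUN'.le.trans hN'N, hU, hcon, rfl⟩
    have h2 := Submodule.finrank_lt_finrank_of_lt hUN'
    omega
  -- the maximal `N''`
  have hex2 : ∃ n : ℕ, ∃ U : Submodule (RatFunc k) (VV k L r), U < N' ∧
      (∀ v ∈ U, connV A v ∈ U) ∧
      Module.finrank (RatFunc k) N' - Module.finrank (RatFunc k) U = n := by
    refine ⟨_, ⊥, ?_, ?_, rfl⟩
    · rw [bot_lt_iff_ne_bot]
      rintro rfl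
      apply hN'cap
      have h1 : Lsp (⊥ : Submodule (RatFunc k) (VV k L r)) = ⊥ := by
        rw [eq_bot_iff]
        apply Lsp_le
        intro n hn
        rw [Submodule.mem_bot] at hn
        rw [hn]
        exact Submodule.zero_mem _
      rw [h1, inf_bot_eq]
      exact bot_le
    · intro v hv
      rw [Submodule.mem_bot] at hv
      rw [hv, connV_zero]
      exact Submodule.zero_mem _
  obtain ⟨N'', hN''lt, hN'', hN''n⟩ := Nat.find_spec hex2
  have hmax : ∀ U : Submodule (RatFunc k) (VV k L r), (∀ v ∈ U, connV A v ∈ U) → N'' ≤ U →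
      U ≤ N' → U = N'' ∨ U = N' := by
    intro U hU hle hle'
    by_cases h : U = N'
    · exact Or.inr h
    · left
      have hUlt : U < N' := lt_of_le_of_ne hle' h
      have h1 := Nat.find_min' hex2 ⟨U, hUlt, hU, rfl⟩
      have h2 := Submodule.finrank_lt_finrank_of_lt hUlt
      have h3 := Submodule.finrank_lt_finrank_of_lt hN''lt
      have hfinU : FiniteDimensional (RatFunc k) U := Submodule.finiteDimensional_of_le hle'
      exact (Submodule.eq_of_le_of_finrank_le hle (by omega)).symm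
  -- bases
  obtain ⟨s, ⟨b⟩⟩ : ∃ s : ℕ, Nonempty (Module.Basis (Fin s) (RatFunc k) (N' ⧸ relK N' N'')) :=
    ⟨_, ⟨Module.finBasis (RatFunc k) (N' ⧸ relK N' N'')⟩⟩
  have hlift := fun i => (relK N' N'').mkQ_surjective (b i)
  choose n hn using hlift
  have hexp : ∀ v (hv : v ∈ N'), v - ∑ i, ratInc k L (b.repr ((relK N' N'').mkQ ⟨v, hv⟩) i) •
      ((n i : N') : VV k L r) ∈ N'' := by
    intro v hv
    have h1 : (relK N' N'').mkQ ((⟨v, hv⟩ : N') -
        ∑ i, b.repr ((relK N' N'').mkQ ⟨v, hv⟩) i • n i) = 0 := by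
      rw [map_sub, map_sum]
      simp only [map_smul, hn]
      rw [b.sum_repr, sub_self]
    rw [Submodule.mkQ_apply, Submodule.Quotient.mk_eq_zero, mem_relK, Submodule.coe_sub,
      AddSubmonoidClass.coe_finsetSum] at h1
    exact h1
  let B : Matrix (Fin s) (Fin s) (RatFunc k) := Matrix.of fun i j =>
    b.repr ((relK N' N'').mkQ ⟨connV A ((n j : N') : VV k L r), hN' _ (n j).2⟩) i
  set V' := Lsp N' with hV'
  set V'' := Lsp N'' with hV''
  have hV's := Lsp_stable A hN'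
  have hV''s := Lsp_stable A hN''
  rw [← hV'] at hV's
  rw [← hV''] at hV''s
  have hle : V'' ≤ V' := Lsp_mono hN''lt.le
  have hexpL : ∀ v ∈ V', ∃ c : Fin s → RatFunc L,
      v - ∑ i, c i • ((n i : N') : VV k L r) ∈ V'' := by
    intro v hv
    rw [hV', Lsp] at hv
    induction hv using Submodule.span_induction with
    | mem x hx => exact ⟨_, mem_Lsp (hexp x hx)⟩
    | zero =>
      refine ⟨0, ?_⟩
      simp
    | add x y _ _ hx hy =>
      obtain ⟨c, hc⟩ := hx
      obtain ⟨c', hc'⟩ := hy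
      refine ⟨c + c', ?_⟩
      have h1 := V''.add_mem hc hc'
      have h2 : x + y - ∑ i, (c + c') i • ((n i : N') : VV k L r) =
          (x - ∑ i, c i • ((n i : N') : VV k L r)) +
          (y - ∑ i, c' i • ((n i : N') : VV k L r)) := by
        simp only [Pi.add_apply, add_smul, Finset.sum_add_distrib]
        abel
      rw [h2]
      exact h1
    | smul a x _ hx =>
      obtain ⟨c, hc⟩ := hx
      refine ⟨a • c, ?_⟩
      have h2 : a • x - ∑ i, (a • c) i • ((n i : N') : VV k L r) =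
          a • (x - ∑ i, c i • ((n i : N') : VV k L r)) := by
        simp only [Pi.smul_apply, smul_eq_mul, mul_smul, smul_sub, Finset.smul_sum]
      rw [h2]
      exact V''.smul_mem a hc
  -- stable subspaces between `V''` and `V'`
  have hindU : ∀ U : Submodule (RatFunc L) (VV k L r), (∀ v ∈ U, connV A v ∈ U) → V'' ≤ U →
      U ≤ V' → U ≠ V' → ∀ c : Fin s → RatFunc L, ∑ i, c i • ((n i : N') : VV k L r) ∈ U →
      c = 0 := by
    intro U hU hU1 hU2 hne
    have hcapU := hmax (capK N' U) (fun v hv => ⟨hN' v hv.1, hU v hv.2⟩)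
      (fun v hv => ⟨hN''lt.le hv, hU1 (mem_Lsp hv)⟩) (fun v hv => hv.1)
    have hcapU' : capK N' U = N'' := by
      rcases hcapU with h | h
      · exact h
      · exfalso
        apply hne
        apply le_antisymm hU2
        apply Lsp_le
        intro x hx
        have : x ∈ capK N' U := by rw [h]; exact hx
        exact this.2
    exact indep_mod A hN' hN'' hN''lt hmax hU (fun x hx hxU => by
      rw [← hcapU']; exact ⟨hx, hxU⟩) (fun x hx => hU1 (mem_Lsp hx)) b n hn
  have hclaim : ∀ U : Submodule (RatFunc L) (VV k L r), (∀ v ∈ U, connV A v ∈ U) → V'' ≤ U →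
      U ≤ V' → U = V'' ∨ U = V' := by
    intro U hU hU1 hU2
    by_cases hne : U = V'
    · exact Or.inr hne
    · left
      apply le_antisymm _ hU1
      intro u hu
      obtain ⟨c, hc⟩ := hexpL u (hU2 hu)
      have h1 : ∑ i, c i • ((n i : N') : VV k L r) ∈ U := by
        have h2 := U.sub_mem hu (hU1 hc)
        rw [sub_sub_cancel] at h2
        exact h2
      have h3 := hindU U hU hU1 hU2 hne c h1
      rw [h3] at hc
      simpa using hc
  have hcap'' : E₁ ⊓ V'' ≤ E₂ := hmin N'' hN'' hN''lt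
  have hVne : V'' ≠ V' := by
    intro h
    apply hN'cap
    rw [← h]
    exact hcap''
  have hind := hindU V'' hV''s le_rfl hle hVne
  -- `V' = E₁ ∩ V' + V''`
  have hT1 : (E₁ ⊓ V') ⊔ V'' = V' := by
    rcases hclaim ((E₁ ⊓ V') ⊔ V'') (sup_stable A (inf_stable A hE₁ hV's) hV''s) le_sup_right
      (sup_le inf_le_right hle) with h | h
    · exfalso
      apply hN'cap
      have h1 : E₁ ⊓ V' ≤ V'' := by rw [← h]; exact le_sup_left
      exact (le_inf inf_le_left h1).trans hcap''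
    · exact h
  have hT2 : E₂ ⊓ V' ≤ V'' := by
    rcases hclaim ((E₂ ⊓ V') ⊔ V'') (sup_stable A (inf_stable A hE₂ hV's) hV''s) le_sup_right
      (sup_le inf_le_right hle) with h | h
    · rw [← h]; exact le_sup_left
    · exfalso
      apply hN'cap
      rintro e ⟨he1, he2⟩
      have h1 : e ∈ (E₂ ⊓ V') ⊔ V'' := by rw [h]; exact he2
      obtain ⟨e2, he2', v, hv, hev⟩ := Submodule.mem_sup.1 h1
      have h2 : v ∈ E₁ := by
        have h3 : v = e - e2 := by rw [← hev]; abel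
        rw [h3]
        exact E₁.sub_mem he1 (hlt.le he2'.1)
      rw [← hev]
      exact E₂.add_mem he2'.1 (hcap'' ⟨h2, hv⟩)
  have hT3 : (E₁ ⊓ V') ⊔ E₂ = E₁ := by
    rcases hsimple ((E₁ ⊓ V') ⊔ E₂) (sup_stable A (inf_stable A hE₁ hV's) hE₂) le_sup_right
      (sup_le inf_le_left hlt.le) with h | h
    · exfalso
      apply hN'cap
      rw [← h]
      exact le_sup_left
    · exact h
  -- the basis of the subquotient
  have hdec : ∀ i, ∃ u ∈ E₁ ⊓ V', ∃ v ∈ V'', u + v = ((n i : N') : VV k L r) := by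
    intro i
    have h1 : ((n i : N') : VV k L r) ∈ (E₁ ⊓ V') ⊔ V'' := by
      rw [hT1]
      exact mem_Lsp (n i).2
    obtain ⟨u, hu, v, hv, h⟩ := Submodule.mem_sup.1 h1
    exact ⟨u, hu, v, hv, h⟩
  choose u hu v hv huv using hdec
  have hsumuv : ∀ c : Fin s → RatFunc L, ∑ i, c i • ((n i : N') : VV k L r) =
      ∑ i, c i • u i + ∑ i, c i • v i := by
    intro c
    rw [← Finset.sum_add_distrib]
    refine Finset.sum_congr rfl fun i _ => ?_
    rw [← smul_add, huv]
  have hsumv : ∀ c : Fin s → RatFunc L, ∑ i, c i • v i ∈ V'' := fun c =>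
    V''.sum_mem fun i _ => V''.smul_mem _ (hv i)
  have hsumu : ∀ c : Fin s → RatFunc L, ∑ i, c i • u i ∈ E₁ ⊓ V' := fun c =>
    (E₁ ⊓ V').sum_mem fun i _ => (E₁ ⊓ V').smul_mem _ (hu i)
  refine ⟨s, u, B, fun i => (hu i).1, fun c hc => ?_, fun x hx => ?_, fun j => ?_⟩
  · apply hind
    rw [hsumuv]
    exact V''.add_mem (hT2 ⟨hc, (hsumu c).2⟩) (hsumv c)
  · rw [← hT3] at hx
    obtain ⟨e, he, e2, he2, rfl⟩ := Submodule.mem_sup.1 hx
    obtain ⟨c, hc⟩ := hexpL e he.2
    refine ⟨c, ?_⟩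
    have h1 : e - ∑ i, c i • u i ∈ E₁ ⊓ V'' := by
      refine ⟨E₁.sub_mem he.1 (hsumu c).1, ?_⟩
      have h2 : e - ∑ i, c i • u i = (e - ∑ i, c i • ((n i : N') : VV k L r)) +
          ∑ i, c i • v i := by
        rw [hsumuv]
        abel
      rw [h2]
      exact V''.add_mem hc (hsumv c)
    have h3 : e + e2 - ∑ i, c i • u i = (e - ∑ i, c i • u i) + e2 := by abel
    rw [h3]
    exact E₂.add_mem (hcap'' h1) he2
  · apply hcap''
    have h1 : connV A ((n j : N') : VV k L r) -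
        ∑ i, ratInc k L (B i j) • ((n i : N') : VV k L r) ∈ V'' := mem_Lsp (hexp _ _)
    refine ⟨E₁.sub_mem (hE₁ _ (hu j).1) (hsumu _).1, ?_⟩
    have h2 : connV A (u j) - ∑ i, ratInc k L (B i j) • u i =
        (connV A ((n j : N') : VV k L r) -
          ∑ i, ratInc k L (B i j) • ((n i : N') : VV k L r)) -
        (connV A (v j) - ∑ i, ratInc k L (B i j) • v i) := by
      rw [hsumuv, ← huv, connV_add]
      abel
    rw [h2]
    exact V''.sub_mem h1 (V''.sub_mem (hV''s _ (hv j)) (hsumv _))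

end factor

end Pool.Agent.N169.PC
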