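import Pool.Agent.N169.PC.Descent

/-!
# The coefficients of the iterates span a finite-dimensional space
-/

set_option autoImplicit false
set_option linter.unusedSectionVars false

open Polynomial

namespace Pool.Agent.N169.PC

universe u

section coordinates

variable {F L : Type*} [Field F] [Field L] [Algebra F L] {s : Type*} [Fintype s]
  (ω : Module.Basis s F L) {r : ℕ} (DF : F[X]) (NL : Matrix (Fin r) (Fin r) L[X])

/-- the matrix of the connection obtained by restriction of scalars -/
noncomputable def resM (x y : Fin r × s) : RatFunc F :=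
  algebraMap F[X] (RatFunc F) (co ω x.2 (NL x.1 y.1 * C (ω y.2))) / algebraMap F[X] (RatFunc F) DF

/-- the connection obtained by restriction of scalars -/
noncomputable def resD (v : Fin r × s → RatFunc F) : Fin r × s → RatFunc F := fun x =>
  W432.PC.ddx F (v x) - ∑ y, resM ω DF NL x y * v y

lemma resD_add (v w : Fin r × s → RatFunc F) :
    resD ω DF NL (v + w) = resD ω DF NL v + resD ω DF NL w := by
  funext x
  simp only [resD, Pi.add_apply, map_add, mul_add, Finset.sum_add_distrib]
  ring

lemma resD_zero : resD ω DF NL 0 = 0 := by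
  funext x
  simp only [resD, Pi.zero_apply, map_zero, mul_zero, Finset.sum_const_zero, sub_zero]

lemma resD_smul (a : RatFunc F) (v : Fin r × s → RatFunc F) :
    resD ω DF NL (a • v) = W432.PC.ddx F a • v + a • resD ω DF NL v := by
  funext x
  simp only [resD, Pi.add_apply, Pi.smul_apply, smul_eq_mul, Derivation.leibniz, mul_sub,
    Finset.mul_sum]
  have h : ∀ y, resM ω DF NL x y * (a * v y) = a * (resM ω DF NL x y * v y) := fun y => by ring
  simp only [h]
  ring

/-- coordinates of the iterates -/
noncomputable def resV (QL : ℕ → Fin r → L[X]) (n : ℕ) (x : Fin r × s) : RatFunc F :=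
  algebraMap F[X] (RatFunc F) (co ω x.2 (QL n x.1)) / algebraMap F[X] (RatFunc F) DF ^ n

lemma resV_succ (hDF : DF ≠ 0) (QL : ℕ → Fin r → L[X])
    (hQL : ∀ n i, QL (n + 1) i = DF.map (algebraMap F L) * derivative (QL n i) -
      (n : L[X]) * derivative (DF.map (algebraMap F L)) * QL n i - ∑ j, NL i j * QL n j) (n : ℕ) :
    resV ω DF QL (n + 1) = resD ω DF NL (resV ω DF QL n) := by
  funext x
  have hD' : algebraMap F[X] (RatFunc F) DF ≠ 0 := by
    rw [Ne, map_eq_zero_iff _ (RatFunc.algebraMap_injective F)]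
    exact hDF
  have h1 : co ω x.2 (QL (n + 1) x.1) = (DF * derivative (co ω x.2 (QL n x.1)) -
      (n : F[X]) * derivative DF * co ω x.2 (QL n x.1)) -
      ∑ y : Fin r × s, co ω x.2 (NL x.1 y.1 * C (ω y.2)) * co ω y.2 (QL n y.1) := by
    rw [hQL, co_sub, co_sub, co_map_mul, co_derivative, derivative_map]
    have h2 : (n : L[X]) * (derivative DF).map (algebraMap F L) =
        ((n : F[X]) * derivative DF).map (algebraMap F L) := by
      rw [Polynomial.map_mul, Polynomial.map_natCast]
    rw [h2, co_map_mul, co_sum, Fintype.sum_prod_type]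
    congr 1
    refine Finset.sum_congr rfl fun j _ => ?_
    rw [co_mul]
  change algebraMap F[X] (RatFunc F) (co ω x.2 (QL (n + 1) x.1)) /
    algebraMap F[X] (RatFunc F) DF ^ (n + 1) = W432.PC.ddx F (algebraMap F[X] (RatFunc F)
      (co ω x.2 (QL n x.1)) / algebraMap F[X] (RatFunc F) DF ^ n) -
      ∑ y, resM ω DF NL x y * resV ω DF QL n y
  rw [h1, ddx_div_pow F _ _ hDF, map_sub, sub_div, map_sum, Finset.sum_div]
  congr 1
  refine Finset.sum_congr rfl fun y _ => ?_
  unfold resM resV
  rw [map_mul]
  field_simp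
  ring

end coordinates

section finite

/-- bounded degrees -/
theorem finite_aux {k : Type*} [Field k] [CharZero k] (m : ℕ) {A : Type*} [CommRing A] [IsDomain A]
    (F : Type u) [Field F] (L : Type*) [Field L]
    [Algebra k A] [Algebra (MvPolynomial (Fin m) k) A] [IsScalarTower k (MvPolynomial (Fin m) k) A]
    [Algebra (MvPolynomial (Fin m) k) F] [IsFractionRing (MvPolynomial (Fin m) k) F]
    [Algebra A L] [IsFractionRing A L] [Algebra (MvPolynomial (Fin m) k) L]
    [IsScalarTower (MvPolynomial (Fin m) k) A L]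
    [Algebra F L] [IsScalarTower (MvPolynomial (Fin m) k) F L]
    [Module.Finite (MvPolynomial (Fin m) k) A] [FaithfulSMul (MvPolynomial (Fin m) k) A]
    (D : k[X]) (hD : D ≠ 0) {r : ℕ} (N : Matrix (Fin r) (Fin r) A[X])
    (Q : ℕ → Fin r → A[X])
    (hQ : ∀ n i, Q (n + 1) i = D.map (algebraMap k A) * derivative (Q n i) -
      (n : A[X]) * derivative (D.map (algebraMap k A)) * Q n i - ∑ j, N i j * Q n j)
    {R : Type*} [CommRing R] [Algebra.FiniteType ℤ R] (φ : R →+* A) (a : R) (ha : φ a ≠ 0)
    (hdiv : ∀ P : ℕ, ∃ p : ℕ, p.Prime ∧ P < p ∧ ∃ n t, ∀ l, ∃ q : R[X],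
      C (φ a) ^ t * Q n l = (p : A[X]) * q.map φ) :
    ∃ W : Submodule k A, FiniteDimensional k W ∧ ∀ n l j, (Q n l).coeff j ∈ W := by
  classical
  have hfin : Module.Finite F L := by
    have : Algebra.IsAlgebraic (MvPolynomial (Fin m) k) A := inferInstance
    exact Module.Finite.of_isLocalization (MvPolynomial (Fin m) k) A
      (nonZeroDivisors (MvPolynomial (Fin m) k))
  set ω := Module.finBasis F L with hω
  obtain ⟨κ, _, _, ι, Δ, hfg, hΔ, hιd, hD0, hdeg⟩ := exists_iota k m F
  set DF : F[X] := (D.map MvPolynomial.C).map (algebraMap (MvPolynomial (Fin m) k) F) with hDF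
  have hDF0 : DF ≠ 0 := by
    rw [hDF, Ne, Polynomial.map_eq_zero_iff (IsFractionRing.injective (MvPolynomial (Fin m) k) F),
      Polynomial.map_eq_zero_iff (MvPolynomial.C_injective _ _)]
    exact hD
  have hDL : DF.map (algebraMap F L) = (D.map (algebraMap k A)).map (algebraMap A L) := by
    rw [hDF, Polynomial.map_map, Polynomial.map_map, Polynomial.map_map]
    congr 1
    ext c
    simp only [RingHom.comp_apply]
    rw [← IsScalarTower.algebraMap_apply (MvPolynomial (Fin m) k) F L,
      IsScalarTower.algebraMap_apply k (MvPolynomial (Fin m) k) A,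
      ← IsScalarTower.algebraMap_apply (MvPolynomial (Fin m) k) A L, MvPolynomial.algebraMap_eq]
  obtain ⟨QL, hQLdef⟩ : ∃ QL : ℕ → Fin r → L[X], ∀ n l, QL n l = (Q n l).map (algebraMap A L) :=
    ⟨_, fun _ _ => rfl⟩
  obtain ⟨NL, hNLdef⟩ : ∃ NL : Matrix (Fin r) (Fin r) L[X],
    ∀ l l', NL l l' = (N l l').map (algebraMap A L) := ⟨fun l l' => _, fun _ _ => rfl⟩
  have hQL : ∀ n i, QL (n + 1) i = DF.map (algebraMap F L) * derivative (QL n i) -
      (n : L[X]) * derivative (DF.map (algebraMap F L)) * QL n i - ∑ j, NL i j * QL n j := by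
    intro n i
    rw [hQLdef, hQ, hDL]
    simp only [Polynomial.map_sub, Polynomial.map_mul, Polynomial.map_natCast, derivative_map,
      Polynomial.map_sum, hQLdef, hNLdef]
  have hv := resV_succ ω DF NL hDF0 QL hQL
  -- the finitely generated ring
  obtain ⟨G, hG⟩ := (Algebra.FiniteType.out : (⊤ : Subalgebra ℤ R).FG)
  set T : Finset L := insert ((algebraMap A L (φ a))⁻¹) (G.image fun x => algebraMap A L (φ x))
    with hT
  have haL : algebraMap A L (φ a) ≠ 0 := by
    rw [Ne, map_eq_zero_iff _ (IsFractionRing.injective A L)]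
    exact ha
  have hTinv : (algebraMap A L (φ a))⁻¹ ∈ Algebra.adjoin ℤ (T : Set L) := by
    apply Algebra.subset_adjoin
    rw [hT, Finset.mem_coe]
    exact Finset.mem_insert_self _ _
  have hTR : ∀ x : R, algebraMap A L (φ x) ∈ Algebra.adjoin ℤ (T : Set L) := by
    intro x
    have hx : x ∈ Algebra.adjoin ℤ (G : Set R) := by rw [hG]; exact Algebra.mem_top
    induction hx using Algebra.adjoin_induction with
    | mem y hy =>
      apply Algebra.subset_adjoin
      rw [hT, Finset.mem_coe]
      exact Finset.mem_insert_of_mem (Finset.mem_image.2 ⟨y, hy, rfl⟩)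
    | algebraMap n =>
      have : algebraMap A L (φ (algebraMap ℤ R n)) = algebraMap ℤ L n := by
        simp
      rw [this]
      exact Subalgebra.algebraMap_mem _ n
    | add y z _ _ hy hz => rw [map_add, map_add]; exact Subalgebra.add_mem _ hy hz
    | mul y z _ _ hy hz => rw [map_mul, map_mul]; exact Subalgebra.mul_mem _ hy hz
  obtain ⟨B₁, hB₁, h₁⟩ := exists_B_poly ω ι hfg T
  obtain ⟨B₂, hB₂, h₂⟩ := hfg (algebraMap F[X] (RatFunc F) DF)⁻¹
  have hDinv : ∀ n : ℕ, Cf (B₁ ⊔ B₂) (ι (algebraMap F[X] (RatFunc F) DF)⁻¹ ^ n) := by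
    intro n
    induction n with
    | zero => rw [pow_zero]; exact cf_one _
    | succ n ih => rw [pow_succ]; exact ih.mul (h₂.mono le_sup_right)
  obtain ⟨c, hc⟩ := bounded ι hfg hΔ hιd (resD_add ω DF NL) (resD_zero ω DF NL)
    (resD_smul ω DF NL) hv (B₁ ⊔ B₂) (hB₁.sup hB₂) (by
      intro P
      obtain ⟨p, hpp, hPp, n, t, h⟩ := hdiv P
      refine ⟨p, hpp, hPp, n, fun x => ?_⟩
      obtain ⟨q, hq⟩ := h x.1
      set q' : L[X] := C ((algebraMap A L (φ a))⁻¹) ^ t * (q.map φ).map (algebraMap A L) with hq'
      have hq1 : QL n x.1 = (p : L[X]) * q' := by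
        have h3 := congrArg (Polynomial.map (algebraMap A L)) hq
        rw [hQLdef]
        rw [Polynomial.map_mul, Polynomial.map_mul, Polynomial.map_pow, map_C,
          Polynomial.map_natCast] at h3
        have h4 : (C ((algebraMap A L (φ a))⁻¹) : L[X]) * C (algebraMap A L (φ a)) = 1 := by
          rw [← C_mul, inv_mul_cancel₀ haL, C_1]
        calc (Q n x.1).map (algebraMap A L) =
              (C ((algebraMap A L (φ a))⁻¹) * C (algebraMap A L (φ a))) ^ t *
              (Q n x.1).map (algebraMap A L) := by rw [h4, one_pow, one_mul]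
          _ = C ((algebraMap A L (φ a))⁻¹) ^ t *
              (C (algebraMap A L (φ a)) ^ t * (Q n x.1).map (algebraMap A L)) := by
            rw [mul_pow]; ring
          _ = C ((algebraMap A L (φ a))⁻¹) ^ t *
              ((p : L[X]) * (q.map φ).map (algebraMap A L)) := by rw [h3]
          _ = (p : L[X]) * q' := by rw [hq']; ring
      have hq2 : ∀ j, q'.coeff j ∈ Algebra.adjoin ℤ (T : Set L) := by
        intro j
        rw [hq', ← C_pow, coeff_C_mul, coeff_map, coeff_map]
        exact Subalgebra.mul_mem _ (Subalgebra.pow_mem _ hTinv t) (hTR _)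
      refine ⟨ι (algebraMap F[X] (RatFunc F) (co ω x.2 q')) *
        ι (algebraMap F[X] (RatFunc F) DF)⁻¹ ^ n,
        ((h₁ q' hq2 x.2).mono le_sup_left).mul (hDinv n), ?_⟩
      change ι (algebraMap F[X] (RatFunc F) (co ω x.2 (QL n x.1)) /
        algebraMap F[X] (RatFunc F) DF ^ n) = _
      have h5 : co ω x.2 ((p : L[X]) * q') = (p : F[X]) * co ω x.2 q' := by
        rw [← co_map_mul, Polynomial.map_natCast]
      rw [hq1, h5, map_mul, div_eq_mul_inv, map_mul, map_mul, map_natCast, map_natCast,
        ← inv_pow, map_pow, nsmul_eq_mul, mul_assoc])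
  -- common denominators
  obtain ⟨S, hS⟩ := (Module.Finite.fg_top : (⊤ : Submodule (MvPolynomial (Fin m) k) A).FG)
  obtain ⟨h, hh⟩ := IsLocalization.exist_integer_multiples
    (nonZeroDivisors (MvPolynomial (Fin m) k)) (S ×ˢ Finset.univ)
    (fun x => ω.repr (algebraMap A L x.1) x.2)
  have hint : ∀ y : A, ∀ i, ∃ w : MvPolynomial (Fin m) k,
      algebraMap _ F w = algebraMap _ F (h : MvPolynomial (Fin m) k) *
        ω.repr (algebraMap A L y) i := by
    intro y i
    have hy : y ∈ Submodule.span (MvPolynomial (Fin m) k) (S : Set A) := by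
      rw [hS]; exact Submodule.mem_top
    induction hy using Submodule.span_induction with
    | mem x hx =>
      obtain ⟨w, hw⟩ := hh (x, i) (Finset.mem_product.2 ⟨hx, Finset.mem_univ _⟩)
      refine ⟨w, ?_⟩
      rw [hw, Algebra.smul_def]
    | zero => exact ⟨0, by simp⟩
    | add x y _ _ hx hy =>
      obtain ⟨w, hw⟩ := hx
      obtain ⟨w', hw'⟩ := hy
      refine ⟨w + w', ?_⟩
      rw [map_add, hw, hw', map_add, map_add, Finsupp.add_apply, mul_add]
    | smul b x _ hx =>
      obtain ⟨w, hw⟩ := hx
      refine ⟨b * w, ?_⟩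
      have h6 : algebraMap A L (b • x) = (algebraMap _ F b) • algebraMap A L x := by
        rw [Algebra.smul_def, map_mul, ← IsScalarTower.algebraMap_apply,
          Algebra.smul_def, ← IsScalarTower.algebraMap_apply]
      rw [map_mul, hw, h6, map_smul, Finsupp.smul_apply, smul_eq_mul]
      ring
  have hh0 : algebraMap _ F (h : MvPolynomial (Fin m) k) ≠ 0 :=
    IsFractionRing.to_map_ne_zero_of_mem_nonZeroDivisors h.2
  obtain ⟨c', hc'⟩ := exists_ge (ι (algebraMap F[X] (RatFunc F)
    (C (algebraMap _ F (h : MvPolynomial (Fin m) k)))))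
  have hpow : ∀ n : ℕ, Ge 0 (ι (algebraMap F[X] (RatFunc F) DF) ^ n) := by
    intro n
    induction n with
    | zero =>
      rw [pow_zero]
      intro j hj
      rw [HahnSeries.coeff_one, if_neg hj.ne]
    | succ n ih =>
      rw [pow_succ]
      have := ih.mul (hD0 D)
      rw [add_zero] at this
      exact this
  -- the bound on the degrees
  have hbound : ∀ n l i j, ∃ w : MvPolynomial (Fin m) k, w.totalDegree ≤ c + c' ∧
      algebraMap _ F w = algebraMap _ F (h : MvPolynomial (Fin m) k) *
        ω.repr (algebraMap A L ((Q n l).coeff j)) i := by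
    intro n l i j
    have h7 : C (algebraMap _ F (h : MvPolynomial (Fin m) k)) * co ω i (QL n l) ∈
        lifts (algebraMap (MvPolynomial (Fin m) k) F) := by
      rw [lifts_iff_coeff_lifts]
      intro j'
      rw [coeff_C_mul, co_coeff, hQLdef, coeff_map]
      exact hint _ _
    rw [mem_lifts] at h7
    obtain ⟨w, hw⟩ := h7
    refine ⟨w.coeff j, ?_, ?_⟩
    · apply hdeg
      rw [hw, map_mul, map_mul]
      have h8 : algebraMap F[X] (RatFunc F) (co ω i (QL n l)) =
          resV ω DF QL n (l, i) * algebraMap F[X] (RatFunc F) DF ^ n := by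
        unfold resV
        rw [div_mul_cancel₀]
        apply pow_ne_zero
        rw [Ne, map_eq_zero_iff _ (RatFunc.algebraMap_injective F)]
        exact hDF0
      rw [h8, map_mul, map_pow]
      have h9 := hc'.mul ((hc n (l, i)).mul (hpow n))
      refine h9.mono ?_
      push_cast
      linarith
    · rw [← coeff_map, hw, coeff_C_mul, co_coeff, hQLdef, coeff_map]
  -- the finite-dimensional space
  choose Ψ₀ hΨ₀ using hint
  have hinj := IsFractionRing.injective (MvPolynomial (Fin m) k) F
  let Ψ : A →ₗ[k] (Fin (Module.finrank F L) → MvPolynomial (Fin m) k) :=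
    { toFun := Ψ₀
      map_add' := by
        intro x y
        funext i
        apply hinj
        rw [hΨ₀, Pi.add_apply, map_add, map_add, map_add, Finsupp.add_apply, mul_add, hΨ₀, hΨ₀]
      map_smul' := by
        intro c x
        funext i
        apply hinj
        have h6 : algebraMap A L (c • x) =
            (algebraMap _ F (algebraMap k (MvPolynomial (Fin m) k) c)) • algebraMap A L x := by
          rw [algebra_compatible_smul (MvPolynomial (Fin m) k) c x, Algebra.smul_def, map_mul,
            ← IsScalarTower.algebraMap_apply (MvPolynomial (Fin m) k) A L, Algebra.smul_def,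
            ← IsScalarTower.algebraMap_apply (MvPolynomial (Fin m) k) F L]
        rw [hΨ₀, h6, map_smul, Finsupp.smul_apply, smul_eq_mul, RingHom.id_apply, Pi.smul_apply,
          Algebra.smul_def, map_mul, hΨ₀]
        ring }
  have hΨinj : Function.Injective Ψ := by
    rw [injective_iff_map_eq_zero]
    intro y hy
    apply IsFractionRing.injective A L
    rw [map_zero, ← map_eq_zero_iff _ ω.repr.injective]
    ext i
    have h6 := hΨ₀ y i
    have h7 : Ψ₀ y i = 0 := congrFun hy i
    rw [h7, map_zero] at h6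
    rcases mul_eq_zero.1 h6.symm with h8 | h8
    · exact absurd h8 hh0
    · rw [h8, Finsupp.zero_apply]
  refine ⟨Submodule.comap Ψ (Submodule.pi Set.univ
    fun _ => MvPolynomial.restrictTotalDegree (Fin m) k (c + c')), ?_, ?_⟩
  · let f : (Submodule.comap Ψ (Submodule.pi Set.univ
        fun _ => MvPolynomial.restrictTotalDegree (Fin m) k (c + c'))) →ₗ[k]
        (Fin (Module.finrank F L) → MvPolynomial.restrictTotalDegree (Fin m) k (c + c')) :=
      LinearMap.pi fun i => ((LinearMap.proj i).comp (Ψ.comp (Submodule.subtype _))).codRestrict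
        (MvPolynomial.restrictTotalDegree (Fin m) k (c + c')) fun y => y.2 i (Set.mem_univ i)
    refine Module.Finite.of_injective f ?_
    intro x y hxy
    apply Subtype.ext
    apply hΨinj
    funext i
    exact congrArg Subtype.val (congrFun hxy i)
  · intro n l j
    rw [Submodule.mem_comap, Submodule.mem_pi]
    intro i _
    obtain ⟨w, hw, hw'⟩ := hbound n l i j
    have h6 : Ψ ((Q n l).coeff j) i = w := by
      apply hinj
      rw [hw']
      exact hΨ₀ _ _
    rw [h6, MvPolynomial.mem_restrictTotalDegree]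
    exact hw

/-- the coefficients of the iterates are in a finite-dimensional space if the iterates are
divisible by infinitely many primes -/
theorem finite_span {k : Type*} [Field k] [CharZero k] {A : Type*} [CommRing A] [IsDomain A]
    [Algebra k A] [Algebra.FiniteType k A] (D : k[X]) (hD : D ≠ 0) {r : ℕ}
    (N : Matrix (Fin r) (Fin r) A[X]) (Q : ℕ → Fin r → A[X])
    (hQ : ∀ n i, Q (n + 1) i = D.map (algebraMap k A) * derivative (Q n i) -
      (n : A[X]) * derivative (D.map (algebraMap k A)) * Q n i - ∑ j, N i j * Q n j)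
    {R : Type*} [CommRing R] [Algebra.FiniteType ℤ R] (φ : R →+* A) (a : R) (ha : φ a ≠ 0)
    (hdiv : ∀ P : ℕ, ∃ p : ℕ, p.Prime ∧ P < p ∧ ∃ n t, ∀ l, ∃ q : R[X],
      C (φ a) ^ t * Q n l = (p : A[X]) * q.map φ) :
    ∃ W : Submodule k A, FiniteDimensional k W ∧ ∀ n l j, (Q n l).coeff j ∈ W := by
  obtain ⟨m, g, hg, hgf⟩ := exists_finite_inj_algHom_of_fg k A
  let _ : Algebra (MvPolynomial (Fin m) k) A := g.toRingHom.toAlgebra
  have _ : IsScalarTower k (MvPolynomial (Fin m) k) A :=
    IsScalarTower.of_algebraMap_eq fun c => (g.commutes c).symm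
  have _ : Module.Finite (MvPolynomial (Fin m) k) A := hgf
  have _ : FaithfulSMul (MvPolynomial (Fin m) k) A :=
    (faithfulSMul_iff_algebraMap_injective _ _).2 hg
  let _ : Algebra (FractionRing (MvPolynomial (Fin m) k)) (FractionRing A) :=
    FractionRing.liftAlgebra (MvPolynomial (Fin m) k) (FractionRing A)
  have _ : IsScalarTower (MvPolynomial (Fin m) k) (FractionRing (MvPolynomial (Fin m) k))
    (FractionRing A) := FractionRing.isScalarTower_liftAlgebra _ _
  exact finite_aux m (FractionRing (MvPolynomial (Fin m) k)) (FractionRing A) D hD N Q hQ φ a ha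
    hdiv

end finite

end Pool.Agent.N169.PC
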