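import Pool.Agent.N169.PC.Indep

/-!
# Finite-dimensional stable subspaces over `k(x)`
-/

set_option autoImplicit false
set_option linter.unusedSectionVars false

open Polynomial

namespace Pool.Agent.N169.PC

/-- the module `L(x) ^ r`, considered also as a vector space over `k(x)` -/
def VV (k L : Type*) [Field k] [Field L] [Algebra k L] (r : ℕ) := Fin r → RatFunc L

section VV

variable (k L : Type*) [Field k] [Field L] [Algebra k L] (r : ℕ)

noncomputable instance : AddCommGroup (VV k L r) :=
  inferInstanceAs (AddCommGroup (Fin r → RatFunc L))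

noncomputable instance : Module (RatFunc L) (VV k L r) :=
  inferInstanceAs (Module (RatFunc L) (Fin r → RatFunc L))

noncomputable instance : Module (RatFunc k) (VV k L r) := Module.compHom _ (ratInc k L)

variable {k L r}

lemma VV_smul (a : RatFunc k) (v : VV k L r) : a • v = ratInc k L a • v := rfl

/-- a connection as a map of `VV` -/
noncomputable def connV (A : Matrix (Fin r) (Fin r) (RatFunc L)) (v : VV k L r) : VV k L r :=
  conn A v

variable (A : Matrix (Fin r) (Fin r) (RatFunc L))

lemma connV_add (v w : VV k L r) : connV A (v + w) = connV A v + connV A w := conn_add A v w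

lemma connV_zero : connV A (0 : VV k L r) = 0 := conn_zero A

lemma connV_smulL (a : RatFunc L) (v : VV k L r) :
    connV A (a • v) = W432.PC.ddx L a • v + a • connV A v := conn_smul A a v

lemma connV_smul (a : RatFunc k) (v : VV k L r) :
    connV A (a • v) = W432.PC.ddx k a • v + a • connV A v := by
  rw [VV_smul, VV_smul, VV_smul, connV_smulL, ddx_ratInc]

lemma connV_sum {ι : Type*} (s : Finset ι) (f : ι → VV k L r) :
    connV A (∑ i ∈ s, f i) = ∑ i ∈ s, connV A (f i) := by
  classical
  induction s using Finset.induction_on with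
  | empty => simpa using connV_zero A
  | insert a s ha ih => rw [Finset.sum_insert ha, Finset.sum_insert ha, connV_add, ih]

/-- the horizontal map given by a stable family of vectors -/
lemma horizontal {ι : Type*} [Fintype ι] (w : ι → VV k L r)
    (B : Matrix ι ι (RatFunc k))
    (hB : ∀ j, connV A (w j) = ∑ i, ratInc k L (B i j) • w i) (v : ι → RatFunc L) :
    connV A (∑ j, v j • w j) =
      ∑ j, (W432.PC.ddx L (v j) - ∑ i, ratInc k L (-(B j i)) * v i) • w j := by
  rw [connV_sum]
  simp only [connV_smulL, hB, Finset.sum_add_distrib, Finset.smul_sum, sub_smul,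
    Finset.sum_sub_distrib, Finset.sum_smul]
  rw [sub_eq_add_neg]
  congr 1
  rw [Finset.sum_comm, ← Finset.sum_neg_distrib]
  refine Finset.sum_congr rfl fun i _ => ?_
  rw [← Finset.sum_neg_distrib]
  refine Finset.sum_congr rfl fun j _ => ?_
  rw [smul_smul, map_neg, neg_mul, neg_smul, neg_neg, mul_comm]

lemma VV_sum_apply {ι : Type*} (s : Finset ι) (f : ι → VV k L r) (i : Fin r) :
    (∑ j ∈ s, f j : VV k L r) i = ∑ j ∈ s, f j i :=
  Finset.sum_apply (M := fun _ : Fin r => RatFunc L) i s f

/-- the matrix with given columns -/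
noncomputable def colMat {t : ℕ} (w : Fin t → VV k L r) : Matrix (Fin r) (Fin t) (RatFunc L) :=
  Matrix.of fun i j => w j i

lemma colMat_mulVec {t : ℕ} (w : Fin t → VV k L r) (v : Fin t → RatFunc L) :
    (colMat w).mulVec v = (∑ j, v j • w j : VV k L r) := by
  funext i
  rw [Matrix.mulVec, dotProduct, VV_sum_apply]
  refine Finset.sum_congr rfl fun j _ => ?_
  change w j i * v j = v j * w j i
  rw [mul_comm]

lemma conn_colMat {t : ℕ} (w : Fin t → VV k L r) (B : Matrix (Fin t) (Fin t) (RatFunc k))
    (hB : ∀ j, connV A (w j) = ∑ i, ratInc k L (B i j) • w i) (v : Fin t → RatFunc L) :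
    conn A ((colMat w).mulVec v) =
      (colMat w).mulVec (conn ((Matrix.of fun i j => -(B i j)).map (ratInc k L)) v) := by
  rw [colMat_mulVec, colMat_mulVec]
  exact horizontal A w B hB v

end VV

section quotient

variable {k L : Type*} [Field k] [Field L] [Algebra k L] {r : ℕ}

/-- a finite-dimensional stable `k(x)`-subspace which generates `L(x) ^ r` gives a presentation as
a quotient -/
theorem quotientOver_of_submodule (A : Matrix (Fin r) (Fin r) (RatFunc L))
    (N : Submodule (RatFunc k) (VV k L r)) [FiniteDimensional (RatFunc k) N]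
    (hN : ∀ v ∈ N, connV A v ∈ N)
    (hspan : Submodule.span (RatFunc L) (N : Set (VV k L r)) = ⊤) :
    QuotientOver k A := by
  classical
  let b := Module.finBasis (RatFunc k) N
  set t := Module.finrank (RatFunc k) N with ht
  let w : Fin t → VV k L r := fun i => ((b i : N) : VV k L r)
  let B : Matrix (Fin t) (Fin t) (RatFunc k) :=
    Matrix.of fun i j => b.repr ⟨connV A (b j), hN _ (b j).2⟩ i
  have hexp : ∀ n (hn : n ∈ N), n = ∑ i, ratInc k L (b.repr ⟨n, hn⟩ i) • w i := by
    intro n hn
    have h1 := congrArg (fun x : N => (x : VV k L r)) (b.sum_repr ⟨n, hn⟩)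
    dsimp only at h1
    rw [AddSubmonoidClass.coe_finsetSum] at h1
    exact h1.symm
  have hB : ∀ j, connV A (w j) = ∑ i, ratInc k L (B i j) • w i := fun j => hexp _ _
  refine ⟨t, Matrix.of fun i j => -(B i j), colMat w, ?_, conn_colMat A w B hB⟩
  intro v
  have hv : (v : VV k L r) ∈ Submodule.span (RatFunc L) (Set.range w) := by
    have h1 : Submodule.span (RatFunc L) (N : Set (VV k L r)) ≤
        Submodule.span (RatFunc L) (Set.range w) := by
      rw [Submodule.span_le]
      intro n hn
      rw [SetLike.mem_coe, hexp n hn]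
      exact Submodule.sum_mem _ fun i _ => Submodule.smul_mem _ _
        (Submodule.subset_span ⟨i, rfl⟩)
    rw [hspan] at h1
    exact h1 Submodule.mem_top
  obtain ⟨c, hc⟩ := (Submodule.mem_span_range_iff_exists_fun (M := VV k L r) (RatFunc L)).1 hv
  exact ⟨c, (colMat_mulVec w c).trans hc⟩

end quotient

end Pool.Agent.N169.PC
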