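import Mathlib

/-!
# Hahn series with rational exponents: leading terms of the iterates of a connection
-/

set_option autoImplicit false

open Polynomial

namespace Pool.Agent.N169.PC

section ge

variable {κ : Type*} [Field κ]

/-- all exponents of `f` are at least `q` -/
def Ge (q : ℚ) (f : HahnSeries ℚ κ) : Prop := ∀ i, i < q → f.coeff i = 0

lemma Ge.mono {p q : ℚ} {f : HahnSeries ℚ κ} (h : Ge q f) (hpq : p ≤ q) : Ge p f :=
  fun i hi => h i (hi.trans_le hpq)

lemma ge_zero (q : ℚ) : Ge q (0 : HahnSeries ℚ κ) := fun _ _ => rfl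

lemma Ge.add {q : ℚ} {f g : HahnSeries ℚ κ} (hf : Ge q f) (hg : Ge q g) : Ge q (f + g) := by
  intro i hi
  rw [HahnSeries.coeff_add, hf i hi, hg i hi, add_zero]

lemma Ge.sum {ι : Type*} {q : ℚ} (s : Finset ι) {f : ι → HahnSeries ℚ κ}
    (hf : ∀ i ∈ s, Ge q (f i)) : Ge q (∑ i ∈ s, f i) := by
  classical
  induction s using Finset.induction_on with
  | empty => simpa using ge_zero q
  | insert a s ha ih =>
    rw [Finset.sum_insert ha]
    exact (hf a (Finset.mem_insert_self a s)).add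
      (ih fun i hi => hf i (Finset.mem_insert_of_mem hi))

lemma Ge.mul {p q : ℚ} {f g : HahnSeries ℚ κ} (hf : Ge p f) (hg : Ge q g) :
    Ge (p + q) (f * g) := by
  intro i hi
  rw [HahnSeries.coeff_mul]
  refine Finset.sum_eq_zero fun ij hij => ?_
  rw [Finset.mem_antidiagonal] at hij
  obtain ⟨h1, h2, h3⟩ := hij
  rcases lt_or_ge ij.1 p with h | h
  · rw [hf _ h, zero_mul]
  · have : ij.2 < q := by linarith
    rw [hg _ this, mul_zero]

lemma coeff_mul_ge {p q : ℚ} {f g : HahnSeries ℚ κ} (hf : Ge p f) (hg : Ge q g) :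
    (f * g).coeff (p + q) = f.coeff p * g.coeff q := by
  rw [HahnSeries.coeff_mul]
  by_cases h0 : f.coeff p * g.coeff q = 0
  · rw [h0]
    refine Finset.sum_eq_zero fun ij hij => ?_
    rw [Finset.mem_antidiagonal] at hij
    obtain ⟨h1, h2, h3⟩ := hij
    rcases lt_or_ge ij.1 p with h | h
    · rw [hf _ h, zero_mul]
    · rcases lt_or_ge ij.2 q with h' | h'
      · rw [hg _ h', mul_zero]
      · have e1 : ij.1 = p := by linarith
        have e2 : ij.2 = q := by linarith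
        rw [e1, e2, h0]
  · rw [Finset.sum_eq_single (p, q)]
    · intro ij hij hne
      rw [Finset.mem_antidiagonal] at hij
      obtain ⟨h1, h2, h3⟩ := hij
      rcases lt_or_ge ij.1 p with h | h
      · rw [hf _ h, zero_mul]
      · rcases lt_or_ge ij.2 q with h' | h'
        · rw [hg _ h', mul_zero]
        · exfalso
          apply hne
          have e1 : ij.1 = p := by linarith
          have e2 : ij.2 = q := by linarith
          exact Prod.ext e1 e2
    · intro hn
      exfalso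
      apply hn
      rw [Finset.mem_antidiagonal]
      exact ⟨left_ne_zero_of_mul h0, right_ne_zero_of_mul h0, rfl⟩

/-- the exponents of the coordinates -/
theorem ge_rec {e : ℕ} {b : ℕ → HahnSeries ℚ κ} {c : ℕ → ℕ → HahnSeries ℚ κ}
    {Δ : HahnSeries ℚ κ → HahnSeries ℚ κ} (hΔ : ∀ q f, Ge q f → Ge q (Δ f)) {s : ℚ} (hs : 0 ≤ s)
    (hb : ∀ i : ℕ, i ≤ e → Ge (-s * ((e : ℚ) + 1 - (i : ℚ))) (b i)) (h00 : c 0 0 = 1)
    (h0 : ∀ i, i + 1 ≤ e → c 0 (i + 1) = 0) (hz : ∀ n, c (n + 1) 0 = Δ (c n 0) + c n e * b 0)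
    (hsucc : ∀ n i, i + 1 ≤ e → c (n + 1) (i + 1) = Δ (c n (i + 1)) + c n i + c n e * b (i + 1)) :
    ∀ (n i : ℕ), i ≤ e → Ge (-s * ((n : ℚ) - (i : ℚ))) (c n i) := by
  intro n
  induction n with
  | zero =>
    intro i hi
    cases i with
    | zero =>
      rw [h00]
      intro j hj
      have h1 : j ≠ 0 := by
        rintro rfl
        simp at hj
      rw [HahnSeries.coeff_one, if_neg h1]
    | succ i =>
      rw [h0 i hi]
      exact ge_zero _
  | succ n ih =>
    intro i hi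
    have hlast : ∀ j : ℕ, j ≤ e → Ge (-s * (((n + 1 : ℕ) : ℚ) - (j : ℚ))) (c n e * b j) := by
      intro j hj
      have h1 := (ih e le_rfl).mul (hb j hj)
      refine h1.mono (le_of_eq ?_)
      push_cast
      ring
    cases i with
    | zero =>
      rw [hz]
      refine Ge.add (hΔ _ _ ((ih 0 (Nat.zero_le _)).mono ?_)) (hlast 0 (Nat.zero_le _))
      push_cast
      linarith
    | succ i =>
      rw [hsucc n i hi]
      refine Ge.add (Ge.add (hΔ _ _ ((ih (i + 1) hi).mono ?_)) ((ih i (by omega)).mono ?_))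
        (hlast (i + 1) hi)
      · push_cast
        linarith
      · push_cast
        linarith

/-- the recursion for the leading coefficients -/
theorem coeff_rec {e : ℕ} {b : ℕ → HahnSeries ℚ κ} {c : ℕ → ℕ → HahnSeries ℚ κ}
    {Δ : HahnSeries ℚ κ → HahnSeries ℚ κ} (hΔ : ∀ q f, Ge q f → Ge q (Δ f)) {s : ℚ} (hs : 0 < s)
    (hb : ∀ i : ℕ, i ≤ e → Ge (-s * ((e : ℚ) + 1 - (i : ℚ))) (b i)) (h00 : c 0 0 = 1)
    (h0 : ∀ i, i + 1 ≤ e → c 0 (i + 1) = 0) (hz : ∀ n, c (n + 1) 0 = Δ (c n 0) + c n e * b 0)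
    (hsucc : ∀ n i, i + 1 ≤ e → c (n + 1) (i + 1) = Δ (c n (i + 1)) + c n i + c n e * b (i + 1)) :
    (∀ n : ℕ, (c (n + 1) 0).coeff (-s * (((n + 1 : ℕ) : ℚ) - ((0 : ℕ) : ℚ))) =
      (c n e).coeff (-s * ((n : ℚ) - (e : ℚ))) *
        (b 0).coeff (-s * ((e : ℚ) + 1 - ((0 : ℕ) : ℚ)))) ∧
    (∀ n i : ℕ, i + 1 ≤ e →
      (c (n + 1) (i + 1)).coeff (-s * (((n + 1 : ℕ) : ℚ) - ((i + 1 : ℕ) : ℚ))) =
      (c n i).coeff (-s * ((n : ℚ) - (i : ℚ))) +
      (c n e).coeff (-s * ((n : ℚ) - (e : ℚ))) *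
        (b (i + 1)).coeff (-s * ((e : ℚ) + 1 - ((i + 1 : ℕ) : ℚ)))) := by
  have hge := ge_rec hΔ hs.le hb h00 h0 hz hsucc
  have hlast : ∀ n j : ℕ, j ≤ e → (c n e * b j).coeff (-s * (((n + 1 : ℕ) : ℚ) - (j : ℚ))) =
      (c n e).coeff (-s * ((n : ℚ) - (e : ℚ))) * (b j).coeff (-s * ((e : ℚ) + 1 - (j : ℚ))) := by
    intro n j hj
    rw [← coeff_mul_ge (hge n e le_rfl) (hb j hj)]
    congr 1
    push_cast
    ring
  have hD : ∀ n j : ℕ, j ≤ e → (Δ (c n j)).coeff (-s * (((n + 1 : ℕ) : ℚ) - (j : ℚ))) = 0 := by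
    intro n j hj
    apply hΔ _ _ (hge n j hj)
    push_cast
    linarith
  constructor
  · intro n
    rw [hz, HahnSeries.coeff_add, hD n 0 (Nat.zero_le _), hlast n 0 (Nat.zero_le _), zero_add]
  · intro n i hi
    rw [hsucc n i hi, HahnSeries.coeff_add, HahnSeries.coeff_add, hD n (i + 1) hi,
      hlast n (i + 1) hi, zero_add]
    congr 2
    push_cast
    ring

end ge

section companion

variable {F : Type*} [CommRing F]

/-- powers of `X` modulo the characteristic polynomial of a companion matrix -/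
theorem dvd_companion {e : ℕ} {β : ℕ → F} {γ : ℕ → ℕ → F} (h00 : γ 0 0 = 1)
    (h0 : ∀ i, i + 1 ≤ e → γ 0 (i + 1) = 0) (hz : ∀ n, γ (n + 1) 0 = γ n e * β 0)
    (hsucc : ∀ n i, i + 1 ≤ e → γ (n + 1) (i + 1) = γ n i + γ n e * β (i + 1)) (n : ℕ) :
    (X ^ (e + 1) - ∑ i ∈ Finset.range (e + 1), C (β i) * X ^ i) ∣
      X ^ n - ∑ i ∈ Finset.range (e + 1), C (γ n i) * X ^ i := by
  induction n with
  | zero =>
    have h1 : ∑ i ∈ Finset.range (e + 1), C (γ 0 i) * X ^ i = (1 : F[X]) := by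
      rw [Finset.sum_range_succ']
      rw [h00, Finset.sum_eq_zero]
      · simp
      · intro i hi
        rw [h0 i (by rw [Finset.mem_range] at hi; omega), C_0, zero_mul]
    rw [h1]
    simp
  | succ n ih =>
    have h1 : X ^ (n + 1) - ∑ i ∈ Finset.range (e + 1), C (γ (n + 1) i) * X ^ i =
        X * (X ^ n - ∑ i ∈ Finset.range (e + 1), C (γ n i) * X ^ i) +
        C (γ n e) * (X ^ (e + 1) - ∑ i ∈ Finset.range (e + 1), C (β i) * X ^ i) := by
      have h2 : ∑ i ∈ Finset.range (e + 1), C (γ (n + 1) i) * (X : F[X]) ^ i =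
          ∑ i ∈ Finset.range e, C (γ n i) * X ^ (i + 1) +
          C (γ n e) * ∑ i ∈ Finset.range (e + 1), C (β i) * X ^ i := by
        rw [Finset.sum_range_succ', Finset.sum_range_succ' (fun i => C (β i) * (X : F[X]) ^ i),
          mul_add, Finset.mul_sum, ← add_assoc, ← Finset.sum_add_distrib]
        congr 1
        · refine Finset.sum_congr rfl fun i hi => ?_
          rw [hsucc n i (by rw [Finset.mem_range] at hi; omega), C_add, C_mul]
          ring
        · rw [hz, C_mul]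
          ring
      have h3 : X * ∑ i ∈ Finset.range (e + 1), C (γ n i) * (X : F[X]) ^ i =
          ∑ i ∈ Finset.range e, C (γ n i) * X ^ (i + 1) + C (γ n e) * X ^ (e + 1) := by
        rw [Finset.mul_sum, Finset.sum_range_succ]
        congr 1
        · exact Finset.sum_congr rfl fun i _ => by ring
        · ring
      rw [h2, mul_sub, h3]
      ring
    rw [h1]
    exact dvd_add (Dvd.dvd.mul_left ih _) (Dvd.intro_left _ rfl)

theorem companion_zero {F : Type*} [Field F] {e : ℕ} {β : ℕ → F} {γ : ℕ → ℕ → F}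
    (h00 : γ 0 0 = 1)
    (h0 : ∀ i, i + 1 ≤ e → γ 0 (i + 1) = 0) (hz : ∀ n, γ (n + 1) 0 = γ n e * β 0)
    (hsucc : ∀ n i, i + 1 ≤ e → γ (n + 1) (i + 1) = γ n i + γ n e * β (i + 1)) {n : ℕ}
    (hn : ∀ i ≤ e, γ n i = 0) : ∀ i ≤ e, β i = 0 := by
  have h1 := dvd_companion h00 h0 hz hsucc n
  have h2 : ∑ i ∈ Finset.range (e + 1), C (γ n i) * (X : F[X]) ^ i = 0 := by
    refine Finset.sum_eq_zero fun i hi => ?_
    rw [hn i (by rw [Finset.mem_range] at hi; omega), C_0, zero_mul]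
  rw [h2, sub_zero] at h1
  set q : F[X] := X ^ (e + 1) - ∑ i ∈ Finset.range (e + 1), C (β i) * X ^ i with hq
  have hlt : (∑ i ∈ Finset.range (e + 1), C (β i) * (X : F[X]) ^ i).degree < ((e + 1 : ℕ) : WithBot ℕ) := by
    rw [degree_lt_iff_coeff_zero]
    intro m hm
    rw [finsetSum_coeff]
    refine Finset.sum_eq_zero fun i hi => ?_
    rw [coeff_C_mul_X_pow, if_neg]
    rw [Finset.mem_range] at hi
    omega
  have hmonic : q.Monic := by
    rw [hq]
    exact monic_X_pow_sub hlt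
  have hdeg : q.natDegree = e + 1 := by
    rw [hq]
    have h3 : (X ^ (e + 1) - ∑ i ∈ Finset.range (e + 1), C (β i) * (X : F[X]) ^ i).degree =
        ((e + 1 : ℕ) : WithBot ℕ) := by
      rw [degree_sub_eq_left_of_degree_lt]
      · exact degree_X_pow _
      · rw [degree_X_pow]
        exact hlt
    exact natDegree_eq_of_degree_eq_some h3
  obtain ⟨i, -, hi⟩ := (dvd_prime_pow prime_X n).1 h1
  have h4 : q = X ^ i := eq_of_monic_of_associated hmonic (monic_X_pow i) hi
  have h5 : i = e + 1 := by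
    rw [h4, natDegree_X_pow] at hdeg
    exact hdeg
  rw [h5] at h4
  intro j hj
  have h6 : (∑ i ∈ Finset.range (e + 1), C (β i) * (X : F[X]) ^ i) = 0 := by
    have : q = X ^ (e + 1) - ∑ i ∈ Finset.range (e + 1), C (β i) * X ^ i := hq
    rw [h4] at this
    have h7 : (X : F[X]) ^ (e + 1) - (X ^ (e + 1) - ∑ i ∈ Finset.range (e + 1), C (β i) * X ^ i) =
      0 := by rw [← this, sub_self]
    simpa using h7
  have h8 := congrArg (fun p => coeff p j) h6
  simp only [finsetSum_coeff, coeff_C_mul_X_pow, coeff_zero] at h8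
  rw [Finset.sum_eq_single j] at h8
  · simpa using h8
  · intro b _ hb
    rw [if_neg (Ne.symm hb)]
  · intro h
    exact absurd (Finset.mem_range.2 (by omega)) h

end companion

end Pool.Agent.N169.PC
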