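import Pool.Agent.N169.PC.Ext

/-!
# Linear independence over `L(x)`
-/

set_option autoImplicit false
set_option linter.unusedSectionVars false

open Polynomial

namespace Pool.Agent.N169.PC

section decomp

variable {k L : Type*} [Field k] [Field L] [Algebra k L]

/-- polynomials with coefficients in a finite-dimensional space -/
lemma exists_decomp {W : Submodule k L} {ι : Type*} [Fintype ι] (b : Module.Basis ι k W)
    (q : L[X]) (hq : ∀ n, q.coeff n ∈ W) :
    ∃ g : ι → k[X], q = ∑ i, C ((b i : W) : L) * (g i).map (algebraMap k L) := by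
  classical
  refine ⟨fun i => ∑ n ∈ q.support, monomial n (b.repr ⟨q.coeff n, hq n⟩ i), ?_⟩
  ext n
  rw [finsetSum_coeff]
  simp only [coeff_C_mul, coeff_map, finsetSum_coeff, coeff_monomial]
  have h2 : ∀ i, (∑ x ∈ q.support, if x = n then (b.repr ⟨q.coeff x, hq x⟩) i else 0) =
      b.repr ⟨q.coeff n, hq n⟩ i := by
    intro i
    by_cases h : n ∈ q.support
    · rw [Finset.sum_eq_single n]
      · rw [if_pos rfl]
      · intro b _ hb
        rw [if_neg hb]
      · intro h'
        exact absurd h h'
    · rw [Finset.sum_eq_zero]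
      · have h3 : (⟨q.coeff n, hq n⟩ : W) = 0 := Subtype.ext (notMem_support_iff.1 h)
        rw [h3, map_zero, Finsupp.zero_apply]
      · intro b hb
        rw [if_neg]
        rintro rfl
        exact h hb
  simp only [h2]
  have h3 := congrArg (Subtype.val) (b.sum_repr ⟨q.coeff n, hq n⟩)
  rw [AddSubmonoidClass.coe_finsetSum] at h3
  refine h3.symm.trans ?_
  refine Finset.sum_congr rfl fun i _ => ?_
  rw [Submodule.coe_smul, Algebra.smul_def, mul_comm]

end decomp

section indep

variable {k L : Type*} [Field k] [IsAlgClosed k] [CharZero k] [Field L] [Algebra k L]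
  {M : Type*} [AddCommGroup M]
  [Module (RatFunc k) M] [FiniteDimensional (RatFunc k) M] [Nontrivial M] {D : M → M}
  {V : Type*} [AddCommGroup V] [Module (RatFunc L) V] {E : V → V}
  {j : M → V}

/-- a basis of a simple differential module over `k(x)` is independent over `L(x)` -/
theorem indep (hadd : ∀ v w, D (v + w) = D v + D w) (h0 : D 0 = 0)
    (hsmul : ∀ (a : RatFunc k) v, D (a • v) = W432.PC.ddx k a • v + a • D v)
    (hsimple : ∀ U : Submodule (RatFunc k) M, (∀ u ∈ U, D u ∈ U) → U = ⊥ ∨ U = ⊤)
    (hEadd : ∀ v w, E (v + w) = E v + E w) (hE0 : E 0 = 0)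
    (hEsmul : ∀ (a : RatFunc L) v, E (a • v) = W432.PC.ddx L a • v + a • E v)
    (hjadd : ∀ v w, j (v + w) = j v + j w)
    (hjsmul : ∀ (a : RatFunc k) v, j (a • v) = ratInc k L a • j v)
    (hjinj : ∀ v, j v = 0 → v = 0) (hjE : ∀ v, j (D v) = E (j v)) {s : Type*} [Fintype s]
    (b : s → M) (hb : LinearIndependent (RatFunc k) b) :
    LinearIndependent (RatFunc L) (fun t => j (b t)) := by
  classical
  have hj0 : j 0 = 0 := by
    have h := hjadd 0 0
    rw [add_zero] at h
    exact left_eq_add.1 h
  have hjsum : ∀ (t : Finset s) (g : s → M), j (∑ i ∈ t, g i) = ∑ i ∈ t, j (g i) := by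
    intro t g
    induction t using Finset.induction_on with
    | empty => simpa using hj0
    | insert a s ha ih => rw [Finset.sum_insert ha, Finset.sum_insert ha, hjadd, ih]
  rw [Fintype.linearIndependent_iff]
  intro f hf t
  obtain ⟨h, hh⟩ := IsLocalization.exist_integer_multiples_of_finite (nonZeroDivisors L[X]) f
  choose q hq using hh
  -- the space of coefficients
  let W : Submodule k L := Submodule.span k
    (⋃ t : s, (fun n => (q t).coeff n) '' ((q t).support : Set ℕ))
  have hWfin : FiniteDimensional k W := by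
    apply FiniteDimensional.span_of_finite
    exact Set.finite_iUnion fun t => ((q t).support.finite_toSet).image _
  have hqW : ∀ t n, (q t).coeff n ∈ W := by
    intro t n
    by_cases hn : n ∈ (q t).support
    · apply Submodule.subset_span
      rw [Set.mem_iUnion]
      exact ⟨t, n, hn, rfl⟩
    · rw [notMem_support_iff.1 hn]
      exact W.zero_mem
  let c := Module.finBasis k W
  have hdec := fun t => exists_decomp c (q t) (hqW t)
  choose g hg using hdec
  have hli : LinearIndependent k (fun i => ((c i : W) : L)) :=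
    c.linearIndependent.map' W.subtype (by simp)
  have hsum : ∑ t, algebraMap L[X] (RatFunc L) (q t) • j (b t) = 0 := by
    have h1 : ∀ t, algebraMap L[X] (RatFunc L) (q t) =
        algebraMap L[X] (RatFunc L) (h : L[X]) * f t := by
      intro t
      rw [hq, Algebra.smul_def]
    simp only [h1, mul_smul]
    rw [← Finset.smul_sum, hf, smul_zero]
  have h2 : ∑ i, algebraMap L (RatFunc L) ((c i : W) : L) •
      j (∑ t, algebraMap k[X] (RatFunc k) (g t i) • b t) = 0 := by
    rw [← hsum]
    simp only [hjsum, hjsmul, Finset.smul_sum]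
    rw [Finset.sum_comm]
    refine Finset.sum_congr rfl fun t _ => ?_
    conv_rhs => rw [hg t, map_sum, Finset.sum_smul]
    refine Finset.sum_congr rfl fun i _ => ?_
    rw [smul_smul, ratInc_algebraMap, map_mul]
    rfl
  have h3 := direct hadd h0 hsmul hsimple hEadd hE0 hEsmul hjadd hjsmul hjinj hjE _ _ hli _ h2
  have h4 : ∀ i t, g t i = 0 := by
    intro i t
    have h5 := Fintype.linearIndependent_iff.1 hb _ (h3 i) t
    exact (map_eq_zero_iff _ (RatFunc.algebraMap_injective k)).1 h5
  have h5 : q t = 0 := by
    rw [hg t]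
    refine Finset.sum_eq_zero fun i _ => ?_
    rw [h4 i t, Polynomial.map_zero, mul_zero]
  have h6 := hq t
  rw [h5, map_zero, Algebra.smul_def] at h6
  rcases mul_eq_zero.1 h6.symm with h7 | h7
  · exact absurd h7 (IsFractionRing.to_map_ne_zero_of_mem_nonZeroDivisors h.2)
  · exact h7

end indep

end Pool.Agent.N169.PC
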