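import Pool.Agent.N169.PC.Hahn
import Pool.Agent.W432.PC.Points

/-!
# Integrality of the coefficients of a cyclic vector
-/

set_option autoImplicit false

open Polynomial

namespace Pool.Agent.N169.PC

variable {κ : Type*} [Field κ]

/-- all coefficients are in `B` -/
def Cf (B : Subalgebra ℤ κ) (f : HahnSeries ℚ κ) : Prop := ∀ q, f.coeff q ∈ B

theorem integral_of_div [CharZero κ] (B : Subalgebra ℤ κ) (hB : B.FG) {e : ℕ}
    {b : ℕ → HahnSeries ℚ κ} {c : ℕ → ℕ → HahnSeries ℚ κ}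
    {Δ : HahnSeries ℚ κ → HahnSeries ℚ κ} (hΔ : ∀ q f, Ge q f → Ge q (Δ f))
    (h00 : c 0 0 = 1)
    (h0 : ∀ i, i + 1 ≤ e → c 0 (i + 1) = 0) (hz : ∀ n, c (n + 1) 0 = Δ (c n 0) + c n e * b 0)
    (hsucc : ∀ n i, i + 1 ≤ e → c (n + 1) (i + 1) = Δ (c n (i + 1)) + c n i + c n e * b (i + 1))
    (hbB : ∀ i ≤ e, Cf B (b i))
    (hp : ∀ P : ℕ, ∃ p : ℕ, p.Prime ∧ P < p ∧ ∃ n, ∀ i ≤ e, ∃ y, Cf B y ∧ c n i = p • y) :
    ∀ i ≤ e, Ge 0 (b i) := by
  classical
  by_contra hcon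
  push Not at hcon
  obtain ⟨i0, hi0, hbi0⟩ := hcon
  -- the slope
  set I : Finset ℕ := (Finset.range (e + 1)).filter fun i => b i ≠ 0 with hI
  have hb0 : b i0 ≠ 0 := by
    intro h
    exact hbi0 (by rw [h]; exact ge_zero _)
  have hmem0 : i0 ∈ I := by
    rw [hI, Finset.mem_filter, Finset.mem_range]
    exact ⟨by omega, hb0⟩
  have hpos : ∀ i : ℕ, i ≤ e → (0 : ℚ) < (e : ℚ) + 1 - (i : ℚ) := by
    intro i hi
    have : (i : ℚ) ≤ e := by exact_mod_cast hi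
    linarith
  obtain ⟨i1, hi1, hmax⟩ := Finset.exists_max_image I
    (fun i => -(b i).order / ((e : ℚ) + 1 - (i : ℚ))) ⟨i0, hmem0⟩
  set s : ℚ := -(b i1).order / ((e : ℚ) + 1 - (i1 : ℚ)) with hs
  have hi1' : i1 ≤ e ∧ b i1 ≠ 0 := by
    rw [hI, Finset.mem_filter, Finset.mem_range] at hi1
    exact ⟨by omega, hi1.2⟩
  have hspos : 0 < s := by
    refine lt_of_lt_of_le ?_ (hmax i0 hmem0)
    have h1 : (b i0).order < 0 := by
      unfold Ge at hbi0
      push Not at hbi0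
      obtain ⟨j, hj, hj'⟩ := hbi0
      exact lt_of_le_of_lt (HahnSeries.order_le_of_coeff_ne_zero hj') hj
    exact div_pos (by linarith) (hpos i0 hi0)
  have hb : ∀ i : ℕ, i ≤ e → Ge (-s * ((e : ℚ) + 1 - (i : ℚ))) (b i) := by
    intro i hi j hj
    by_cases hbi : b i = 0
    · rw [hbi]
      rfl
    · apply HahnSeries.coeff_eq_zero_of_lt_order
      refine lt_of_lt_of_le hj ?_
      have h1 := hmax i (by
        rw [hI, Finset.mem_filter, Finset.mem_range]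
        exact ⟨by omega, hbi⟩)
      rw [div_le_iff₀ (hpos i hi)] at h1
      linarith
  have hβ1 : (b i1).coeff (-s * ((e : ℚ) + 1 - (i1 : ℚ))) ≠ 0 := by
    have h1 : -s * ((e : ℚ) + 1 - (i1 : ℚ)) = (b i1).order := by
      rw [hs]
      have := (hpos i1 hi1'.1).ne'
      field_simp
    rw [h1]
    exact fun h => hi1'.2 (HahnSeries.coeff_order_eq_zero.1 h)
  obtain ⟨hr1, hr2⟩ := coeff_rec hΔ hspos hb h00 h0 hz hsucc
  -- the leading coefficients
  let cc : ℕ → ℕ → κ := fun n i => (c n i).coeff (-s * ((n : ℚ) - (i : ℚ)))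
  let β : ℕ → κ := fun i => (b i).coeff (-s * ((e : ℚ) + 1 - (i : ℚ)))
  have hβB : ∀ i ≤ e, β i ∈ B := fun i hi => hbB i hi _
  have hcc00 : cc 0 0 = 1 := by
    change (c 0 0).coeff (-s * (((0 : ℕ) : ℚ) - ((0 : ℕ) : ℚ))) = 1
    rw [h00, HahnSeries.coeff_one, if_pos]
    simp
  have hcc0 : ∀ i, i + 1 ≤ e → cc 0 (i + 1) = 0 := by
    intro i hi
    change (c 0 (i + 1)).coeff _ = 0
    rw [h0 i hi]
    rfl
  have hccz : ∀ n, cc (n + 1) 0 = cc n e * β 0 := fun n => hr1 n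
  have hccs : ∀ n i, i + 1 ≤ e → cc (n + 1) (i + 1) = cc n i + cc n e * β (i + 1) :=
    fun n i hi => hr2 n i hi
  have hccB : ∀ n, ∀ i ≤ e, cc n i ∈ B := by
    intro n
    induction n with
    | zero =>
      intro i hi
      cases i with
      | zero => rw [hcc00]; exact B.one_mem
      | succ i => rw [hcc0 i hi]; exact B.zero_mem
    | succ n ih =>
      intro i hi
      cases i with
      | zero => rw [hccz]; exact B.mul_mem (ih e le_rfl) (hβB 0 (Nat.zero_le _))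
      | succ i =>
        rw [hccs n i hi]
        exact B.add_mem (ih i (by omega)) (B.mul_mem (ih e le_rfl) (hβB _ hi))
  let βB : ℕ → B := fun i => if h : β i ∈ B then ⟨β i, h⟩ else 0
  let γB : ℕ → ℕ → B := fun n i => if h : cc n i ∈ B then ⟨cc n i, h⟩ else 0
  have hβB' : ∀ i ≤ e, ((βB i : B) : κ) = β i := by
    intro i hi
    change (((if h : β i ∈ B then ⟨β i, h⟩ else 0 : B)) : κ) = β i
    rw [dif_pos (hβB i hi)]
  have hγB' : ∀ n, ∀ i ≤ e, ((γB n i : B) : κ) = cc n i := by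
    intro n i hi
    change (((if h : cc n i ∈ B then ⟨cc n i, h⟩ else 0 : B)) : κ) = cc n i
    rw [dif_pos (hccB n i hi)]
  have hft : Algebra.FiniteType ℤ B := B.fg_iff_finiteType.1 hB
  have hne : βB i1 ≠ 0 := by
    intro h
    apply hβ1
    have h1 := hβB' i1 hi1'.1
    rw [h] at h1
    exact h1.symm
  obtain ⟨P₁, hP₁⟩ := W432.PC.exists_closed_point B hne
  obtain ⟨p, hpp, hPp, n, hn⟩ := hp P₁
  obtain ⟨𝔫, h𝔫, hp𝔫, hβ𝔫⟩ := hP₁ p hpp hPp
  letI : Field (B ⧸ 𝔫) := Ideal.Quotient.field 𝔫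
  have hφ := companion_zero (F := B ⧸ 𝔫) (e := e) (β := fun i => Ideal.Quotient.mk 𝔫 (βB i))
    (γ := fun n i => Ideal.Quotient.mk 𝔫 (γB n i)) (n := n) ?_ ?_ ?_ ?_ ?_
  · exact hβ𝔫 (Ideal.Quotient.eq_zero_iff_mem.1 (hφ i1 hi1'.1))
  · have h1 : γB 0 0 = 1 := by
      apply Subtype.ext
      rw [hγB' 0 0 (Nat.zero_le _), hcc00]
      rfl
    change Ideal.Quotient.mk 𝔫 (γB 0 0) = 1
    rw [h1, map_one]
  · intro i hi
    have h1 : γB 0 (i + 1) = 0 := by
      apply Subtype.ext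
      rw [hγB' 0 (i + 1) hi, hcc0 i hi]
      rfl
    change Ideal.Quotient.mk 𝔫 (γB 0 (i + 1)) = 0
    rw [h1, map_zero]
  · intro n
    have h1 : γB (n + 1) 0 = γB n e * βB 0 := by
      apply Subtype.ext
      rw [hγB' (n + 1) 0 (Nat.zero_le _), hccz, Subalgebra.coe_mul, hγB' n e le_rfl,
        hβB' 0 (Nat.zero_le _)]
    change Ideal.Quotient.mk 𝔫 (γB (n + 1) 0) = _
    rw [h1, map_mul]
  · intro n i hi
    have h1 : γB (n + 1) (i + 1) = γB n i + γB n e * βB (i + 1) := by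
      apply Subtype.ext
      rw [hγB' (n + 1) (i + 1) hi, hccs n i hi, Subalgebra.coe_add, Subalgebra.coe_mul,
        hγB' n e le_rfl, hβB' (i + 1) hi, hγB' n i (by omega)]
    change Ideal.Quotient.mk 𝔫 (γB (n + 1) (i + 1)) = _
    rw [h1, map_add, map_mul]
  · intro i hi
    obtain ⟨y, hy, hcy⟩ := hn i hi
    have h1 : γB n i = (p : B) * ⟨y.coeff (-s * ((n : ℚ) - (i : ℚ))), hy _⟩ := by
      apply Subtype.ext
      rw [hγB' n i hi, Subalgebra.coe_mul]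
      change (c n i).coeff _ = _
      rw [hcy, HahnSeries.coeff_nsmul, Pi.smul_apply, nsmul_eq_mul]
      rfl
    change Ideal.Quotient.mk 𝔫 (γB n i) = 0
    rw [h1, map_mul, Ideal.Quotient.eq_zero_iff_mem.2 hp𝔫, zero_mul]

end Pool.Agent.N169.PC
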