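import Pool.Agent.N169.PC.Emb

/-!
# The embedding of `Frac(k[z])(x)` into Hahn series
-/

set_option autoImplicit false
set_option linter.unusedSectionVars false

open Polynomial

namespace Pool.Agent.N169.PC

section theta

variable (k : Type*) [Field k] (m : ℕ)

/-- `z_i ↦ z_i T` -/
noncomputable def theta0 : MvPolynomial (Fin m) k →ₐ[k] (MvPolynomial (Fin m) k)[X] :=
  MvPolynomial.aeval fun i => C (MvPolynomial.X i) * X

lemma theta0_monomial (s : Fin m →₀ ℕ) (a : k) :
    theta0 k m (MvPolynomial.monomial s a) = C (MvPolynomial.monomial s a) * X ^ s.degree := by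
  unfold theta0
  rw [MvPolynomial.aeval_monomial, MvPolynomial.monomial_eq (s := s) (a := a)]
  simp only [mul_pow, Finsupp.prod_mul]
  have h1 : (s.prod fun (_ : Fin m) (e : ℕ) => (X : (MvPolynomial (Fin m) k)[X]) ^ e) =
      X ^ s.degree := by
    rw [Finsupp.prod, Finset.prod_pow_eq_pow_sum]
    rfl
  rw [h1, ← mul_assoc]
  congr 1
  rw [map_mul]
  congr 1
  rw [Finsupp.prod, Finsupp.prod, map_prod]
  refine Finset.prod_congr rfl fun i _ => ?_
  rw [map_pow]

lemma theta0_coeff (w : MvPolynomial (Fin m) k) (d : ℕ) :
    (theta0 k m w).coeff d = MvPolynomial.homogeneousComponent d w := by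
  classical
  induction w using MvPolynomial.induction_on' with
  | monomial s a =>
    rw [theta0_monomial, coeff_C_mul, coeff_X_pow,
      MvPolynomial.homogeneousComponent_of_mem
        ((MvPolynomial.mem_homogeneousSubmodule _ _).2 (MvPolynomial.isHomogeneous_monomial a rfl))]
    split_ifs <;> simp
  | add p q hp hq => rw [map_add, coeff_add, hp, hq, map_add]

variable (F : Type*) [Field F] [Algebra (MvPolynomial (Fin m) k) F]
  [IsFractionRing (MvPolynomial (Fin m) k) F]

/-- the inclusion `k[z][x] → k(z)(x)` -/
noncomputable def incl : (MvPolynomial (Fin m) k)[X] →+* RatFunc F :=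
  (algebraMap F[X] (RatFunc F)).comp
    (mapRingHom (algebraMap (MvPolynomial (Fin m) k) F))

lemma incl_injective : Function.Injective (incl k m F) := by
  unfold incl
  rw [RingHom.coe_comp]
  exact (RatFunc.algebraMap_injective _).comp
    (map_injective _ (IsFractionRing.injective (MvPolynomial (Fin m) k) F))

omit [IsFractionRing (MvPolynomial (Fin m) k) F] in
lemma incl_monomial (n : ℕ) (w : MvPolynomial (Fin m) k) :
    incl k m F (monomial n w) =
      algebraMap F (RatFunc F) (algebraMap (MvPolynomial (Fin m) k) F w) *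
      RatFunc.X ^ n := by
  unfold incl
  rw [RingHom.comp_apply, coe_mapRingHom, map_monomial, ← C_mul_X_pow_eq_monomial, map_mul,
    map_pow, RatFunc.algebraMap_X]
  rfl

/-- `k[z][x] → k(z)(x)[T]` -/
noncomputable def thetaP : (MvPolynomial (Fin m) k)[X] →+* (RatFunc F)[X] :=
  eval₂RingHom ((mapRingHom ((algebraMap F (RatFunc F)).comp
    (algebraMap (MvPolynomial (Fin m) k) F))).comp (theta0 k m).toRingHom)
    (C (RatFunc.X : RatFunc F))

/-- the homogeneous components of the coefficients -/
noncomputable def homP (d : ℕ) (w : (MvPolynomial (Fin m) k)[X]) : (MvPolynomial (Fin m) k)[X] :=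
  ∑ n ∈ w.support, monomial n (MvPolynomial.homogeneousComponent d (w.coeff n))

lemma homP_coeff (d : ℕ) (w : (MvPolynomial (Fin m) k)[X]) (n : ℕ) :
    (homP k m d w).coeff n = MvPolynomial.homogeneousComponent d (w.coeff n) := by
  classical
  unfold homP
  rw [finsetSum_coeff]
  simp only [coeff_monomial]
  by_cases h : n ∈ w.support
  · rw [Finset.sum_eq_single n]
    · rw [if_pos rfl]
    · intro b _ hb
      rw [if_neg hb]
    · intro h'
      exact absurd h h'
  · rw [Finset.sum_eq_zero]
    · rw [notMem_support_iff.1 h, map_zero]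
    · intro b hb
      rw [if_neg]
      rintro rfl
      exact h hb

lemma thetaP_coeff (w : (MvPolynomial (Fin m) k)[X]) (d : ℕ) :
    (thetaP k m F w).coeff d = incl k m F (homP k m d w) := by
  have h1 : thetaP k m F w = ∑ n ∈ w.support,
      ((theta0 k m (w.coeff n)).map ((algebraMap F (RatFunc F)).comp
        (algebraMap (MvPolynomial (Fin m) k) F))) * C (RatFunc.X ^ n) := by
    unfold thetaP
    rw [coe_eval₂RingHom, eval₂_eq_sum, Polynomial.sum]
    refine Finset.sum_congr rfl fun n _ => ?_
    rw [C_pow]
    rfl
  rw [h1, finsetSum_coeff, homP, map_sum]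
  refine Finset.sum_congr rfl fun n _ => ?_
  rw [coeff_mul_C, coeff_map, theta0_coeff, incl_monomial, RingHom.comp_apply]

/-- `k[z][x] → ` Hahn series, `z_i` having order `-1` -/
noncomputable def theta : (MvPolynomial (Fin m) k)[X] →+* HahnSeries ℚ (RatFunc F) :=
  (ofPoly (RatFunc F)).comp (thetaP k m F)

lemma theta_coeff (w : (MvPolynomial (Fin m) k)[X]) (d : ℕ) :
    (theta k m F w).coeff (-(d : ℚ)) = incl k m F (homP k m d w) := by
  unfold theta
  rw [RingHom.comp_apply, ofPoly_coeff_neg, thetaP_coeff]

lemma totalDegree_le_of_ge {w : (MvPolynomial (Fin m) k)[X]} {c : ℕ}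
    (h : Ge (-(c : ℚ)) (theta k m F w)) (n : ℕ) : (w.coeff n).totalDegree ≤ c := by
  by_contra hcon
  push Not at hcon
  have h1 := h (-((w.coeff n).totalDegree : ℚ)) (by
    have : (c : ℚ) < ((w.coeff n).totalDegree : ℚ) := by exact_mod_cast hcon
    linarith)
  rw [theta_coeff] at h1
  have h2 : homP k m (w.coeff n).totalDegree w = 0 := by
    apply incl_injective k m F
    rw [h1, map_zero]
  have h3 := homP_coeff k m (w.coeff n).totalDegree w n
  rw [h2, coeff_zero] at h3
  -- a monomial of maximal degree
  have h4 : w.coeff n ≠ 0 := by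
    intro h5
    rw [h5, MvPolynomial.totalDegree_zero] at hcon
    omega
  have h5 : ∃ s ∈ (w.coeff n).support, s.degree = (w.coeff n).totalDegree := by
    have h6 : (w.coeff n).support.Nonempty := MvPolynomial.support_nonempty.2 h4
    obtain ⟨s, hs, hs'⟩ := Finset.exists_mem_eq_sup (w.coeff n).support h6
      (fun s => s.sum fun _ e => e)
    exact ⟨s, hs, hs'.symm⟩
  obtain ⟨s, hs, hs'⟩ := h5
  have h6 := congrArg (MvPolynomial.coeff s) h3
  rw [MvPolynomial.coeff_homogeneousComponent, if_pos hs', MvPolynomial.coeff_zero] at h6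
  exact (MvPolynomial.mem_support_iff.1 hs) h6.symm

lemma theta_injective : Function.Injective (theta k m F) := by
  rw [injective_iff_map_eq_zero]
  intro w hw
  ext n : 1
  rw [coeff_zero]
  have h1 : ∀ d, MvPolynomial.homogeneousComponent d (w.coeff n) = 0 := by
    intro d
    have h2 := theta_coeff k m F w d
    rw [hw, HahnSeries.coeff_zero] at h2
    have h3 : homP k m d w = 0 := by
      apply incl_injective k m F
      rw [← h2, map_zero]
    rw [← homP_coeff, h3, coeff_zero]
  rw [← MvPolynomial.sum_homogeneousComponent (w.coeff n)]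
  exact Finset.sum_eq_zero fun d _ => h1 d

end theta

section iota

variable (k : Type*) [Field k] (m : ℕ) (F : Type*) [Field F] [Algebra (MvPolynomial (Fin m) k) F]
  [IsFractionRing (MvPolynomial (Fin m) k) F]

lemma thetaC_injective : Function.Injective ((theta k m F).comp C) := by
  rw [RingHom.coe_comp]
  exact (theta_injective k m F).comp C_injective

/-- `k(z) → ` Hahn series -/
noncomputable def iota0 : F →+* HahnSeries ℚ (RatFunc F) :=
  IsFractionRing.lift (thetaC_injective k m F)

lemma iota0_algebraMap (w : MvPolynomial (Fin m) k) :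
    iota0 k m F (algebraMap (MvPolynomial (Fin m) k) F w) = theta k m F (C w) := by
  unfold iota0
  rw [IsFractionRing.lift_algebraMap]
  rfl

/-- `k(z)[x] → ` Hahn series -/
noncomputable def iotaP : F[X] →+* HahnSeries ℚ (RatFunc F) :=
  eval₂RingHom (iota0 k m F) (HahnSeries.C (RatFunc.X : RatFunc F))

omit [IsFractionRing (MvPolynomial (Fin m) k) F] in
lemma theta_X : theta k m F X = HahnSeries.C (RatFunc.X : RatFunc F) := by
  unfold theta thetaP
  rw [RingHom.comp_apply, coe_eval₂RingHom, eval₂_X]
  unfold ofPoly
  rw [coe_eval₂RingHom, eval₂_C]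

omit [IsFractionRing (MvPolynomial (Fin m) k) F] in
lemma theta_C (w : MvPolynomial (Fin m) k) : theta k m F (C w) =
    ofPoly (RatFunc F) (((theta0 k m) w).map ((algebraMap F (RatFunc F)).comp
      (algebraMap (MvPolynomial (Fin m) k) F))) := by
  unfold theta thetaP
  rw [RingHom.comp_apply, coe_eval₂RingHom, eval₂_C]
  rfl

lemma theta_C_C (c : k) : theta k m F (C (MvPolynomial.C c)) =
    HahnSeries.C (algebraMap F (RatFunc F)
      (algebraMap (MvPolynomial (Fin m) k) F (MvPolynomial.C c))) := by
  rw [theta_C, ← MvPolynomial.algebraMap_eq, AlgHom.commutes]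
  change ofPoly _ (map _ (C (MvPolynomial.C c))) = _
  rw [map_C]
  unfold ofPoly
  rw [coe_eval₂RingHom, eval₂_C]
  rfl

lemma theta_C_X (i : Fin m) : theta k m F (C (MvPolynomial.X i)) =
    HahnSeries.single (-1 : ℚ) (algebraMap F (RatFunc F)
      (algebraMap (MvPolynomial (Fin m) k) F (MvPolynomial.X i))) := by
  rw [theta_C]
  unfold theta0
  rw [MvPolynomial.aeval_X, Polynomial.map_mul, map_C, map_X]
  unfold ofPoly
  rw [coe_eval₂RingHom, eval₂_mul, eval₂_C, eval₂_X, HahnSeries.C_apply,
    HahnSeries.single_mul_single, mul_one, zero_add]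
  rfl

lemma iotaP_map (w : (MvPolynomial (Fin m) k)[X]) :
    iotaP k m F (w.map (algebraMap (MvPolynomial (Fin m) k) F)) = theta k m F w := by
  have h : (iotaP k m F).comp (mapRingHom (algebraMap (MvPolynomial (Fin m) k) F)) =
      theta k m F := by
    apply Polynomial.ringHom_ext
    · intro a
      rw [RingHom.comp_apply, coe_mapRingHom, map_C]
      unfold iotaP
      rw [coe_eval₂RingHom, eval₂_C, iota0_algebraMap]
    · rw [RingHom.comp_apply, coe_mapRingHom, map_X]
      unfold iotaP
      rw [coe_eval₂RingHom, eval₂_X, theta_X]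
  exact RingHom.congr_fun h w

lemma iotaP_injective : Function.Injective (iotaP k m F) := by
  rw [injective_iff_map_eq_zero]
  intro q hq
  obtain ⟨b, hb, hb'⟩ := IsLocalization.integerNormalization_spec
    (nonZeroDivisors (MvPolynomial (Fin m) k)) q
  have h1 : theta k m F (IsLocalization.integerNormalization
      (nonZeroDivisors (MvPolynomial (Fin m) k)) q) = 0 := by
    rw [← iotaP_map, hb']
    have h2 : b • q = C (algebraMap _ F b) * q := by
      rw [← smul_eq_C_mul, algebraMap_smul]
    rw [h2, map_mul, hq, mul_zero]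
  have h2 := theta_injective k m F (h1.trans (map_zero _).symm)
  exact (IsLocalization.integerNormalization_eq_zero_iff le_rfl q).1 h2

lemma iota_aux : (nonZeroDivisors F[X]) ≤
    (nonZeroDivisors (HahnSeries ℚ (RatFunc F))).comap (iotaP k m F) :=
  nonZeroDivisors_le_comap_nonZeroDivisors_of_injective _ (iotaP_injective k m F)

/-- the embedding of `k(z)(x)` into Hahn series -/
noncomputable def iota : RatFunc F →+* HahnSeries ℚ (RatFunc F) :=
  RatFunc.liftRingHom (iotaP k m F) (iota_aux k m F)

lemma iota_algebraMap (q : F[X]) :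
    iota k m F (algebraMap F[X] (RatFunc F) q) = iotaP k m F q := by
  unfold iota
  exact RatFunc.liftRingHom_algebraMap _ _ _

lemma iota_incl (w : (MvPolynomial (Fin m) k)[X]) : iota k m F (incl k m F w) = theta k m F w := by
  unfold incl
  rw [RingHom.comp_apply, iota_algebraMap, coe_mapRingHom, iotaP_map]

/-- a subfield which contains `k`, the variables and `x` is everything -/
lemma subfield_eq_top (S : Subfield (RatFunc F))
    (hc : ∀ c : k, incl k m F (C (MvPolynomial.C c)) ∈ S)
    (hz : ∀ i, incl k m F (C (MvPolynomial.X i)) ∈ S) (hx : incl k m F X ∈ S)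
    (f : RatFunc F) : f ∈ S := by
  have h1 : ∀ w : MvPolynomial (Fin m) k, incl k m F (C w) ∈ S := by
    intro w
    induction w using MvPolynomial.induction_on with
    | C a => exact hc a
    | add p q hp hq => rw [C_add, map_add]; exact S.add_mem hp hq
    | mul_X p i hp => rw [C_mul, map_mul]; exact S.mul_mem hp (hz i)
  have h2 : ∀ w : F, algebraMap F[X] (RatFunc F) (C w) ∈ S := by
    intro w
    obtain ⟨a, b, hb, rfl⟩ := IsFractionRing.div_surjective (A := MvPolynomial (Fin m) k) w
    have h3 : ∀ a : MvPolynomial (Fin m) k, algebraMap F[X] (RatFunc F)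
        (C (algebraMap _ F a)) = incl k m F (C a) := by
      intro a
      unfold incl
      rw [RingHom.comp_apply, coe_mapRingHom, map_C]
    have h4 : algebraMap F[X] (RatFunc F) (C ((algebraMap _ F a) /
        (algebraMap _ F b))) = incl k m F (C a) / incl k m F (C b) := by
      rw [← h3, ← h3, RatFunc.algebraMap_C, RatFunc.algebraMap_C, RatFunc.algebraMap_C, map_div₀]
    rw [h4]
    exact S.div_mem (h1 a) (h1 b)
  have h3 : algebraMap F[X] (RatFunc F) X ∈ S := by
    have : incl k m F X = algebraMap F[X] (RatFunc F) X := by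
      unfold incl
      rw [RingHom.comp_apply, coe_mapRingHom, map_X]
    rw [← this]
    exact hx
  have h4 : ∀ q : F[X], algebraMap F[X] (RatFunc F) q ∈ S := by
    intro q
    induction q using Polynomial.induction_on' with
    | add p q hp hq => rw [map_add]; exact S.add_mem hp hq
    | monomial n a =>
      rw [← C_mul_X_pow_eq_monomial, map_mul, map_pow]
      exact S.mul_mem (h2 a) (S.pow_mem h3 n)
  rw [← RatFunc.num_div_denom f]
  exact S.div_mem (h4 _) (h4 _)

lemma fgC_iota (f : RatFunc F) : FgC (iota k m F f) := by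
  have h := subfield_eq_top k m F ((fgSubfield (RatFunc F)).comap (iota k m F)) ?_ ?_ ?_ f
  · exact h
  · intro c
    rw [Subfield.mem_comap, iota_incl]
    exact fgC_ofPoly _
  · intro i
    rw [Subfield.mem_comap, iota_incl]
    exact fgC_ofPoly _
  · rw [Subfield.mem_comap, iota_incl]
    exact fgC_ofPoly _

lemma cder_iota (f : RatFunc F) :
    cder (W432.PC.ddx F) (iota k m F f) = iota k m F (W432.PC.ddx F f) := by
  let S : Subfield (RatFunc F) :=
    { carrier := {f | cder (W432.PC.ddx F) (iota k m F f) =
        iota k m F (W432.PC.ddx F f)}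
      mul_mem' := by
        intro f g hf hg
        simp only [Set.mem_ofPred_eq] at hf hg ⊢
        rw [map_mul, cder_mul, hf, hg, Derivation.leibniz, map_add, smul_eq_mul, smul_eq_mul,
          map_mul, map_mul]
      one_mem' := by
        simp only [Set.mem_ofPred_eq]
        rw [map_one, cder_one, Derivation.map_one_eq_zero, map_zero]
      add_mem' := by
        intro f g hf hg
        simp only [Set.mem_ofPred_eq] at hf hg ⊢
        rw [map_add, cder_add, hf, hg, map_add, map_add]
      zero_mem' := by
        simp only [Set.mem_ofPred_eq]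
        rw [map_zero, cder_zero, map_zero, map_zero]
      neg_mem' := by
        intro f hf
        simp only [Set.mem_ofPred_eq] at hf ⊢
        rw [map_neg, cder_neg, hf, map_neg, map_neg]
      inv_mem' := by
        intro f hf
        simp only [Set.mem_ofPred_eq] at hf ⊢
        by_cases h0 : f = 0
        · rw [h0, inv_zero, map_zero, cder_zero, map_zero, map_zero]
        · rw [map_inv₀, cder_inv _ ((_root_.map_ne_zero _).2 h0), hf, Derivation.leibniz_inv]
          simp only [smul_eq_mul, map_mul, map_neg, map_pow, map_inv₀]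
          ring }
  have h := subfield_eq_top k m F S ?_ ?_ ?_ f
  · exact h
  · intro c
    change cder _ (iota k m F _) = iota k m F _
    rw [iota_incl, theta_C_C, cder_C]
    have h1 : incl k m F (C (MvPolynomial.C c)) = algebraMap F (RatFunc F)
      (algebraMap (MvPolynomial (Fin m) k) F (MvPolynomial.C c)) := by
      unfold incl
      rw [RingHom.comp_apply, coe_mapRingHom, map_C]
      rfl
    rw [h1, Derivation.map_algebraMap, map_zero, map_zero]
  · intro i
    change cder _ (iota k m F _) = iota k m F _
    rw [iota_incl, theta_C_X, cder_single]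
    have h1 : incl k m F (C (MvPolynomial.X i)) = algebraMap F (RatFunc F)
      (algebraMap (MvPolynomial (Fin m) k) F (MvPolynomial.X i)) := by
      unfold incl
      rw [RingHom.comp_apply, coe_mapRingHom, map_C]
      rfl
    rw [h1, Derivation.map_algebraMap, map_zero, map_zero]
  · change cder _ (iota k m F _) = iota k m F _
    rw [iota_incl, theta_X, cder_C, W432.PC.ddx_X, map_one]
    have h1 : incl k m F X = RatFunc.X := by
      unfold incl
      rw [RingHom.comp_apply, coe_mapRingHom, map_X, RatFunc.algebraMap_X]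
    rw [h1, W432.PC.ddx_X, map_one]

end iota

end Pool.Agent.N169.PC
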