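import Pool.Agent.N169.PC.Gen

/-!
# Irreducible connections generated by a finite-dimensional stable subspace
-/

set_option autoImplicit false
set_option linter.unusedSectionVars false

open Polynomial

namespace Pool.Agent.N169.PC

section irr

variable {k L : Type*} [Field k] [Field L] [Algebra k L] {r : ℕ}

lemma finrank_VV_aux : Module.finrank (RatFunc L) (Fin r → RatFunc L) = r := by
  rw [Module.finrank_fin_fun]

lemma finrank_VV : Module.finrank (RatFunc L) (VV k L r) = r := finrank_VV_aux

end irr

end Pool.Agent.N169.PC
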