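import Pool.Agent.N169.PC.Factor2
import Pool.Agent.N169.PC.Finite
import Pool.Agent.N169.PC.Arith

/-!
# The stable subspace generated by the standard basis is finite-dimensional
-/

set_option autoImplicit false
set_option linter.unusedSectionVars false

open Polynomial

namespace Pool.Agent.N169.PC

section coefficients

variable {k L : Type*} [Field k] [CharZero k] [Field L] [Algebra k L] {R : Type*} [CommRing R]
  [Algebra.FiniteType ℤ R] {r : ℕ}

/-- the coefficients of the iterates are in a finite-dimensional space over `k` -/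
theorem coeffs_finite (φ : R →+* L) (D : R[X]) (hD : D.Monic)
    (Dk : k[X]) (hDk : Dk.map (algebraMap k L) = D.map φ) (N : Matrix (Fin r) (Fin r) R[X])
    (a : R) (ha : φ a ≠ 0)
    (h : ∀ P₀ : ℕ, ∃ p : ℕ, p.Prime ∧ P₀ < p ∧ ∀ (𝔪 : Ideal R) [𝔪.IsMaximal],
      (p : R) ∈ 𝔪 → a ∉ 𝔪 → NilpotentAt D N 𝔪) (q : Fin r → R[X]) :
    ∃ W : Submodule k L, FiniteDimensional k W ∧
      ∀ n l j, ((opQ D N 0 q n l).map φ).coeff j ∈ W := by
  classical
  obtain ⟨G, hG⟩ := (Algebra.FiniteType.out : (⊤ : Subalgebra ℤ R).FG)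
  let A : Subalgebra k L := Algebra.adjoin k ((G.image φ : Finset L) : Set L)
  have hAft : Algebra.FiniteType k A := (Subalgebra.fg_iff_finiteType A).1 ⟨_, rfl⟩
  have hmem : ∀ x : R, φ x ∈ A := by
    intro x
    have hx : x ∈ Algebra.adjoin ℤ (G : Set R) := by rw [hG]; exact Algebra.mem_top
    induction hx using Algebra.adjoin_induction with
    | mem y hy =>
      apply Algebra.subset_adjoin
      rw [Finset.mem_coe]
      exact Finset.mem_image.2 ⟨y, hy, rfl⟩
    | algebraMap n =>
      have h1 : φ (algebraMap ℤ R n) = (n : L) := by simp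
      rw [h1]
      exact intCast_mem A n
    | add y z _ _ hy hz => rw [map_add]; exact A.add_mem hy hz
    | mul y z _ _ hy hz => rw [map_mul]; exact A.mul_mem hy hz
  let φA : R →+* A := φ.codRestrict A hmem
  have hval : (A.val : A →+* L).comp φA = φ := RingHom.ext fun x => rfl
  have hvalinj : Function.Injective (A.val : A →+* L) := Subtype.val_injective
  have hDk0 : Dk ≠ 0 := by
    rintro rfl
    rw [Polynomial.map_zero] at hDk
    exact (hD.map φ).ne_zero hDk.symm
  have hDA : Dk.map (algebraMap k A) = D.map φA := by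
    apply Polynomial.map_injective _ hvalinj
    rw [Polynomial.map_map, Polynomial.map_map, hval, ← hDk]
    rfl
  obtain ⟨W, hW, hWQ⟩ := finite_span (k := k) (A := A) Dk hDk0 (N.map (Polynomial.map φA))
    (fun n l => (opQ D N 0 q n l).map φA) (by
      intro n i
      rw [opQ_succ, hDA]
      simp only [Polynomial.map_sub, Polynomial.map_mul, Polynomial.map_natCast, ← derivative_map,
        Polynomial.map_sum, Matrix.map_apply, zero_add]) φA a (by
      intro h0
      apply ha
      rw [← hval, RingHom.comp_apply, h0, map_zero]) (by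
      intro P
      obtain ⟨p, hp, hPp, hnil⟩ := h P
      obtain ⟨n, t, hdiv⟩ := exists_div D N hD a hp hnil q
      refine ⟨p, hp, hPp, n, t, fun l => ?_⟩
      obtain ⟨q', hq'⟩ := hdiv l
      refine ⟨q', ?_⟩
      have h1 := congrArg (Polynomial.map φA) hq'
      rw [Polynomial.map_mul, Polynomial.map_mul, Polynomial.map_pow, map_C,
        Polynomial.map_natCast] at h1
      exact h1)
  refine ⟨W.map A.val.toLinearMap, inferInstance, fun n l j => ?_⟩
  refine ⟨_, hWQ n l j, ?_⟩
  rw [coeff_map, coeff_map]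
  rfl

end coefficients

section main

variable {k L : Type*} [Field k] [CharZero k] [Field L] [Algebra k L] {R : Type*} [CommRing R]
  [Algebra.FiniteType ℤ R] {r : ℕ}

/-- a vector, in `VV` -/
def ofFun (k : Type*) [Field k] [Algebra k L] (v : Fin r → RatFunc L) : VV k L r := v

/-- the subspace over `k(x)` generated by the iterates of the standard basis -/
noncomputable def genSub (k : Type*) [Field k] [Algebra k L]
    (A : Matrix (Fin r) (Fin r) (RatFunc L)) :
    Submodule (RatFunc k) (VV k L r) :=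
  Submodule.span (RatFunc k) {v | ∃ (i : Fin r) (n : ℕ),
    v = (connV A)^[n] (ofFun k (Pi.single i 1))}

lemma genSub_stable (A : Matrix (Fin r) (Fin r) (RatFunc L)) :
    ∀ v ∈ genSub k A, connV A v ∈ genSub k A := by
  intro v hv
  unfold genSub at hv
  induction hv using Submodule.span_induction with
  | mem x hx =>
    obtain ⟨i, n, rfl⟩ := hx
    apply Submodule.subset_span
    refine ⟨i, n + 1, ?_⟩
    rw [Function.iterate_succ_apply']
  | zero => rw [connV_zero]; exact Submodule.zero_mem _
  | add x y _ _ hx hy => rw [connV_add]; exact Submodule.add_mem _ hx hy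
  | smul a x hx' hx =>
    rw [connV_smul]
    exact Submodule.add_mem _ (Submodule.smul_mem _ _ hx') (Submodule.smul_mem _ _ hx)

lemma ofFun_mem_genSub (A : Matrix (Fin r) (Fin r) (RatFunc L)) (i : Fin r) :
    ofFun k (Pi.single i 1) ∈ genSub k A := Submodule.subset_span ⟨i, 0, rfl⟩

lemma VV_eq_sum (v : Fin r → RatFunc L) :
    ofFun k v = ∑ l, (v l) • ofFun k (Pi.single l 1) := by
  classical
  funext i
  rw [VV_sum_apply]
  change v i = ∑ l, v l * (Pi.single l 1 : Fin r → RatFunc L) i
  rw [Finset.sum_eq_single i]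
  · rw [Pi.single_eq_same, mul_one]
  · intro l _ hl
    rw [Pi.single_eq_of_ne (Ne.symm hl), mul_zero]
  · intro h
    exact absurd (Finset.mem_univ i) h

lemma span_genSub (A : Matrix (Fin r) (Fin r) (RatFunc L)) :
    Submodule.span (RatFunc L) (genSub k A : Set (VV k L r)) = ⊤ := by
  have h : ∀ v : Fin r → RatFunc L,
      ofFun k v ∈ Submodule.span (RatFunc L) (genSub k A : Set (VV k L r)) := by
    intro v
    rw [VV_eq_sum]
    exact Submodule.sum_mem _ fun l _ => Submodule.smul_mem _ _
      (Submodule.subset_span (ofFun_mem_genSub A l))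
  rw [eq_top_iff]
  intro v _
  exact h v

theorem genSub_finite (φ : R →+* L) (D : R[X]) (hD : D.Monic)
    (Dk : k[X]) (hDk : Dk.map (algebraMap k L) = D.map φ) (N : Matrix (Fin r) (Fin r) R[X])
    (a : R) (ha : φ a ≠ 0)
    (h : ∀ P₀ : ℕ, ∃ p : ℕ, p.Prime ∧ P₀ < p ∧ ∀ (𝔪 : Ideal R) [𝔪.IsMaximal],
      (p : R) ∈ 𝔪 → a ∉ 𝔪 → NilpotentAt D N 𝔪) :
    FiniteDimensional (RatFunc k)
      (genSub k (ratMat (D.map φ) (N.map (Polynomial.map φ)))) := by
  classical
  have hex := fun i : Fin r => coeffs_finite φ D hD Dk hDk N a ha h (Pi.single i 1)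
  choose W hWfin hW using hex
  let c := fun i => Module.finBasis k (W i)
  have hDL : D.map φ ≠ 0 := (hD.map φ).ne_zero
  let S : Set (VV k L r) := ⋃ i : Fin r, Set.range fun x : Fin (Module.finrank k (W i)) × Fin r =>
    (algebraMap L (RatFunc L) ((c i x.1 : W i) : L)) • ofFun k (Pi.single x.2 1)
  have hSfin : S.Finite := Set.finite_iUnion fun i => Set.finite_range _
  have hfd : FiniteDimensional (RatFunc k) (Submodule.span (RatFunc k) S) :=
    FiniteDimensional.span_of_finite _ hSfin
  have hle : genSub k (ratMat (D.map φ) (N.map (Polynomial.map φ))) ≤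
      Submodule.span (RatFunc k) S := by
    unfold genSub
    rw [Submodule.span_le]
    rintro v ⟨i, n, rfl⟩
    have h0 : (Pi.single i 1 : Fin r → RatFunc L) = fun l => algebraMap L[X] (RatFunc L)
        (((Pi.single i 1 : Fin r → R[X]) l).map φ) / algebraMap L[X] (RatFunc L) (D.map φ) ^ 0 := by
      funext l
      rw [pow_zero, div_one]
      by_cases hl : l = i
      · subst hl
        rw [Pi.single_eq_same, Pi.single_eq_same, Polynomial.map_one, map_one]
      · rw [Pi.single_eq_of_ne hl, Pi.single_eq_of_ne hl, Polynomial.map_zero, map_zero]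
    have h1 : (connV (ratMat (D.map φ) (N.map (Polynomial.map φ))))^[n]
        (ofFun k (Pi.single i 1)) = ofFun k (fun l => algebraMap L[X] (RatFunc L)
        ((opQ D N 0 (Pi.single i 1) n l).map φ) /
          algebraMap L[X] (RatFunc L) (D.map φ) ^ n) := by
      have h2 := conn_iterate_div (D.map φ) (N.map (Polynomial.map φ)) hDL 0
        (fun l => ((Pi.single i 1 : Fin r → R[X]) l).map φ) n
      rw [← h0] at h2
      refine Eq.trans h2 ?_
      funext l
      rw [← opQ_map, zero_add]
      rfl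
    rw [h1, SetLike.mem_coe, VV_eq_sum]
    refine Submodule.sum_mem _ fun l _ => ?_
    obtain ⟨g, hg⟩ := exists_decomp (c i) ((opQ D N 0 (Pi.single i 1) n l).map φ) (hW i n l)
    have h4 : algebraMap L[X] (RatFunc L) ((opQ D N 0 (Pi.single i 1) n l).map φ) /
      algebraMap L[X] (RatFunc L) (D.map φ) ^ n =
        ∑ x, ratInc k L (algebraMap k[X] (RatFunc k) (g x) /
          algebraMap k[X] (RatFunc k) Dk ^ n) * algebraMap L (RatFunc L) ((c i x : W i) : L) := by
      rw [hg, map_sum, Finset.sum_div]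
      refine Finset.sum_congr rfl fun x _ => ?_
      rw [map_div₀, map_pow, ratInc_algebraMap, ratInc_algebraMap, hDk, map_mul]
      have h5 : algebraMap L[X] (RatFunc L) (C ((c i x : W i) : L)) =
        algebraMap L (RatFunc L) ((c i x : W i) : L) := rfl
      rw [h5]
      ring
    rw [h4, Finset.sum_smul]
    refine Submodule.sum_mem _ fun x _ => ?_
    rw [mul_smul, ← VV_smul]
    refine Submodule.smul_mem _ _ (Submodule.subset_span ?_)
    rw [Set.mem_iUnion]
    exact ⟨i, (x, l), rfl⟩
  exact Submodule.finiteDimensional_of_le hle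

/-- If the `p`-curvatures are nilpotent at all closed points of an open subset over infinitely many
primes, the connection is a quotient of a connection over `k(x)`. -/
theorem quotientOver (φ : R →+* L) (D : R[X]) (hD : D.Monic)
    (hDk : ∀ n, φ (D.coeff n) ∈ Set.range (algebraMap k L)) (N : Matrix (Fin r) (Fin r) R[X])
    (a : R) (ha : φ a ≠ 0)
    (h : ∀ P₀ : ℕ, ∃ p : ℕ, p.Prime ∧ P₀ < p ∧ ∀ (𝔪 : Ideal R) [𝔪.IsMaximal],
      (p : R) ∈ 𝔪 → a ∉ 𝔪 → NilpotentAt D N 𝔪) :
    QuotientOver k (ratMat (D.map φ) (N.map (Polynomial.map φ))) := by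
  have h1 : D.map φ ∈ lifts (algebraMap k L) := by
    rw [lifts_iff_coeff_lifts]
    intro n
    rw [coeff_map]
    exact hDk n
  rw [mem_lifts] at h1
  obtain ⟨Dk, hDk'⟩ := h1
  have hfin := genSub_finite φ D hD Dk hDk' N a ha h
  exact quotientOver_of_submodule _ _ (genSub_stable _) (span_genSub _)

/-- Under the same assumptions all the simple subquotients are defined over `k(x)`, if `k` is
algebraically closed. -/
theorem definedOver [IsAlgClosed k] (φ : R →+* L) (D : R[X]) (hD : D.Monic)
    (hDk : ∀ n, φ (D.coeff n) ∈ Set.range (algebraMap k L)) (N : Matrix (Fin r) (Fin r) R[X])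
    (a : R) (ha : φ a ≠ 0)
    (h : ∀ P₀ : ℕ, ∃ p : ℕ, p.Prime ∧ P₀ < p ∧ ∀ (𝔪 : Ideal R) [𝔪.IsMaximal],
      (p : R) ∈ 𝔪 → a ∉ 𝔪 → NilpotentAt D N 𝔪)
    (E₁ E₂ : Submodule (RatFunc L) (Fin r → RatFunc L))
    (hE : SimpleSubquotient (ratMat (D.map φ) (N.map (Polynomial.map φ))) E₁ E₂) :
    DefinedOver k (ratMat (D.map φ) (N.map (Polynomial.map φ))) E₁ E₂ := by
  have h1 : D.map φ ∈ lifts (algebraMap k L) := by
    rw [lifts_iff_coeff_lifts]
    intro n
    rw [coeff_map]
    exact hDk n
  rw [mem_lifts] at h1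
  obtain ⟨Dk, hDk'⟩ := h1
  have hfin := genSub_finite φ D hD Dk hDk' N a ha h
  obtain ⟨hE1, hE2, hlt, hs⟩ := hE
  exact factor_aux (k := k) _ _ (genSub_stable _) (span_genSub _) E₁ E₂ hE1 hE2 hlt hs

end main

end Pool.Agent.N169.PC
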