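import Pool.Agent.N169.PC.Conn

/-!
# The `p`-curvature is linear
-/

set_option autoImplicit false
set_option linter.unusedSectionVars false

open Polynomial TensorProduct

namespace Pool.Agent.N169.PC

section tensor

variable {K 𝒦 V : Type*} [Field K] [Field 𝒦] [Algebra K 𝒦] [AddCommGroup V] [Module K V]
  [Module 𝒦 V] [IsScalarTower K 𝒦 V] (d : Derivation K 𝒦 𝒦) (T : V →ₗ[K] V)

theorem pow_leibniz (hT : ∀ (a : 𝒦) v, T (a • v) = d a • v + a • T v) (p : ℕ) (hp : p.Prime)
    [CharP K p] (a : 𝒦) (v : V) :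
    (T ^ p) (a • v) = ((d : 𝒦 →ₗ[K] 𝒦) ^ p) a • v + a • (T ^ p) v := by
  let μ : 𝒦 ⊗[K] V →ₗ[K] V := TensorProduct.lift (Algebra.lsmul K K V : 𝒦 →ₐ[K] Module.End K V).toLinearMap
  have hμ : ∀ a v, μ (a ⊗ₜ v) = a • v := fun a v => rfl
  set f : Module.End K (𝒦 ⊗[K] V) := LinearMap.rTensor V (d : 𝒦 →ₗ[K] 𝒦) with hf
  set g : Module.End K (𝒦 ⊗[K] V) := LinearMap.lTensor 𝒦 T with hg
  have hcomm : Commute f g := by
    change f * g = g * f
    rw [Module.End.mul_eq_comp, Module.End.mul_eq_comp, hf, hg, LinearMap.rTensor_comp_lTensor,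
      LinearMap.lTensor_comp_rTensor]
  have hp0 : ((p : ℕ) : Module.End K (𝒦 ⊗[K] V)) = 0 := by
    rw [← map_natCast (algebraMap K (Module.End K (𝒦 ⊗[K] V))), CharP.cast_eq_zero, map_zero]
  have hpow : (f + g) ^ p = f ^ p + g ^ p := by
    rw [hcomm.add_pow_prime_eq hp, hp0, zero_mul, zero_mul, zero_mul, add_zero]
  have h1 : T.comp μ = μ.comp (f + g) := by
    apply TensorProduct.ext'
    intro a v
    rw [LinearMap.comp_apply, LinearMap.comp_apply, LinearMap.add_apply, hf, hg,
      LinearMap.rTensor_tmul, LinearMap.lTensor_tmul, map_add, hμ, hμ, hμ, hT]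
    rfl
  have h2 : ∀ n : ℕ, (T ^ n).comp μ = μ.comp ((f + g) ^ n) := by
    intro n
    induction n with
    | zero => rfl
    | succ n ih =>
      rw [pow_succ', pow_succ', Module.End.mul_eq_comp, Module.End.mul_eq_comp,
        LinearMap.comp_assoc, ih, ← LinearMap.comp_assoc, h1, LinearMap.comp_assoc]
  have h3 := LinearMap.congr_fun (h2 p) (a ⊗ₜ v)
  rw [LinearMap.comp_apply, LinearMap.comp_apply, hpow, LinearMap.add_apply, hμ, map_add, hf, hg,
    LinearMap.rTensor_pow, LinearMap.lTensor_pow, LinearMap.rTensor_tmul, LinearMap.lTensor_tmul,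
    hμ, hμ] at h3
  exact h3

end tensor

section field

variable {K : Type*} [Field K] {r : ℕ} (A : Matrix (Fin r) (Fin r) (RatFunc K))

/-- `(d/dx) ^ p = 0` in characteristic `p` -/
lemma ddx_pow_p (p : ℕ) (hp : p.Prime) [CharP K p] (f : RatFunc K) :
    ((W432.PC.ddx K : RatFunc K →ₗ[K] RatFunc K) ^ p) f = 0 := by
  set d : RatFunc K →ₗ[K] RatFunc K := (W432.PC.ddx K : RatFunc K →ₗ[K] RatFunc K) with hd
  have hl : ∀ a b : RatFunc K, (d ^ p) (a * b) = (d ^ p) a * b + a * (d ^ p) b := by
    intro a b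
    have h := pow_leibniz (V := RatFunc K) (W432.PC.ddx K) d (fun a v => by
      change W432.PC.ddx K (a * v) = W432.PC.ddx K a * v + a * W432.PC.ddx K v
      rw [Derivation.leibniz, smul_eq_mul, smul_eq_mul]
      ring) p hp a b
    rw [smul_eq_mul, smul_eq_mul, smul_eq_mul] at h
    exact h
  have h2 : ∃ t, p = t + 2 := ⟨p - 2, by have := hp.two_le; omega⟩
  obtain ⟨t, ht⟩ := h2
  have hX : (d ^ p) RatFunc.X = 0 := by
    rw [ht, pow_add, Module.End.mul_apply]
    have : (d ^ 2) (RatFunc.X : RatFunc K) = 0 := by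
      rw [pow_two, Module.End.mul_apply]
      change W432.PC.ddx K (W432.PC.ddx K RatFunc.X) = 0
      rw [W432.PC.ddx_X, Derivation.map_one_eq_zero]
    rw [this, map_zero]
  have hC : ∀ c : K, (d ^ p) (algebraMap K (RatFunc K) c) = 0 := by
    intro c
    rw [ht, pow_succ, Module.End.mul_apply]
    have : d (algebraMap K (RatFunc K) c) = 0 := (W432.PC.ddx K).map_algebraMap c
    rw [this, map_zero]
  have hpoly : ∀ q : K[X], (d ^ p) (algebraMap K[X] (RatFunc K) q) = 0 := by
    intro q
    induction q using Polynomial.induction_on with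
    | C a => exact hC a
    | add p q hp hq => rw [map_add, map_add, hp, hq, add_zero]
    | monomial n a h =>
      rw [pow_succ, ← mul_assoc, map_mul, RatFunc.algebraMap_X, hl, h, hX, zero_mul, mul_zero,
        add_zero]
  have hne : algebraMap K[X] (RatFunc K) f.denom ≠ 0 := by
    rw [Ne, map_eq_zero_iff _ (RatFunc.algebraMap_injective K)]
    exact f.denom_ne_zero
  have h3 : (d ^ p) (algebraMap K[X] (RatFunc K) f.denom * f) = 0 := by
    have : algebraMap K[X] (RatFunc K) f.denom * f = algebraMap K[X] (RatFunc K) f.num := by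
      have h5 := RatFunc.num_div_denom f
      rw [div_eq_iff hne] at h5
      rw [h5, mul_comm]
    rw [this, hpoly]
  rw [hl, hpoly, zero_mul, zero_add] at h3
  rcases mul_eq_zero.1 h3 with h4 | h4
  · exact absurd h4 hne
  · exact h4

/-- the connection as a linear map over the constants -/
noncomputable def connLin : (Fin r → RatFunc K) →ₗ[K] (Fin r → RatFunc K) where
  toFun := conn A
  map_add' := conn_add A
  map_smul' c v := by
    have h : c • v = (algebraMap K (RatFunc K) c) • v := (algebraMap_smul (RatFunc K) c v).symm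
    rw [h, conn_smul, Derivation.map_algebraMap, zero_smul, zero_add, RingHom.id_apply,
      algebraMap_smul]

lemma connLin_pow (n : ℕ) (v : Fin r → RatFunc K) : (connLin A ^ n) v = (conn A)^[n] v := by
  rw [Module.End.pow_apply]
  rfl

/-- the `p`-curvature as a linear map over `K(x)` -/
noncomputable def pcurv (p : ℕ) (hp : p.Prime) [CharP K p] :
    (Fin r → RatFunc K) →ₗ[RatFunc K] (Fin r → RatFunc K) where
  toFun := (conn A)^[p]
  map_add' := conn_iterate_add A p
  map_smul' a v := by
    have h := pow_leibniz (W432.PC.ddx K) (connLin A) (fun a v => conn_smul A a v) p hp a v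
    rw [ddx_pow_p p hp, zero_smul, zero_add, connLin_pow, connLin_pow] at h
    exact h

lemma pcurv_pow (p : ℕ) (hp : p.Prime) [CharP K p] (n : ℕ) (v : Fin r → RatFunc K) :
    (pcurv A p hp ^ n) v = (conn A)^[p * n] v := by
  rw [Module.End.pow_apply, Function.iterate_mul]
  rfl

/-- a nilpotent `p`-curvature has exponent at most `r` -/
theorem PCurvNilpotent.iterate {A : Matrix (Fin r) (Fin r) (RatFunc K)} (h : PCurvNilpotent A)
    {p : ℕ} (hp : p.Prime) [CharP K p] (v : Fin r → RatFunc K) : (conn A)^[p * r] v = 0 := by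
  obtain ⟨m, hm⟩ := h
  have hpc : ringChar K = p := ringChar.eq K p
  rw [hpc] at hm
  have h1 : pcurv A p hp ^ (max m r) = 0 := by
    ext1 v
    have h2 : (pcurv A p hp ^ m) = 0 := by
      apply LinearMap.ext
      intro v
      rw [pcurv_pow, hm]
      rfl
    rw [← Nat.sub_add_cancel (le_max_left m r), pow_add, h2, mul_zero]
  have h2 := Module.End.ker_pow_eq_ker_pow_finrank_of_le (f := pcurv A p hp) (m := max m r) (by
    rw [Module.finrank_fin_fun]
    exact le_max_right _ _)
  rw [h1, Module.finrank_fin_fun] at h2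
  rw [← pcurv_pow A p hp]
  have h3 : v ∈ LinearMap.ker (pcurv A p hp ^ r) := by
    rw [← h2]
    simp
  exact h3

end field

end Pool.Agent.N169.PC
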