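import Pool.Agent.N169.PC.Conn

/-!
# Simple differential modules over `k(x)`
-/

set_option autoImplicit false
set_option linter.unusedSectionVars false

open Polynomial

namespace Pool.Agent.N169.PC

section constants

variable {k : Type*} [Field k] [CharZero k]

/-- the constants of `k(x)` -/
lemma ddx_eq_zero {f : RatFunc k} (hf : W432.PC.ddx k f = 0) :
    ∃ c : k, f = algebraMap k (RatFunc k) c := by
  have hne : algebraMap k[X] (RatFunc k) f.denom ≠ 0 := by
    rw [Ne, map_eq_zero_iff _ (RatFunc.algebraMap_injective k)]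
    exact f.denom_ne_zero
  have h1 : f * algebraMap k[X] (RatFunc k) f.denom = algebraMap k[X] (RatFunc k) f.num := by
    have h5 := RatFunc.num_div_denom f
    rw [div_eq_iff hne] at h5
    exact h5.symm
  have h2 : f * algebraMap k[X] (RatFunc k) (derivative f.denom) =
      algebraMap k[X] (RatFunc k) (derivative f.num) := by
    rw [← W432.PC.ddx_algebraMap, ← W432.PC.ddx_algebraMap, ← h1, Derivation.leibniz, hf,
      smul_zero, add_zero, smul_eq_mul]
  have h3 : f.num * derivative f.denom = f.denom * derivative f.num := by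
    apply RatFunc.algebraMap_injective k
    rw [map_mul, map_mul, ← h1, ← h2]
    ring
  have h4 : f.denom ∣ derivative f.denom := by
    have h5 : f.denom ∣ f.num * derivative f.denom := ⟨_, h3⟩
    exact (RatFunc.isCoprime_num_denom f).symm.dvd_of_dvd_mul_left h5
  have h5 : derivative f.denom = 0 := by
    by_contra hcon
    have h6 := natDegree_le_of_dvd h4 hcon
    have h7 := natDegree_derivative_lt (p := f.denom) (by
      intro h8
      apply hcon
      exact derivative_of_natDegree_zero h8)
    omega
  have h6 := derivative_eq_zero.1 h5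
  have h7 : f.denom = 1 := eq_one_of_monic_natDegree_zero f.monic_denom h6
  have h8 : derivative f.num = 0 := by
    rw [h7] at h3
    simpa using h3.symm
  have h9 := derivative_eq_zero.1 h8
  rw [h7, map_one, mul_one] at h1
  refine ⟨f.num.coeff 0, h1.trans ?_⟩
  conv_lhs => rw [eq_C_of_natDegree_eq_zero h9]
  rfl

end constants

section schur

variable {k : Type*} [Field k] [IsAlgClosed k] [CharZero k] {M : Type*} [AddCommGroup M]
  [Module (RatFunc k) M] [FiniteDimensional (RatFunc k) M] [Nontrivial M] {D : M → M}

/-- Schur's lemma for differential modules -/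
theorem schur (hadd : ∀ v w, D (v + w) = D v + D w) (h0 : D 0 = 0)
    (hsmul : ∀ (a : RatFunc k) v, D (a • v) = W432.PC.ddx k a • v + a • D v)
    (hsimple : ∀ U : Submodule (RatFunc k) M, (∀ u ∈ U, D u ∈ U) → U = ⊥ ∨ U = ⊤)
    (f : M →ₗ[RatFunc k] M) (hf : ∀ v, f (D v) = D (f v)) :
    ∃ c : k, ∀ v, f v = (algebraMap k (RatFunc k) c) • v := by
  classical
  have hsum : ∀ (s : Finset ℕ) (g : ℕ → M), D (∑ i ∈ s, g i) = ∑ i ∈ s, D (g i) := by
    intro s g
    induction s using Finset.induction_on with
    | empty => simpa using h0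
    | insert a s ha ih => rw [Finset.sum_insert ha, Finset.sum_insert ha, hadd, ih]
  have hfpow : ∀ (n : ℕ) v, (f ^ n) (D v) = D ((f ^ n) v) := by
    intro n
    induction n with
    | zero => intro v; rfl
    | succ n ih =>
      intro v
      rw [pow_succ', Module.End.mul_apply, Module.End.mul_apply, ih, hf]
  set μ := minpoly (RatFunc k) f with hμ
  have hint : IsIntegral (RatFunc k) f := Algebra.IsIntegral.isIntegral f
  have hmonic : μ.Monic := minpoly.monic hint
  set dμ : (RatFunc k)[X] := ∑ i ∈ Finset.range μ.natDegree, monomial i (W432.PC.ddx k (μ.coeff i))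
    with hdμ
  have haeval : ∀ v, (aeval f μ) v = ∑ i ∈ Finset.range (μ.natDegree + 1), μ.coeff i • (f ^ i) v := by
    intro v
    rw [aeval_eq_sum_range, LinearMap.sum_apply]
    rfl
  have h1 : aeval f dμ = 0 := by
    apply LinearMap.ext
    intro v
    have h2 : (aeval f μ) v = 0 := by rw [hμ, minpoly.aeval]; rfl
    have h3 : (aeval f μ) (D v) = 0 := by rw [hμ, minpoly.aeval]; rfl
    have h4 : D ((aeval f μ) v) = 0 := by rw [h2, h0]
    rw [haeval, hsum] at h4
    simp only [hsmul, Finset.sum_add_distrib, ← hfpow] at h4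
    rw [← haeval, h3, add_zero, Finset.sum_range_succ, hmonic.coeff_natDegree,
      Derivation.map_one_eq_zero, zero_smul, add_zero] at h4
    rw [hdμ, map_sum, LinearMap.sum_apply, LinearMap.zero_apply, ← h4]
    refine Finset.sum_congr rfl fun i _ => ?_
    rw [aeval_monomial, Module.End.mul_apply]
    rfl
  have h2 : dμ = 0 := by
    by_contra hcon
    have h3 := minpoly.degree_le_of_ne_zero (RatFunc k) f hcon h1
    have h4 : dμ.degree < (μ.natDegree : WithBot ℕ) := by
      rw [degree_lt_iff_coeff_zero]
      intro m hm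
      rw [hdμ, finsetSum_coeff]
      refine Finset.sum_eq_zero fun i hi => ?_
      rw [coeff_monomial, if_neg]
      rw [Finset.mem_range] at hi
      omega
    rw [← degree_eq_natDegree hmonic.ne_zero] at h4
    exact absurd h3 (not_le.2 h4)
  have h3 : ∀ i, ∃ c : k, μ.coeff i = algebraMap k (RatFunc k) c := by
    intro i
    rcases lt_trichotomy i μ.natDegree with h | h | h
    · apply ddx_eq_zero
      have h4 := congrArg (fun q => coeff q i) h2
      simp only [coeff_zero] at h4
      rw [hdμ, finsetSum_coeff, Finset.sum_eq_single i] at h4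
      · rw [coeff_monomial, if_pos rfl] at h4
        exact h4
      · intro b _ hb
        rw [coeff_monomial, if_neg hb]
      · intro h'
        exact absurd (Finset.mem_range.2 h) h'
    · exact ⟨1, by rw [h, hmonic.coeff_natDegree, map_one]⟩
    · exact ⟨0, by rw [coeff_eq_zero_of_natDegree_lt h, map_zero]⟩
  have h4 : μ ∈ lifts (algebraMap k (RatFunc k)) := by
    rw [lifts_iff_coeff_lifts]
    intro i
    obtain ⟨c, hc⟩ := h3 i
    exact ⟨c, hc.symm⟩
  rw [mem_lifts] at h4
  obtain ⟨μ₀, hμ₀⟩ := h4
  have hdeg : μ₀.degree ≠ 0 := by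
    have h5 := minpoly.degree_pos hint
    rw [← hμ, ← hμ₀, degree_map] at h5
    exact h5.ne'
  obtain ⟨c, hc⟩ := IsAlgClosed.exists_root μ₀ hdeg
  have hroot : μ.IsRoot (algebraMap k (RatFunc k) c) := by
    rw [← hμ₀]
    exact hc.map
  have heig := Module.End.hasEigenvalue_of_isRoot (f := f) hroot
  obtain ⟨v, hv, hv0⟩ := heig.exists_hasEigenvector
  rcases hsimple (Module.End.eigenspace f (algebraMap k (RatFunc k) c)) (by
    intro u hu
    rw [Module.End.mem_eigenspace_iff] at hu ⊢
    rw [hf, hu, hsmul, Derivation.map_algebraMap, zero_smul, zero_add]) with h5 | h5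
  · have hv' : v ∈ Module.End.eigenspace f (algebraMap k (RatFunc k) c) := hv
    rw [h5, Submodule.mem_bot] at hv'
    exact absurd hv' hv0
  · refine ⟨c, fun w => ?_⟩
    have h6 : w ∈ Module.End.eigenspace f (algebraMap k (RatFunc k) c) := by
      rw [h5]; exact Submodule.mem_top
    exact Module.End.mem_eigenspace_iff.1 h6

end schur

end Pool.Agent.N169.PC
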